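import Pool.Agent.Helper9.DY.CaseII
import Pool.Agent.Helper62.DY.LemA3

/-!
# Case II, the two exceptional roots of NONGAP (MP_d13a5e_al)

`v_A = s t + (s^2-1) d1 + (s^2+s-1) d2` for the labels `(2 b1, 2 b2, 2 b0) = (s, 1, 1)` and
`v_B = (s+1) t + d1 + (s^2+s) d2` for the labels `(1, s, 1)`, `s ≥ √2`.
-/

set_option autoImplicit false

namespace DY

open Set
open Pool.Agent.Helper62.DY (RT rt_of_tri)

section real

variable {b1 b2 bO s : ℝ} {R : ℝ → ℝ → ℝ → Prop}

/-- descent: no root has the coordinates `a, b, a + δ` with `0 < δ < 1` -/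
theorem det_aux (h : RT b1 b2 bO R) (hs : 1 ≤ s) (e1 : 2 * b1 = s) (e2 : 2 * b2 = 1) (e3 : 2 * bO = 1)
    {δ : ℝ} (hδ : 0 < δ) (hδ1 : δ < 1) (N : ℕ) : ∀ a b : ℝ, R a b (a + δ) → 1 ≤ a → 1 ≤ b →
      a + b ≤ N * δ → False := by
  induction N with
  | zero =>
    intro a b _ ha hb h1
    simp at h1
    linarith only [ha, hb, h1]
  | succ N ih =>
    intro a b hR ha hb h1
    push_cast at h1
    have hn := h.n _ _ _ hR
    rw [e1, e2, e3] at hn
    have hn' : a ^ 2 + b ^ 2 + a * δ - b * δ + δ ^ 2 - (s + 1) * (a * b) = 1 := by linarith only [hn]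
    have hsab : 0 ≤ (s - 1) * (a * b) := mul_nonneg (by linarith only [hs]) (by positivity)
    rcases le_or_gt b a with hab | hab
    · -- reflect in `t + d2`
      have k1 := h.r0 _ _ _ hR
      rw [e1, e2] at k1
      have k2 := h.r2 _ _ _ k1
      rw [e2, e3] at k2
      have k3 := h.r0 _ _ _ k2
      rw [e1, e2] at k3
      have k4 : R ((s + 1) * b - δ - a) b ((s + 1) * b - δ - a + δ) := by
        convert k3 using 1 <;> ring
      obtain ⟨z0, -, z2⟩ := h.z1 k4 (by linarith only [hb])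
      have hpos : 1 ≤ (s + 1) * b - δ - a := by
        rcases z0 with z0 | z0
        · exfalso
          rw [z0, zero_add] at z2
          rcases z2 with z2 | z2 <;> linarith
        · exact z0
      refine ih _ _ k4 hpos hb ?_
      -- `a * (a - a') ≥ a * δ`
      have h5 : 0 ≤ a * (a - ((s + 1) * b - δ - a) - δ) := by
        have : a * (a - ((s + 1) * b - δ - a) - δ) = (a - b) * (a + b - δ) + 1 - δ ^ 2 := by
          linear_combination hn'
        rw [this]
        have := mul_nonneg (by linarith only [hab] : 0 ≤ a - b) (by linarith only [hδ1, ha, hb] : 0 ≤ a + b - δ)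
        nlinarith only [hδ1, ha, hb, h1, this]
      have h6 := nonneg_of_mul_nonneg_right h5 (by linarith only [ha])
      linarith only [h1, h6]
    · -- reflect in `d1`
      have k1 := h.r1 _ _ _ hR
      rw [e1, e3] at k1
      have k4 : R a ((s + 1) * a + δ - b) (a + δ) := by
        convert k1 using 1 <;> ring
      have hba : a + δ < b := by
        by_contra h3
        rw [not_lt] at h3
        have h4 : (s + 1) * (a * b) = (b - a) * (b - a - δ) + 2 * (a * b) + δ ^ 2 - 1 := by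
          linear_combination -hn'
        have h5 := mul_nonneg (by linarith only [hab] : 0 ≤ b - a) (by linarith only [h3] : 0 ≤ -(b - a - δ))
        nlinarith only [hδ, hδ1, hn', hsab, h5]
      obtain ⟨-, z1, -⟩ := h.z0 k4 (by linarith only [ha])
      have hpos : 1 ≤ (s + 1) * a + δ - b := by
        rcases z1 with z1 | z1
        · exfalso
          have h5 := h.n _ _ _ k4
          rw [z1, e2] at h5
          nlinarith only [hδ, ha, h5]
        · exact z1
      refine ih _ _ k4 ha hpos ?_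
      have h5 : 0 ≤ b * (b - ((s + 1) * a + δ - b) - δ) := by
        have : b * (b - ((s + 1) * a + δ - b) - δ) = b ^ 2 - a ^ 2 - a * δ - δ ^ 2 + 1 - b * δ := by
          linear_combination hn'
        rw [this]
        nlinarith only [hδ, hδ1, mul_nonneg (by linarith only [hba] : 0 ≤ b - (a + δ)) (by linarith only [ha, hb] : 0 ≤ b + a)]
      have h6 := nonneg_of_mul_nonneg_right h5 (by linarith only [hb])
      linarith only [h1, h6]

/-- no root has the coordinates `a, b, a + δ` with `0 < δ < 1` and `a, b ≥ 1` -/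
theorem det_one (h : RT b1 b2 bO R) (hs : 1 ≤ s) (e1 : 2 * b1 = s) (e2 : 2 * b2 = 1) (e3 : 2 * bO = 1)
    {a b δ : ℝ} (hδ : 0 < δ) (hδ1 : δ < 1) (hR : R a b (a + δ)) (ha : 1 ≤ a) (hb : 1 ≤ b) : False := by
  obtain ⟨N, hN⟩ := exists_nat_ge ((a + b) / δ)
  rw [div_le_iff₀ hδ] at hN
  exact det_aux h hs e1 e2 e3 hδ hδ1 N a b hR ha hb hN

/-- the descent for `-1 < δ < 0` -/
theorem det_aux' (h : RT b1 b2 bO R) (hs : 1 ≤ s) (e1 : 2 * b1 = s) (e2 : 2 * b2 = 1) (e3 : 2 * bO = 1)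
    {δ : ℝ} (hδ : 0 < δ) (hδ1 : δ < 1) (N : ℕ) : ∀ a b : ℝ, R a b (a - δ) → 1 ≤ a → 1 ≤ b →
      a + b ≤ N * δ → False := by
  induction N with
  | zero =>
    intro a b _ ha hb h1
    simp at h1
    linarith only [ha, hb, h1]
  | succ N ih =>
    intro a b hR ha hb h1
    push_cast at h1
    have hn := h.n _ _ _ hR
    rw [e1, e2, e3] at hn
    have hn' : a ^ 2 + b ^ 2 - a * δ + b * δ + δ ^ 2 - (s + 1) * (a * b) = 1 := by linarith only [hn]
    have hsab : 0 ≤ (s - 1) * (a * b) := mul_nonneg (by linarith only [hs]) (by positivity)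
    obtain ⟨-, -, zc⟩ := h.z0 hR (by linarith only [ha])
    have hc : 1 ≤ a - δ := by
      rcases zc with h2 | h2
      · linarith only [hδ1, ha, h2]
      · exact h2
    rcases lt_or_ge b a with hab | hab
    · -- reflect in `t + d2`
      have k1 := h.r0 _ _ _ hR
      rw [e1, e2] at k1
      have k2 := h.r2 _ _ _ k1
      rw [e2, e3] at k2
      have k3 := h.r0 _ _ _ k2
      rw [e1, e2] at k3
      have k4 : R ((s + 1) * b + δ - a) b ((s + 1) * b + δ - a - δ) := by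
        convert k3 using 1 <;> ring
      obtain ⟨z0, -, z2⟩ := h.z1 k4 (by linarith only [hb])
      have hpos : 1 ≤ (s + 1) * b + δ - a := by
        rcases z0 with z0 | z0
        · exfalso
          rw [z0, zero_sub] at z2
          rcases z2 with z2 | z2 <;> linarith only [hδ, z2]
        · exact z0
      have hba : b + δ < a := by
        by_contra h3
        rw [not_lt] at h3
        have h4 : (s + 1) * (a * b) = (a - b) * (a - b - δ) + 2 * (a * b) + δ ^ 2 - 1 := by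
          linear_combination -hn'
        have h5 := mul_nonneg (by linarith only [hab] : 0 ≤ a - b) (by linarith only [h3] : 0 ≤ -(a - b - δ))
        nlinarith only [hδ1, hsab, hab, h3, h4]
      refine ih _ _ k4 hpos hb ?_
      have h5 : 0 ≤ a * (a - ((s + 1) * b + δ - a) - δ) := by
        have : a * (a - ((s + 1) * b + δ - a) - δ) = (a + b) * (a - b - δ) + 1 - δ ^ 2 := by
          linear_combination hn'
        rw [this]
        have := mul_nonneg (by linarith only [ha, hb] : 0 ≤ a + b) (by linarith only [hba] : 0 ≤ a - b - δ)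
        nlinarith only [hδ, hδ1, this]
      have h6 := nonneg_of_mul_nonneg_right h5 (by linarith only [ha])
      linarith only [h1, h6]
    · -- reflect in `d1`
      have k1 := h.r1 _ _ _ hR
      rw [e1, e3] at k1
      have k4 : R a ((s + 1) * a - δ - b) (a - δ) := by
        convert k1 using 1 <;> ring
      obtain ⟨-, z1, -⟩ := h.z0 k4 (by linarith only [ha])
      have hpos : 1 ≤ (s + 1) * a - δ - b := by
        rcases z1 with z1 | z1
        · exfalso
          have h5 := h.n _ _ _ k4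
          rw [z1, e2] at h5
          nlinarith only [hδ, hc, h5]
        · exact z1
      refine ih _ _ k4 ha hpos ?_
      have h5 : 0 ≤ b * (b - ((s + 1) * a - δ - b) - δ) := by
        have : b * (b - ((s + 1) * a - δ - b) - δ) = (b - a) * (b + a - δ) + 1 - δ ^ 2 := by
          linear_combination hn'
        rw [this]
        have := mul_nonneg (by linarith only [hab] : 0 ≤ b - a) (by linarith only [hδ1, ha, hb] : 0 ≤ b + a - δ)
        nlinarith only [hδ1, ha, hb, h1, this]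
      have h6 := nonneg_of_mul_nonneg_right h5 (by linarith only [hb])
      linarith only [h1, h6]

/-- no root has the coordinates `a, b, a - δ` with `0 < δ < 1` and `a, b ≥ 1` -/
theorem det_one' (h : RT b1 b2 bO R) (hs : 1 ≤ s) (e1 : 2 * b1 = s) (e2 : 2 * b2 = 1) (e3 : 2 * bO = 1)
    {a b δ : ℝ} (hδ : 0 < δ) (hδ1 : δ < 1) (hR : R a b (a - δ)) (ha : 1 ≤ a) (hb : 1 ≤ b) : False := by
  obtain ⟨N, hN⟩ := exists_nat_ge ((a + b) / δ)
  rw [div_le_iff₀ hδ] at hN
  exact det_aux' h hs e1 e2 e3 hδ hδ1 N a b hR ha hb hN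

/-- bounds for `ε` -/
theorem eps_bound (hs0 : 0 < s) (hs : 2 ≤ s ^ 2) {ε : ℝ} (h0 : 0 ≤ ε) (h1 : ε ≤ 1)
    (h2 : (s ^ 3 + s ^ 2 - s + 1) * ε ≤ 1 + ε ^ 2) :
    ε * (s ^ 3 + 2 * s ^ 2 - 1) ≤ s ∧ ε * (2 * s ^ 2 + 2 * s - 1) < s ∧ ε * (s + 2) < 1 := by
  have hs1 : 1.414 < s := by nlinarith only [hs0, hs]
  have hm : s + 3 ≤ s ^ 3 + s ^ 2 - s + 1 := by nlinarith only [hs0, hs]
  have h4 : ε ≤ 1 / 4 := by
    by_contra h3
    rw [not_le] at h3
    have h5 : (s + 3) * ε ≤ 1 + ε ^ 2 := le_trans (mul_le_mul_of_nonneg_right hm h0) h2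
    nlinarith only [h1, h2, hs1, hm, h3]
  have h5 : (s ^ 3 + s ^ 2 - s + 3 / 4) * ε ≤ 1 := by nlinarith only [h2, hs1, hm, h4]
  have p1 : s ^ 3 + 2 * s ^ 2 - 1 ≤ s * (s ^ 3 + s ^ 2 - s + 3 / 4) := by
    nlinarith only [hs1, mul_nonneg (by linarith only [hs] : 0 ≤ s ^ 2 - 2) (by linarith only [hs] : 0 ≤ s ^ 2 - 2)]
  have p2 : 2 * s ^ 2 + 2 * s - 1 < s * (s ^ 3 + s ^ 2 - s + 3 / 4) := by
    nlinarith only [hs1, mul_nonneg (by linarith only [hs] : 0 ≤ s ^ 2 - 2) (by linarith only [hs] : 0 ≤ s ^ 2 - 2),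
      mul_nonneg (by linarith only [hs] : 0 ≤ s ^ 2 - 2) (by linarith only [hs1] : 0 ≤ s - 1.414)]
  have h6 : s * ((s ^ 3 + s ^ 2 - s + 3 / 4) * ε) ≤ s := by nlinarith only [hm, h5, p1]
  refine ⟨?_, ?_, ?_⟩
  · have := mul_le_mul_of_nonneg_left p1 h0
    nlinarith only [h6, this]
  · rcases h0.lt_or_eq with h7 | h7
    · have := mul_lt_mul_of_pos_left p2 h7
      nlinarith only [p2, h6, h7]
    · rw [← h7]
      simpa using hs0
  · have p3 : s + 2 < s ^ 3 + s ^ 2 - s + 3 / 4 := by nlinarith only [hm]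
    rcases h0.lt_or_eq with h7 | h7
    · have := mul_lt_mul_of_pos_left p3 h7
      nlinarith only [h5, this]
    · rw [← h7]
      simp

/-- the real inequality of `v_A` -/
theorem vA_real (hs0 : 0 < s) (hs : 2 ≤ s ^ 2) {ε : ℝ} (h0 : 0 ≤ ε) (h1 : ε ≤ 1)
    (h2 : (s ^ 3 + s ^ 2 - s + 1) * ε ≤ 1 + ε ^ 2) {A K E δ : ℝ} (hK : 1 ≤ K) (hE : 1 ≤ E) (hδ : 1 ≤ δ)
    (hAE : A = s * E + δ) (hc1 : Z1 (K - δ)) (hc2 : K - δ ≠ 0 → Z1 (s * (K - δ) + K - E))
    (hn : E ^ 2 + K ^ 2 + δ ^ 2 + s * E * δ - (s + 1) * E * K - δ * K = 1) :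
    (s + 1) * (s - 1 + A) * ε < K * (s + ε) := by
  obtain ⟨i1, i2, i3⟩ := eps_bound hs0 hs h0 h1 h2
  rcases hc1 with hc | hc
  · -- `K = δ`
    have hKδ : δ = K := by linarith only [hc]
    subst hKδ
    have h3 : (E - δ) ^ 2 + (E * δ - 1) = 0 := by linear_combination hn
    have h4 : 1 ≤ E * δ := one_le_mul_of_one_le_of_one_le hE hδ
    have h5 : E * δ = 1 := by nlinarith only [h3, h4, sq_nonneg (E - δ)]
    have h6 : E = 1 := by nlinarith only [hK, h3, h4]
    have h7 : δ = 1 := by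
      rw [h6] at h5
      linarith only [h5]
    rw [hAE, h6, h7]
    nlinarith only [i2]
  · have hc2' := hc2 (by linarith only [hc])
    set c1 := K - δ with hc1
    set b := s * c1 + K - E with hb
    have hKe : K = c1 + δ := by rw [hc1]; ring
    have hEe : E = s * c1 + K - b := by rw [hb]; ring
    -- product relation
    have h3 : E * b = K ^ 2 + δ ^ 2 - δ * K - 1 := by
      rw [hb, hc1]
      linear_combination -hn
    have hb1 : 1 ≤ b := by
      rcases hc2' with h4 | h4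
      · exfalso
        rw [h4, mul_zero] at h3
        have h5 : 1 ≤ K * (K - δ) := one_le_mul_of_one_le_of_one_le hK (by rw [← hc1]; exact hc)
        nlinarith only [hE, hδ, hn, h4, h5]
      · exact h4
    -- `c3 ≥ 0`
    have h4 : c1 * ((s + 1) * b - K) = b ^ 2 - b * δ + δ ^ 2 - 1 := by
      have : (s + 1) * b - K = (s + 1) * b - (c1 + δ) := by rw [hKe]
      have h5 : c1 ^ 2 + b ^ 2 + c1 * δ - b * δ + δ ^ 2 - (s + 1) * b * c1 = 1 := by
        have h6 : E = (s + 1) * c1 + δ - b := by rw [hEe, hKe]; ring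
        rw [h6, hKe] at hn
        linear_combination hn
      rw [this]
      linear_combination -h5
    have h5 : 0 ≤ (s + 1) * b - K := by
      have h6 : 0 ≤ c1 * ((s + 1) * b - K) := by
        rw [h4]
        have h7 : 1 ≤ b * δ := one_le_mul_of_one_le_of_one_le hb1 hδ
        nlinarith only [h7, sq_nonneg (b - δ)]
      exact nonneg_of_mul_nonneg_right h6 (by linarith only [hc])
    -- linear argument
    have hE' : E = (s + 1) * K - s * δ - b := by rw [hEe, hc1]; ring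
    have goal : K * (s + ε) - (s + 1) * (s - 1 + A) * ε =
        K * (s - ε * (s ^ 3 + 2 * s ^ 2 + s - 1)) + δ * (ε * (s ^ 2 - 1) * (s + 1)) +
          s * (s + 1) * b * ε - (s ^ 2 - 1) * ε := by
      rw [hAE, hE']
      ring
    have hs1 : 1.414 < s := by nlinarith only [hs0, hs]
    rcases h0.lt_or_eq with hε | hε
    swap
    · rw [← hε]
      have : 0 < K * s := by positivity
      linarith only [this]
    have h6 : (s ^ 2 - 1) * ε < δ * (ε * (s ^ 2 - 1) * (s + 1)) := by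
      have h7 : 0 < (s ^ 2 - 1) * ε := mul_pos (by nlinarith only [hs1]) hε
      have h8 : 1 < δ * (s + 1) := by nlinarith only [hs0, hδ]
      nlinarith only [mul_lt_mul_of_pos_left h8 h7]
    have h7 : 0 ≤ K * (s - ε * (s ^ 3 + 2 * s ^ 2 + s - 1)) + s * (s + 1) * b * ε := by
      rcases le_or_gt 0 (s - ε * (s ^ 3 + 2 * s ^ 2 + s - 1)) with h8 | h8
      · have : 0 < s * (s + 1) * b * ε := by positivity
        have := mul_nonneg (by linarith only [hK] : 0 ≤ K) h8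
        linarith
      · have h9 := mul_le_mul_of_nonpos_right (by linarith only [h5] : K ≤ (s + 1) * b) h8.le
        have h10 : (s + 1) * b * (s - ε * (s ^ 3 + 2 * s ^ 2 + s - 1)) + s * (s + 1) * b * ε =
          (s + 1) * b * (s - ε * (s ^ 3 + 2 * s ^ 2 - 1)) := by ring
        have h11 : 0 ≤ (s + 1) * b * (s - ε * (s ^ 3 + 2 * s ^ 2 - 1)) :=
          mul_nonneg (by positivity) (by linarith only [i1])
        linarith only [h9, h11]
    linarith only [goal, h6, h7]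

/-- the root `x'` in the case of `v_A` -/
theorem vA_core (h : RT b1 b2 bO R) (hs0 : 0 < s) (hs : 2 ≤ s ^ 2) (e1 : 2 * b1 = s) (e2 : 2 * b2 = 1)
    (e3 : 2 * bO = 1) {A y1 y2 f1 f2 : ℝ} (hR : R A y1 y2) (hA : 1 ≤ A)
    (hf : A + y1 * f1 + y2 * f2 = 0) (hx : s + (s ^ 2 - 1) * f1 + (s ^ 2 + s - 1) * f2 = 0)
    (hst : (s ^ 2 - 1) * y2 < (s ^ 2 + s - 1) * y1) (hb : f1 + f2 < 0) (hf1 : 0 < f1) :
    ((∀ ε : ℝ, 0 ≤ ε → ε ≤ 1 → (s ^ 3 + s ^ 2 - s + 1) * ε ≤ 1 + ε ^ 2 →
      (s + 1) * (s - 1 + A) * ε < ((s + 1) * A - y1) * (s + ε)) ∧ 0 ≤ s * y2 - y1) ∨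
    (A = 1 ∧ y1 = s + 1 ∧ y2 = s + 1) := by
  have hs1 : 1.414 < s := by nlinarith only [hs0, hs]
  obtain ⟨K, hK⟩ : ∃ K, K = (s + 1) * A - y1 := ⟨_, rfl⟩
  obtain ⟨E, hE⟩ : ∃ E, E = (s + 1) * A - y2 := ⟨_, rfl⟩
  obtain ⟨δ, hδ⟩ : ∃ δ, δ = A - s * E := ⟨_, rfl⟩
  have f4 : f1 * (y1 * (s ^ 2 + s - 1) - (s ^ 2 - 1) * y2) = δ := by
    rw [hδ, hE]
    linear_combination (s ^ 2 + s - 1) * hf - y2 * hx
  have hδ0 : 0 < δ := by
    rw [← f4]
    exact mul_pos hf1 (by linarith only [hst])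
  -- the root `(A, E, K)`
  have k1 := h.r1 _ _ _ hR
  rw [e1, e3] at k1
  have k2 := h.r2 _ _ _ k1
  rw [e2, e3] at k2
  have k3 := h.r1 _ _ _ k2
  rw [e1, e3] at k3
  have k4 : R A E K := by
    rw [hE, hK]
    convert k3 using 1 <;> ring
  obtain ⟨-, zE, zK⟩ := h.z0 k4 (by linarith only [hA])
  have hn4 := h.n _ _ _ k4
  rw [e1, e2, e3] at hn4
  by_cases hE0 : E = 0
  · -- `x'` is the image of `t` under the longest element of `<d1, d2>`
    right
    rw [hE0] at hn4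
    have hn5 : (A - K) ^ 2 + (A * K - 1) = 0 := by linear_combination hn4
    rcases zK with h3 | h3
    · rw [h3] at hn5
      have hA1 : A = 1 := by nlinarith only [hA, hn5]
      refine ⟨hA1, ?_, ?_⟩
      · rw [h3, hA1] at hK
        linarith only [hK]
      · rw [hE0, hA1] at hE
        linarith only [hE]
    · exfalso
      have h4 : 1 ≤ A * K := one_le_mul_of_one_le_of_one_le hA h3
      have h5 : (A - K) ^ 2 = 0 := by nlinarith only [hn5, h4, sq_nonneg (A - K)]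
      have h6 : A = K := by
        have := pow_eq_zero_iff (n := 2) (by norm_num) |>.1 h5
        linarith only [this]
      have h7 : A = 1 := by
        rw [h6] at hn5 ⊢
        nlinarith only [hn5, h3]
      have h8 : K = 1 := by rw [← h6, h7]
      rw [h7, h8] at hK
      rw [h7, hE0] at hE
      have g1 : y1 = s := by linarith only [hK]
      have g2 : y2 = s + 1 := by linarith only [hE]
      rw [g1, g2, h7] at hf
      nlinarith only [hf, hx, hb, hs1]
  left
  have hE1 : 1 ≤ E := by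
    rcases zE with h3 | h3
    · exact absurd h3 hE0
    · exact h3
  have hAE : A = s * E + δ := by rw [hδ]; ring
  have hn : E ^ 2 + K ^ 2 + δ ^ 2 + s * E * δ - (s + 1) * E * K - δ * K = 1 := by
    rw [hAE] at hn4
    linear_combination hn4
  have hK1 : 1 ≤ K := by
    rcases zK with h3 | h3
    · exfalso
      rw [h3] at hn
      have : 0 < s * E * δ := by positivity
      nlinarith only [hE1, hn, this]
    · exact h3
  -- the root `(c1, E, K)`
  have k5 := h.r0 _ _ _ k4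
  rw [e1, e2] at k5
  have k6 : R (K - δ) E (K - δ + δ) := by
    convert k5 using 1
    · rw [hδ]; ring
    · ring
  obtain ⟨zc, -, -⟩ := h.z2 k6 (by linarith only [hK1])
  have hδ1 : 1 ≤ δ := by
    by_contra h3
    rw [not_le] at h3
    rcases zc with h4 | h4
    · linarith only [hK1, h3, h4]
    · exact det_one h (by linarith only [hs1]) e1 e2 e3 hδ0 h3 k6 h4 hE1
  have k7 := h.r1 _ _ _ k6
  rw [e1, e3] at k7
  have k8 : R (K - δ) (s * (K - δ) + K - E) K := by
    convert k7 using 1 <;> ring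
  obtain ⟨-, zb, -⟩ := h.z2 k8 (by linarith only [hK1])
  refine ⟨fun ε h0 h1 h2 => ?_, ?_⟩
  · rw [← hK]
    exact vA_real hs0 hs h0 h1 h2 hK1 hE1 hδ1 hAE zc (fun _ => zb) hn
  · have h3 : y1 = (s + 1) * A - K := by rw [hK]; ring
    have h4 : y2 = (s + 1) * A - E := by rw [hE]; ring
    have h5 : s * y2 - y1 = (s ^ 2 - 2) * A + δ + K := by
      rw [h3, h4, hδ]
      ring
    rw [h5]
    have := mul_nonneg (by linarith only [hs] : 0 ≤ s ^ 2 - 2) (by linarith only [hA] : 0 ≤ A)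
    linarith only [hK1, hδ1, this]

/-- the small root `ε` of `ε² - (s+1) ε + 1` -/
theorem exists_eps (hs0 : 0 < s) (hs : 2 ≤ s ^ 2) : ∃ ε : ℝ, ε ^ 2 - (s + 1) * ε + 1 = 0 ∧ 0 < ε ∧
    ε < 1 ∧ ε ^ 2 < 1 - ε - ε ^ 3 ∧ s * ε < 1 := by
  have hs1 : 1.414 < s := by nlinarith only [hs0, hs]
  have h4 : 0 ≤ (s + 1) ^ 2 - 4 := by nlinarith only [hs1]
  obtain ⟨w, hw⟩ : ∃ w, w = Real.sqrt ((s + 1) ^ 2 - 4) := ⟨_, rfl⟩
  have hw0 : 0 ≤ w := by rw [hw]; exact Real.sqrt_nonneg _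
  have hw2 : w ^ 2 = (s + 1) ^ 2 - 4 := by rw [hw]; exact Real.sq_sqrt h4
  obtain ⟨ε, hε⟩ : ∃ ε, ε = (s + 1 - w) / 2 := ⟨_, rfl⟩
  have q : ε ^ 2 - (s + 1) * ε + 1 = 0 := by
    rw [hε]
    linear_combination (1 / 4) * hw2
  have h5 : w < s + 1 := by
    by_contra h
    rw [not_lt] at h
    nlinarith only [hs1, hε, q, h]
  have h6 : 0 < ε := by rw [hε]; linarith only [h5]
  have h7 : s - 1 < w := by
    by_contra h
    rw [not_lt] at h
    nlinarith only [hs1, hw0, hε, q, h]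
  have h8 : ε < 1 := by rw [hε]; linarith only [h7]
  have h9 : ε ≤ 0.532 := by
    by_contra h
    rw [not_le] at h
    nlinarith only [hs, hs1, q, mul_pos (by linarith only [h] : 0 < ε - 0.532) (by linarith only [h8] : 0 < 1 - ε)]
  have h10 : ε ^ 2 ≤ 0.532 * ε := by nlinarith only [h6, h9]
  refine ⟨ε, q, h6, h8, ?_, by nlinarith only [q, h6, h10]⟩
  have h11 : ε ^ 3 ≤ 0.532 * (0.532 * ε) := by
    have : ε ^ 3 = ε ^ 2 * ε := by ring
    rw [this]
    nlinarith only [h10]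
  nlinarith only [h10]

/-- the root `x'` on the other side of `h`: `ω = x1' - x2' ≥ 1` and `ε A - K ≤ ε ω` -/
theorem vB_aux (h : RT b1 b2 bO R) (hs : 1 ≤ s) (e1 : 2 * b1 = 1) (e2 : 2 * b2 = s)
    (e3 : 2 * bO = 1) {A y1 y2 ε : ℝ} (hR : R A y1 y2) (hA : 1 ≤ A) (hy : y2 < y1) (hε0 : 0 < ε)
    (hε1 : ε < 1) (q0 : ε ^ 2 - (s + 1) * ε + 1 = 0) :
    1 ≤ y1 - y2 ∧ ε * A - ((s + 1) * A - y1) ≤ ε * (y1 - y2) := by
  obtain ⟨ω, hω⟩ : ∃ ω, ω = y1 - y2 := ⟨_, rfl⟩
  obtain ⟨K, hK⟩ : ∃ K, K = (s + 1) * A - y1 := ⟨_, rfl⟩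
  have hω0 : 0 < ω := by linarith only [hy, hω]
  have k1 := h.r1 _ _ _ hR
  rw [e1, e3] at k1
  have k2 := h.r2 _ _ _ k1
  rw [e2, e3] at k2
  have k3 := h.r1 _ _ _ k2
  rw [e1, e3] at k3
  have a1 : 1 * A + 1 * (s * A + 1 * (1 * A + 1 * y2 - y1) - y2) - (1 * A + 1 * y2 - y1) = K + ω := by
    rw [hω, hK]
    ring
  have a2 : s * A + 1 * (1 * A + 1 * y2 - y1) - y2 = K := by
    rw [hK]
    ring
  rw [a1, a2] at k3
  obtain ⟨-, zE, zK⟩ := h.z0 k3 (by linarith only [hA])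
  have hK0 : 0 ≤ K := by rcases zK with h1 | h1 <;> linarith only [h1]
  have hω1 : 1 ≤ ω := by
    by_contra h1
    rw [not_le] at h1
    rcases zK with h2 | h2
    · rw [h2, zero_add] at zE
      rcases zE with h3 | h3 <;> linarith
    · have h' : RT b2 bO b1 (fun g x1 x2 => R x1 x2 g) := h.swap0.swap
      exact det_one h' hs e2 e3 e1 hω0 h1 k3 h2 hA
  have hn4 := h.n _ _ _ k3
  rw [e1, e2, e3] at hn4
  have h5 : (ε * A - K) * (A - ε * K) = ε * (1 + ω * (A - K) - ω ^ 2) := by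
    linear_combination ε * hn4 + (-A * K) * q0
  rw [← hω, ← hK]
  refine ⟨hω1, ?_⟩
  rcases le_or_gt (ε * A - K) 0 with h7 | h7
  · have := mul_pos hε0 hω0
    linarith only [h7, this]
  · have hεK : ε * K ≤ K := by nlinarith only [hε1, hK0]
    have hεA : ε * A < A := by nlinarith only [hA, hε1]
    have hv : 0 < A - ε * K := by linarith only [h7, hεK, hεA]
    have h8 : (ε * A - K) * (A - ε * K) ≤ (ε * ω) * (A - ε * K) := by
      rw [h5, mul_assoc]
      apply mul_le_mul_of_nonneg_left _ hε0.le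
      have h9 : ω * (A - K) ≤ ω * (A - ε * K) := mul_le_mul_of_nonneg_left (by linarith only [hεK]) hω0.le
      have h10 : 1 ≤ ω ^ 2 := one_le_pow₀ hω1
      linarith only [h9, h10]
    exact le_of_mul_le_mul_right h8 hv

/-- the root `x'` on the same side of `h`: `x2' - x1' ≥ 1` -/
theorem vB_aux' (h : RT b1 b2 bO R) (hs : 1 ≤ s) (e1 : 2 * b1 = 1) (e2 : 2 * b2 = s)
    (e3 : 2 * bO = 1) {A y1 y2 σ : ℝ} (hR : R A y1 y2) (hA : 1 ≤ A) (hσ0 : 0 < σ)
    (hy : y2 = y1 + σ) : 1 ≤ σ := by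
  obtain ⟨K, hK⟩ : ∃ K, K = (s + 1) * A - y1 := ⟨_, rfl⟩
  have k1 := h.r1 _ _ _ hR
  rw [e1, e3] at k1
  have k2 := h.r2 _ _ _ k1
  rw [e2, e3] at k2
  have k3 := h.r1 _ _ _ k2
  rw [e1, e3] at k3
  have a1 : 1 * A + 1 * (s * A + 1 * (1 * A + 1 * y2 - y1) - y2) - (1 * A + 1 * y2 - y1) = K - σ := by
    rw [hy, hK]
    ring
  have a2 : s * A + 1 * (1 * A + 1 * y2 - y1) - y2 = K := by
    rw [hK]
    ring
  rw [a1, a2] at k3
  obtain ⟨-, zE, zK⟩ := h.z0 k3 (by linarith only [hA])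
  by_contra h1
  rw [not_le] at h1
  rcases zK with h2 | h2
  · rw [h2, zero_sub] at zE
    rcases zE with h3 | h3 <;> linarith only [hσ0, h3]
  · have h' : RT b2 bO b1 (fun g x1 x2 => R x1 x2 g) := h.swap0.swap
    exact det_one' h' hs e2 e3 e1 hσ0 h1 k3 h2 hA

/-- the root `x'` in the case of `v_B` -/
theorem vB_core (h : RT b1 b2 bO R) (hs0 : 0 < s) (hs : 2 ≤ s ^ 2) (e1 : 2 * b1 = 1) (e2 : 2 * b2 = s)
    (e3 : 2 * bO = 1) {A y1 y2 f1 f2 r1 r2 : ℝ} (hR : R A y1 y2) (hA : 1 ≤ A) (hy1 : 1 ≤ y1)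
    (hy2 : 0 ≤ y2) (hf : A + y1 * f1 + y2 * f2 = 0) (hx : s + 1 + f1 + (s ^ 2 + s) * f2 = 0)
    (hf1 : 0 ≤ f1) (hne : y1 ≠ y2) (hpq : f1 + f2 ≤ r1 + r2) (hr2 : -1 ≤ (s + 1) * r2)
    (hu : 0 ≤ 1 + (r1 + r2) ^ 2 + (s + 1) * (r1 + r2)) (hft : -((s + 1) / 2) ≤ r1 + r2)
    (hρ : s + 1 + r1 + (s ^ 2 + s) * r2 ≤ 1) :
    1 < s + 1 + r1 + (s ^ 2 + s) * r2 + (A + y1 * r1 + y2 * r2) := by
  have hs1 : 1.414 < s := by nlinarith only [hs0, hs]
  obtain ⟨ε, q0, hε0, hε1, hε3, hsε⟩ := exists_eps hs0 hs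
  obtain ⟨q, hq⟩ : ∃ q, q = -(r1 + r2) := ⟨_, rfl⟩
  obtain ⟨p, hp⟩ : ∃ p, p = -(f1 + f2) := ⟨_, rfl⟩
  have hr1 : r1 = -q - r2 := by rw [hq]; ring
  have hqε : q ≤ ε := by
    by_contra h1
    rw [not_le] at h1
    have h2 : q < s + 1 - ε := by
      rw [hq]
      linarith only [hft, hr1, h1]
    have h3 := mul_pos (by linarith only [h1] : 0 < q - ε) (by linarith only [h2] : 0 < s + 1 - ε - q)
    rw [hr1] at hu
    nlinarith only [q0, hu, h3]
  have hqp : q ≤ p := by rw [hq, hp]; linarith only [hpq]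
  obtain ⟨w, hw⟩ : ∃ w, w = 1 / (s + 1) := ⟨_, rfl⟩
  have hw1 : w * (s + 1) = 1 := by rw [hw]; field_simp
  have hw0 : 0 < w := by rw [hw]; positivity
  obtain ⟨e, he⟩ : ∃ e, e = r2 + w := ⟨_, rfl⟩
  have he0 : 0 ≤ e := by
    by_contra h1
    rw [not_le] at h1
    have : (s + 1) * (r2 + w) < 0 := mul_neg_of_pos_of_neg (by linarith only [hs1]) (by rw [← he]; exact h1)
    linarith only [hr2, hw1, this]
  have hr2' : r2 = e - w := by rw [he]; ring
  have hn := h.n _ _ _ hR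
  rw [e1, e2, e3] at hn
  -- the value of `x`
  have hX : s + 1 + r1 + (s ^ 2 + s) * r2 = 1 + w - q + (s ^ 2 + s - 1) * e := by
    rw [hr1, hr2']
    linear_combination (-s) * hw1
  rw [hX] at hρ ⊢
  rcases le_or_gt y1 y2 with hy | hy
  · -- `x'` in the cone of `h` and `d2`
    obtain ⟨σ, hσ⟩ : ∃ σ, σ = y2 - y1 := ⟨_, rfl⟩
    obtain ⟨q2, hq2⟩ : ∃ q2, q2 = -f2 := ⟨_, rfl⟩
    have hσ0 : 0 < σ := by
      rcases hy.lt_or_eq with h1 | h1
      · linarith only [hσ, h1]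
      · exact absurd h1 hne
    have hy2' : y2 = y1 + σ := by rw [hσ]; ring
    have hf2' : f2 = -q2 := by rw [hq2]; ring
    have hf1' : f1 = q2 - p := by rw [hp, hf2']; ring
    rw [hf1', hf2'] at hx
    rw [hf1'] at hf1
    have hA' : A = y1 * p + σ * q2 := by
      rw [hf1', hf2', hy2'] at hf
      linear_combination hf
    have hq2s : 1 ≤ s * q2 := by
      have h1 : (s + 1) * (s * q2 - 1) = q2 - p := by linarith only [hx]
      have h2 : 0 ≤ (s + 1) * (s * q2 - 1) := by rw [h1]; exact hf1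
      have := nonneg_of_mul_nonneg_right h2 (by linarith only [hs1])
      linarith only [this]
    have hq20 : 0 < q2 := by
      by_contra h1
      rw [not_lt] at h1
      have := mul_nonpos_of_nonneg_of_nonpos hs0.le h1
      linarith only [hq2s, this]
    have hσ1 : 1 ≤ σ := vB_aux' h (by linarith only [hs1]) e1 e2 e3 hR hA hσ0 hy2'
    have h1 : A + y1 * r1 + y2 * r2 = y1 * (p - q) + σ * (q2 - w) + σ * e := by
      rw [hA', hy2', hr1, hr2']
      ring
    rw [h1]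
    have hwq : w ≤ q2 := by
      have : w * (s + 1) ≤ q2 * (s + 1) := by
        rw [hw1]
        have : q2 * (s + 1) = s * q2 + q2 := by ring
        linarith only [hq2s, hq20]
      exact le_of_mul_le_mul_right this (by linarith only [hs1])
    have h2 : 0 ≤ y1 * (p - q) := mul_nonneg (by linarith only [hy1]) (by linarith only [hqp])
    have h3 : 1 * (q2 - w) ≤ σ * (q2 - w) := mul_le_mul_of_nonneg_right hσ1 (by linarith only [hwq])
    have h4 : 0 ≤ σ * e := mul_nonneg hσ0.le he0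
    have h5 : 0 ≤ (s ^ 2 + s - 1) * e := mul_nonneg (by linarith only [hs0, hs]) he0
    have h6 : ε < q2 := by
      by_contra h7
      rw [not_lt] at h7
      have := mul_le_mul_of_nonneg_left h7 hs0.le
      linarith only [hsε, hq2s, this]
    linarith only [hqε, h2, h3, h4, h5, h6]
  · obtain ⟨hω1, h6⟩ := vB_aux h (by linarith only [hs1]) e1 e2 e3 hR hA hy hε0 hε1 q0
    obtain ⟨ω, hω⟩ : ∃ ω, ω = y1 - y2 := ⟨_, rfl⟩
    obtain ⟨K, hK⟩ : ∃ K, K = (s + 1) * A - y1 := ⟨_, rfl⟩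
    rw [← hω] at hω1
    rw [← hω, ← hK] at h6
    have hy1' : y1 = (s + 1) * A - K := by rw [hK]; ring
    have hy2' : y2 = y1 - ω := by rw [hω]; ring
    have h7 : A + y1 * r1 + y2 * r2 = A - y1 * q + ω * w - ω * e := by
      rw [hy2', hr1, hr2']
      ring
    rw [h7]
    -- bounds
    obtain ⟨M, hM⟩ : ∃ M, M = s ^ 2 + s - 1 := ⟨_, rfl⟩
    have hM1 : 1 ≤ M := by linarith only [hs0, hs, hM]
    have hwε : w * (1 + ε ^ 2) = ε := by
      have : 1 + ε ^ 2 = (s + 1) * ε := by linarith only [q0]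
      rw [this, ← mul_assoc, hw1, one_mul]
    rw [← hM] at hρ ⊢
    -- `A - y1 q ≥ -ε² A ... `
    have h8 : A - y1 * q ≥ -(ε * (ε * A - K)) := by
      have h9 : y1 * q ≤ y1 * ε := mul_le_mul_of_nonneg_left hqε (by linarith only [hy1])
      have h10 : y1 * ε = (1 + ε ^ 2) * A - ε * K := by
        rw [hy1']
        linear_combination (-A) * q0
      linarith only [h9, h10]
    have h9 : ε * (ε * A - K) ≤ ε ^ 2 * ω := by
      have := mul_le_mul_of_nonneg_left h6 hε0.le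
      linarith only [this]
    rcases le_or_gt ω M with hωM | hωM
    · have h10 : 0 ≤ (M - ω) * e := mul_nonneg (by linarith only [hωM]) he0
      -- `w (1 + ω) > ε + ε² ω`
      have h11 : ε + ε ^ 2 * ω < w * (1 + ω) := by
        have h12 : (ε + ε ^ 2 * ω) * (1 + ε ^ 2) < (w * (1 + ω)) * (1 + ε ^ 2) := by
          have h13 : (w * (1 + ω)) * (1 + ε ^ 2) = ε * (1 + ω) := by
            linear_combination (1 + ω) * hwε
          rw [h13]
          have h14 : ε * (1 + ω) - (ε + ε ^ 2 * ω) * (1 + ε ^ 2) =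
              ε * (ω * (1 - ε - ε ^ 3) - ε ^ 2) := by ring
          have h15 : 1 * (1 - ε - ε ^ 3) ≤ ω * (1 - ε - ε ^ 3) :=
            mul_le_mul_of_nonneg_right hω1 (by linarith only [hε3, sq_nonneg ε])
          have h16 : 0 < ε * (ω * (1 - ε - ε ^ 3) - ε ^ 2) := mul_pos hε0 (by linarith only [hε3, h15])
          linarith only [h16]
        exact lt_of_mul_lt_mul_right h12 (by positivity)
      linarith only [hqε, h8, h9, h10, h11]
    · -- `e ≤ (q - w) / M`
      obtain ⟨v, hv⟩ : ∃ v, v = ω / M := ⟨_, rfl⟩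
      have hvM : v * M = ω := by rw [hv]; field_simp
      have hv1 : 1 < v := by
        rw [hv, one_lt_div (by linarith only [hM1])]
        exact hωM
      have h10 : (v - 1) * (M * e) ≤ (v - 1) * (q - w) :=
        mul_le_mul_of_nonneg_left (by linarith only [hρ]) (by linarith only [hv1])
      have h11 : M * e - ω * e = -((v - 1) * (M * e)) := by
        rw [← hvM]
        ring
      have h12 : v * q ≤ v * ε := mul_le_mul_of_nonneg_left hqε (by linarith only [hv1])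
      -- `ω w + v w > ε² ω + v ε`
      have h13 : ε ^ 2 * ω + v * ε < w * ω + v * w := by
        have h14 : (ε ^ 2 * ω + v * ε) * (1 + ε ^ 2) < (w * ω + v * w) * (1 + ε ^ 2) := by
          have h15 : (w * ω + v * w) * (1 + ε ^ 2) = ε * (ω + v) := by
            have : (w * ω + v * w) * (1 + ε ^ 2) = (w * (1 + ε ^ 2)) * (ω + v) := by ring
            rw [this, hwε]
          rw [h15, ← hvM]
          have h16 : ε * (v * M + v) - (ε ^ 2 * (v * M) + v * ε) * (1 + ε ^ 2) =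
              ε * v * (M * (1 - ε - ε ^ 3) - ε ^ 2) := by ring
          have h17 : 1 * (1 - ε - ε ^ 3) ≤ M * (1 - ε - ε ^ 3) :=
            mul_le_mul_of_nonneg_right hM1 (by linarith only [hε3, sq_nonneg ε])
          have h18 : 0 < ε * v * (M * (1 - ε - ε ^ 3) - ε ^ 2) :=
            mul_pos (mul_pos hε0 (by linarith only [hv1])) (by linarith only [hε3, h17])
          linarith only [h18]
        exact lt_of_mul_lt_mul_right h14 (by positivity)
      linarith only [h8, h9, h10, h11, h12, h13]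

end real

section main

variable {E : Type*} [AddCommGroup E] [Module ℝ E]
variable {Ψ : Set E} {B : E →ₗ[ℝ] E →ₗ[ℝ] ℝ} {ρ φ : E →ₗ[ℝ] ℝ} {t d1 d2 x x' : E}
variable {g x1 x2 g' x1' x2' s : ℝ}

/-- `φ d1 ≠ 0` if `x_L` is not an `O`-root -/
theorem Xs.f1_pos (X : Xs Ψ B ρ φ t d1 d2 x x' g x1 x2 g' x1' x2') (hg0 : 1 ≤ g) (hg : 1 ≤ g') :
    0 < φ d1 := by
  rcases X.h1.lt_or_eq with h | h
  · exact h
  exfalso
  have f1 := X.c.fz
  have f2 := X.c'.fz
  rw [← h, neg_zero, zero_mul, zero_add] at f1 f2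
  -- `g' x2 = g x2'`
  have h3 : g' * x2 = g * x2' := by rw [f1, f2]; ring
  have hst := X.st
  have hp2 := X.p2
  have h4 : 0 < g * x1' - g' * x1 := by
    have h5 : 0 < x2 * (g * x1' - g' * x1) := by
      have : x2 * (g * x1' - g' * x1) = g * (x2 * x1' - x1 * x2') := by linear_combination (-x1) * h3
      rw [this]
      exact mul_pos (by linarith only [hg0]) (by linarith only [hst])
    exact (mul_pos_iff_of_pos_left (by linarith only [hp2])).1 h5
  have h5 : d1 = (-(g' / (g * x1' - g' * x1))) • x + (g / (g * x1' - g' * x1)) • x' := by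
    have h6 : (g * x1' - g' * x1) • d1 = (-g') • x + g • x' := by
      rw [X.e, X.e']
      have : (-g') • (g • t + x1 • d1 + x2 • d2) + g • (g' • t + x1' • d1 + x2' • d2) =
          (g * x1' - g' * x1) • d1 + (g * x2' - g' * x2) • d2 := by module
      rw [this, h3, sub_self, zero_smul, add_zero]
    have h7 : d1 = (1 / (g * x1' - g' * x1)) • ((g * x1' - g' * x1) • d1) := by
      rw [smul_smul, one_div_mul_cancel h4.ne', one_smul]
    rw [h7, h6, smul_add, smul_smul, smul_smul]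
    congr 2 <;> ring
  have h6 : 0 < g' / (g * x1' - g' * x1) := div_pos (by linarith only [hg]) h4
  have h7 : 0 < g / (g * x1' - g' * x1) := div_pos (by linarith only [hg0]) h4
  rcases X.L.cxx d1 X.L.tri.hb _ _ h5 with (⟨k1, k2⟩ | ⟨k1, k2⟩ | ⟨k1, k2⟩) | (⟨k1, k2⟩ | ⟨k1, k2⟩ | ⟨k1, k2⟩) <;>
    linarith

theorem vA (X : Xs Ψ B ρ φ t d1 d2 x x' g x1 x2 g' x1' x2') (hs0 : 0 < s) (hs : 2 ≤ s ^ 2)
    (e1 : -B t d1 = s / 2) (e2 : -B t d2 = 1 / 2) (e3 : -B d1 d2 = 1 / 2) (hg : g = s)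
    (hx1 : x1 = s ^ 2 - 1) (hx2 : x2 = s ^ 2 + s - 1) (hb : φ d1 + φ d2 < 0)
    (hg' : 1 ≤ g') : False := by
  subst hg hx1 hx2
  have hs1 : 1.414 < g := by nlinarith only [hs0, hs]
  have hf1 := X.f1_pos (by linarith only [hs1]) hg'
  have L := X.L
  have hT := L.tri
  have hRT := rt_of_tri hT
  have hx : g + (g ^ 2 - 1) * φ d1 + (g ^ 2 + g - 1) * φ d2 = 0 := by linarith only [X.c.fz]
  have hf : g' + x1' * φ d1 + x2' * φ d2 = 0 := by linarith only [X.c'.fz]
  have hR : g' • t + x1' • d1 + x2' • d2 ∈ Ψ := by rw [← X.e']; exact L.xm'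
  have core := vA_core hRT hs0 hs (by linarith only [e1]) (by linarith only [e2]) (by linarith only [e3]) hR hg' hf hx
    X.st hb hf1
  -- `ρ d2 > 0`
  have hφ2 : 0 < 1 * φ d2 + 1 := by nlinarith only [hb, hs0, hs, hx, X.h2]
  have hd2C : d2 ∈ C01 t d1 d2 := ⟨0, 0, 1, by simp, Or.inl rfl, Or.inl rfl, Or.inr le_rfl⟩
  have hd2t : d2 ≠ t := by
    intro h
    have := hT.indep 1 0 (-1) (by rw [h]; module)
    linarith only [this.1]
  have S2 := L.str d2 hT.hc hd2C hd2t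
  have q2 : sq (-B t d2) 2 = 1 := by
    rw [e2]
    norm_num [sq]
  have hr2 : 0 < ρ d2 := by
    have := S2.nk X.h2 1 (by
      intro i hi
      interval_cases i
      · norm_num [sq]
      · rw [q2]
        norm_num) (by
      intro i hi
      interval_cases i
      simp [sq]
      exact X.h2.le) (by
      rw [q2]
      exact hφ2)
    rw [q2] at this
    have h3 : sq (-B t d2) 1 = 1 := rfl
    rw [h3] at this
    linarith only [this]
  have hS := L.sum
  have hx' := L.rx'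
  rw [X.rx'] at hx'
  rw [X.rx, X.rx'] at hS
  rcases core with ⟨key, hν⟩ | ⟨c1, c2, c3⟩
  swap
  · rw [c1, c2, c3] at hx' hS
    have : 0 ≤ (g - 1) * (1 + (g + 1) * ρ d1 + (g + 1) * ρ d2) := mul_nonneg (by linarith only [hs1]) hx'
    have : 0 < g * ρ d2 := by positivity
    linarith
  -- the root `n`
  have n1 := hRT.r0 _ _ _ hRT.e1
  have n2 := hRT.r2 _ _ _ n1
  have n3 := hRT.r1 _ _ _ n2
  have n4 : g • t + (g ^ 2 + g) • d1 + (g + 1) • d2 ∈ Ψ := by
    have a1 : 2 * -B t d1 * 1 + 2 * -B t d2 * 0 - 0 = g := by rw [e1]; ring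
    rw [a1] at n3
    have a2 : 2 * -B t d2 * g + 2 * -B d1 d2 * 1 - 0 = g + 1 := by rw [e2, e3]; ring
    rw [a2] at n3
    have a3 : 2 * -B t d1 * g + 2 * -B d1 d2 * (g + 1) - 1 = g ^ 2 + g := by rw [e1, e3]; ring
    rw [a3] at n3
    exact n3
  obtain ⟨n, hn⟩ : ∃ n, n = g • t + (g ^ 2 + g) • d1 + (g + 1) • d2 := ⟨_, rfl⟩
  rw [← hn] at n4
  have nC : n ∈ C01 t d1 d2 :=
    ⟨g, g ^ 2 + g, g + 1, hn, Or.inr (by linarith only [hs1]), Or.inr (by nlinarith only [hs1]), Or.inr (by linarith only [hs1])⟩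
  have nt : n ≠ t := by
    intro h
    have := hT.indep (g - 1) (g ^ 2 + g) (g + 1) (by
      have : (g - 1) • t + (g ^ 2 + g) • d1 + (g + 1) • d2 = n - t := by rw [hn]; module
      rw [this, h, sub_self])
    linarith only [this, this.2.2]
  have nB : -B t n = (g ^ 3 + g ^ 2 - g + 1) / 2 := by
    have h1 := L.val_B 1 0 0 g (g ^ 2 + g) (g + 1)
    have h2 : (1 : ℝ) • t + (0 : ℝ) • d1 + (0 : ℝ) • d2 = t := by module
    rw [h2, ← hn] at h1
    rw [h1]
    linear_combination (g ^ 2 + g) * e1 + (g + 1) * e2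
  have nρ : ρ n = g + (g ^ 2 + g) * ρ d1 + (g + 1) * ρ d2 := by
    rw [hn]
    exact L.val_ρ g (g ^ 2 + g) (g + 1)
  have S := L.str n n4 nC nt
  have hc1 : 2 < -B t n := by
    rw [nB]
    nlinarith only [hs1]
  have hu := S.ult (by linarith only [hc1])
  have hft := S.foot
  obtain ⟨ε, hε0, hε1, hε2, hε3⟩ : ∃ ε, 0 ≤ ε ∧ ε ≤ 1 ∧ (g ^ 3 + g ^ 2 - g + 1) * ε ≤ 1 + ε ^ 2 ∧ -ε ≤ ρ n := by
    rcases le_or_gt 0 (ρ n) with h | h
    · exact ⟨0, le_rfl, by norm_num, by norm_num, by linarith only [h]⟩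
    · refine ⟨-ρ n, by linarith only [h], ?_, ?_, by linarith only []⟩
      · by_contra h1
        rw [not_le] at h1
        nlinarith only [hc1, hu, mul_nonneg (by linarith only [h1] : 0 ≤ -ρ n - 1) (by linarith only [hft] : 0 ≤ -B t n + ρ n)]
      · rw [nB] at hu
        nlinarith only [hu]
  have hk := key ε hε0 hε1 hε2
  -- the sum
  have id : (g ^ 2 + g) * (g + (g ^ 2 - 1) * ρ d1 + (g ^ 2 + g - 1) * ρ d2 +
      (g' + x1' * ρ d1 + x2' * ρ d2) - 1) = ((g + 1) * g' - x1') * g + (g ^ 2 - 1 + x1') * ρ n +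
      (g + 1) * (g ^ 3 - g + 1 + (g * x2' - x1')) * ρ d2 := by
    rw [nρ]
    ring
  have h1 : 0 ≤ (g ^ 2 - 1 + x1') * (ρ n + ε) := mul_nonneg (by nlinarith only [X.p1']) (by linarith only [hε3])
  have h2 : 0 ≤ (g + 1) * (g ^ 3 - g + 1 + (g * x2' - x1')) * ρ d2 := by
    have : 0 ≤ g ^ 3 - g + 1 + (g * x2' - x1') := by nlinarith only [hs1, hS, hν]
    positivity
  have h3 : 0 < (g ^ 2 + g) * (g + (g ^ 2 - 1) * ρ d1 + (g ^ 2 + g - 1) * ρ d2 +
      (g' + x1' * ρ d1 + x2' * ρ d2) - 1) := by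
    rw [id]
    linarith only [hk, h1, h2]
  have h4 : 0 < g ^ 2 + g := by positivity
  have h5 := (mul_pos_iff_of_pos_left h4).1 h3
  linarith only [hS, h5]

theorem vB (X : Xs Ψ B ρ φ t d1 d2 x x' g x1 x2 g' x1' x2') (hs0 : 0 < s) (hs : 2 ≤ s ^ 2)
    (e1 : -B t d1 = 1 / 2) (e2 : -B t d2 = s / 2) (e3 : -B d1 d2 = 1 / 2) (hg : g = s + 1)
    (hx1 : x1 = 1) (hx2 : x2 = s ^ 2 + s) (hb : φ d1 + φ d2 < 0) (hg' : 1 ≤ g') : False := by
  subst hg hx1 hx2
  have hs1 : 1.414 < s := by nlinarith only [hs0, hs]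
  have L := X.L
  have hT := L.tri
  have hRT := rt_of_tri hT
  have hx : s + 1 + φ d1 + (s ^ 2 + s) * φ d2 = 0 := by linarith only [X.c.fz]
  have hf : g' + x1' * φ d1 + x2' * φ d2 = 0 := by linarith only [X.c'.fz]
  have hR : g' • t + x1' • d1 + x2' • d2 ∈ Ψ := by rw [← X.e']; exact L.xm'
  -- `ρ d2 > - τ_3`
  have hd2C : d2 ∈ C01 t d1 d2 := ⟨0, 0, 1, by simp, Or.inl rfl, Or.inl rfl, Or.inr le_rfl⟩
  have hd2t : d2 ≠ t := by
    intro h
    have := hT.indep 1 0 (-1) (by rw [h]; module)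
    linarith only [this.1]
  have S2 := L.str d2 hT.hc hd2C hd2t
  have q1 : sq (-B t d2) 1 = 1 := rfl
  have q2 : sq (-B t d2) 2 = s := by
    rw [e2]
    simp [sq]
    ring
  have q3 : sq (-B t d2) 3 = s ^ 2 - 1 := by
    have : sq (-B t d2) 3 = 2 * (-B t d2) * sq (-B t d2) 2 - sq (-B t d2) 1 := rfl
    rw [this, q2, q1, e2]
    ring
  have hφ2 := X.h2
  have hφ1 := X.h1
  have hφh : φ d1 + φ d2 < 0 := hb
  have hr2 : 1 < (s ^ 2 - 1) * ρ d2 + s := by
    have := S2.nk hφ2 2 (by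
      intro i hi
      interval_cases i
      · rw [q1]
        norm_num
      · rw [q2]
        exact hs0
      · rw [q3]
        linarith only [hs]) (by
      intro i hi
      interval_cases i
      · rw [q1]
        simp [sq]
        exact hφ2.le
      · rw [q2, q1]
        -- `s φ2 + 1 ≤ 0`
        by_contra h
        rw [not_le] at h
        have h1 : (s + 1) * (s * φ d2 + 1) + φ d1 = 0 := by linarith only [hx]
        have h2 : 0 < (s + 1) * (s * φ d2 + 1) := mul_pos (by linarith only [hs1]) h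
        linarith only [hφ1, h1, h2]) (by
      rw [q3, q2]
      have h1 : (s ^ 2 + s - 1) * φ d2 = -(s + 1) - (φ d1 + φ d2) := by linarith only [hx]
      by_contra h
      rw [not_lt] at h
      nlinarith only [hs1, hφ1, hφh, h1, h])
    rwa [q3, q2] at this
  have hr2' : -1 ≤ (s + 1) * ρ d2 := by
    by_contra h
    rw [not_le] at h
    have h1 : (s - 1) * ((s + 1) * ρ d2) < (s - 1) * (-1) := mul_lt_mul_of_pos_left h (by linarith only [hs1])
    linarith
  -- the root `h`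
  have n1 := hRT.r1 _ _ _ hRT.e2
  have n4 : (0 : ℝ) • t + (1 : ℝ) • d1 + (1 : ℝ) • d2 ∈ Ψ := by
    have a1 : 2 * -B t d1 * 0 + 2 * -B d1 d2 * 1 - 0 = 1 := by rw [e3]; ring
    rw [a1] at n1
    exact n1
  obtain ⟨n, hn⟩ : ∃ n, n = (0 : ℝ) • t + (1 : ℝ) • d1 + (1 : ℝ) • d2 := ⟨_, rfl⟩
  rw [← hn] at n4
  have nC : n ∈ C01 t d1 d2 := ⟨0, 1, 1, hn, Or.inl rfl, Or.inr le_rfl, Or.inr le_rfl⟩
  have nt : n ≠ t := by
    intro h
    have := hT.indep (-1) 1 1 (by
      have : (-1 : ℝ) • t + (1 : ℝ) • d1 + (1 : ℝ) • d2 = n - t := by rw [hn]; module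
      rw [this, h, sub_self])
    linarith only [this.2.2]
  have nB : -B t n = (s + 1) / 2 := by
    have h1 := L.val_B 1 0 0 0 1 1
    have h2 : (1 : ℝ) • t + (0 : ℝ) • d1 + (0 : ℝ) • d2 = t := by module
    rw [h2, ← hn] at h1
    rw [h1]
    linear_combination e1 + e2
  have nρ : ρ n = ρ d1 + ρ d2 := by
    rw [hn, L.val_ρ]
    ring
  have nφ : φ n = φ d1 + φ d2 := by
    rw [hn, L.val_φ]
    ring
  have S := L.str n n4 nC nt
  have hu := S.ult (by rw [nB]; linarith only [hs1])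
  have hft := S.foot
  have hK1 := S.K1 (by rw [nB]; linarith only [hs1]) (by rw [nφ]; exact hb)
  rw [nρ, nφ] at hK1
  -- `x1' ≠ x2'`
  have hne : x1' ≠ x2' := by
    intro h
    have hp := X.p1'
    have h1 : n = (1 / x1') • x' + (-(g' / x1')) • t := by
      rw [hn, X.e', ← h]
      match_scalars <;> field_simp <;> ring
    have h2 : 0 < 1 / x1' := by positivity
    have h3 : 0 < g' / x1' := by positivity
    rcases L.cxt' n n4 _ _ h1 with (⟨k1, k2⟩ | ⟨k1, k2⟩ | ⟨k1, k2⟩) | (⟨k1, k2⟩ | ⟨k1, k2⟩ | ⟨k1, k2⟩) <;>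
      linarith
  rw [nB, nρ] at hu hft
  have hS := L.sum
  have hx' := L.rx'
  rw [X.rx'] at hx'
  rw [X.rx, X.rx'] at hS
  have key := vB_core hRT hs0 hs (by linarith only [e1]) (by linarith only [e2]) (by linarith only [e3]) hR hg' X.p1' X.p2' hf hx
    X.h1 hne hK1.le hr2' (by linarith only [hu]) hft (by linarith only [hS, hx'])
  linarith only [hS, key]

end main

end DY
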