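import Mathlib

/-!
# NGi with `b1 = 0`: real inequalities, index `3` at `h`, index `≥ 4` at `V_2`, `s ≥ 1` (MP_d13a5e_al)

`x = g t + η h + ζ d2`, `h = h1 d1 + h2 d2`, `T = μ h2`, `s = 2 bO h1 - h2`, `E = T g - η - h2 ζ`.
-/

set_option autoImplicit false

namespace Pool.Agent.Helper40.DY.NB

/-- a concave quadratic function is nonnegative between two points where it is nonnegative -/
theorem conc {a b c x0 x1 x : ℝ} (ha : a ≤ 0) (h0 : x0 ≤ x) (h1 : x ≤ x1)
    (q0 : 0 ≤ a * x0 ^ 2 + b * x0 + c) (q1 : 0 ≤ a * x1 ^ 2 + b * x1 + c) : 0 ≤ a * x ^ 2 + b * x + c := by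
  rcases (h0.trans h1).eq_or_lt with h | h
  · have : x = x0 := le_antisymm (by linarith only [h1, h]) h0
    rw [this]
    exact q0
  · have e : (x1 - x0) * (a * x ^ 2 + b * x + c) = (x1 - x) * (a * x0 ^ 2 + b * x0 + c) +
        (x - x0) * (a * x1 ^ 2 + b * x1 + c) + (-a) * ((x - x0) * (x1 - x) * (x1 - x0)) := by ring
    have k1 := mul_nonneg (by linarith only [h1] : 0 ≤ x1 - x) q0
    have k2 := mul_nonneg (by linarith only [h0] : 0 ≤ x - x0) q1
    have k3 := mul_nonneg (by linarith only [ha] : 0 ≤ -a)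
      (mul_nonneg (mul_nonneg (by linarith only [h0] : 0 ≤ x - x0) (by linarith only [h1] : 0 ≤ x1 - x)) (by linarith only [h] : 0 ≤ x1 - x0))
    have k4 : 0 ≤ (x1 - x0) * (a * x ^ 2 + b * x + c) := by rw [e]; linarith only [k1, k2, k3]
    exact (mul_nonneg_iff_of_pos_left (by linarith only [h])).1 k4

/-- a convex quadratic function is negative between two points where it is negative -/
theorem conv {a b c x0 x1 x : ℝ} (ha : 0 ≤ a) (h0 : x0 ≤ x) (h1 : x ≤ x1)
    (q0 : a * x0 ^ 2 + b * x0 + c < 0) (q1 : a * x1 ^ 2 + b * x1 + c < 0) : a * x ^ 2 + b * x + c < 0 := by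
  rcases (h0.trans h1).eq_or_lt with h | h
  · have : x = x0 := le_antisymm (by linarith only [h1, h]) h0
    rw [this]
    exact q0
  · have e : (x1 - x0) * (a * x ^ 2 + b * x + c) = (x1 - x) * (a * x0 ^ 2 + b * x0 + c) +
        (x - x0) * (a * x1 ^ 2 + b * x1 + c) - a * ((x - x0) * (x1 - x) * (x1 - x0)) := by ring
    have k3 := mul_nonneg ha
      (mul_nonneg (mul_nonneg (by linarith only [h0] : 0 ≤ x - x0) (by linarith only [h1] : 0 ≤ x1 - x)) (by linarith only [h] : 0 ≤ x1 - x0))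
    have k4 : (x1 - x0) * (a * x ^ 2 + b * x + c) < 0 := by
      rw [e]
      rcases h0.eq_or_lt with h5 | h5
      · have k1 := mul_neg_of_pos_of_neg (by linarith only [h, h5] : 0 < x1 - x) q0
        have k2 : (x - x0) * (a * x1 ^ 2 + b * x1 + c) = 0 := by
          rw [← h5, sub_self, zero_mul]
        linarith only [k3, k1, k2]
      · have k1 := mul_neg_of_pos_of_neg (by linarith only [h5] : 0 < x - x0) q1
        have k2 := mul_nonpos_of_nonneg_of_nonpos (by linarith only [h1] : 0 ≤ x1 - x) q0.le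
        linarith only [k3, k1, k2]
    by_contra h6
    have := mul_nonneg (by linarith only [h] : 0 ≤ x1 - x0) (not_lt.1 h6)
    linarith only [k4, this]

/-- the inequality (Z2) -/
theorem z2 {h1 h2 q v τ T : ℝ} (hq : q * h1 = 1) (h11 : 1 ≤ h1) (hh : h2 = 1 ∨ (1 ≤ h2 ∧ 2 ≤ h2 ^ 2))
    (hh1 : 1 + h2 ≤ h1 ^ 2) (hτ : τ * (T + 1) = 1) (hT : 1 ≤ T) (hv0 : 0 ≤ v) (hvT : 2 * v ≤ T) (hv2 : v ≤ h2) :
    v * (1 / T + τ + h1) ≤ v ^ 2 * (1 - 2 * τ - τ ^ 2 * q) + h1 ^ 2 := by
  have hτ0 : 0 < τ := by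
    by_contra h
    have := mul_nonpos_of_nonpos_of_nonneg (not_lt.1 h) (by linarith only [hT] : 0 ≤ T + 1)
    linarith only [hτ, this]
  have hq0 : 0 < q := by
    by_contra h
    have := mul_nonpos_of_nonpos_of_nonneg (not_lt.1 h) (by linarith only [h11] : 0 ≤ h1)
    linarith only [hq, this]
  have a1 : v * (1 / T) ≤ 1 / 2 := by
    rw [mul_one_div, div_le_iff₀ (by linarith only [hT])]
    linarith only [hvT]
  have a2 : τ * (v * (2 * v + 1)) ≤ v := by
    have k1 : v * (2 * v + 1) ≤ v * (T + 1) := mul_le_mul_of_nonneg_left (by linarith only [hvT]) hv0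
    have k2 := mul_le_mul_of_nonneg_left k1 hτ0.le
    have k3 : τ * (v * (T + 1)) = v := by linear_combination v * hτ
    linarith only [k2, k3]
  have a3 : v ^ 2 * (1 - 2 * τ - τ ^ 2 * q) + h1 ^ 2 - v * (1 / T + τ + h1) =
      v ^ 2 - τ * (v * (2 * v + 1)) - q * (τ * v) ^ 2 + h1 ^ 2 - v * (1 / T) - v * h1 := by ring
  have h1s : 2 ≤ h1 ^ 2 := by
    rcases hh with h | h
    · linarith only [hh1, h]
    · linarith only [hh1, h]
  have h1g : 1414 / 1000 ≤ h1 := by nlinarith only [h11, h1s]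
  rcases hh with h | h
  · have b1 : τ * v ≤ 1 / 3 := by
      have k1 : 3 * v ≤ T + 1 := by linarith only [hvT, hv2, h]
      have k2 := mul_le_mul_of_nonneg_left k1 hτ0.le
      linarith only [hτ, k2]
    have b2 : (τ * v) ^ 2 ≤ 1 / 9 := by
      have := mul_nonneg hτ0.le hv0
      nlinarith only [b1, this]
    have b3 : q ≤ 1000 / 1414 := by
      have k1 := mul_le_mul_of_nonneg_left h1g hq0.le
      linarith only [hq, k1]
    have b4 : q * (τ * v) ^ 2 ≤ q * (1 / 9) := mul_le_mul_of_nonneg_left b2 hq0.le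
    have b5 : 0 ≤ (1 - v) * (h1 - v) := mul_nonneg (by linarith only [hv2, h]) (by linarith only [hv2, h1g, h])
    have b6 : 0 ≤ (h1 - 1414 / 1000) * (h1 + 414 / 1000) := mul_nonneg (by linarith only [h1g]) (by linarith only [h1g])
    nlinarith only [a1, a2, b3, b4, b5, b6]
  · have c0 : 7 / 5 ≤ h2 := by nlinarith only [h]
    have h1g' : 154 / 100 ≤ h1 := by nlinarith only [h11, hh1, c0]
    have b1 : τ * v ≤ 1 / 2 := by
      have k1 : 2 * v ≤ T + 1 := by linarith only [hvT]
      have k2 := mul_le_mul_of_nonneg_left k1 hτ0.le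
      linarith only [hτ, k2]
    have b2 : (τ * v) ^ 2 ≤ 1 / 4 := by
      have := mul_nonneg hτ0.le hv0
      nlinarith only [b1, this]
    have b3 : q ≤ 100 / 154 := by
      have k1 := mul_le_mul_of_nonneg_left h1g' hq0.le
      linarith only [hq, k1]
    have b4 : q * (τ * v) ^ 2 ≤ q * (1 / 4) := mul_le_mul_of_nonneg_left b2 hq0.le
    nlinarith only [a1, a2, h1g', b3, b4, sq_nonneg (2 * v - (1 + h1))]

/-- **`i = 3`, `j ≥ 4`, `s ≥ 1`** -/
theorem p3s {g η ζ E T μ h1 h2 s τ y r : ℝ} (hT : T = μ * h2) (hμ : 8 / 5 ≤ μ)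
    (hh : h2 = 1 ∨ (1 ≤ h2 ∧ 2 ≤ h2 ^ 2)) (hs : 1 ≤ s) (h11 : 1 ≤ h1) (nh : h1 ^ 2 = 1 + h2 * s)
    (hE : E = T * g - η - h2 * ζ) (hE1 : 1 ≤ E) (hEr : h2 * r * ζ ≤ E) (hη : 1 ≤ h1 * η) (hζ : 1 ≤ h1 * ζ)
    (hg : 0 < g) (hN : g ^ 2 - 1 = η * (E + s * ζ) + ζ * (μ * g - ζ)) (hτ : τ * (T + 1) = 1) (hy : 0 < y)
    (hy1 : y ≤ 1) (hyμ : 2 * y ≤ μ) (hψ : 1 ≤ μ * y) (hrψ : μ * y - 1 ≤ r) (hry : y ^ 2 ≤ r)
    (hrμ : y ≤ r * (μ - y)) : 1 ≤ g - τ * η - y * ζ := by
  by_contra hcon
  rw [not_le] at hcon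
  have h21 : 1 ≤ h2 := by rcases hh with h | h <;> linarith only [h]
  have hμ0 : 0 < μ := by linarith only [hy, hyμ]
  have hT1 : 8 / 5 ≤ T := by
    rw [hT]
    nlinarith only [hμ, h21]
  have hT0 : 0 < T := by linarith only [hT1]
  have hη0 : 0 < η := by
    by_contra h
    have := mul_nonpos_of_nonneg_of_nonpos (by linarith only [h11] : 0 ≤ h1) (not_lt.1 h)
    linarith only [hη, this]
  have hζ0 : 0 < ζ := by
    by_contra h
    have := mul_nonpos_of_nonneg_of_nonpos (by linarith only [h11] : 0 ≤ h1) (not_lt.1 h)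
    linarith only [hζ, this]
  have hτ0 : 0 < τ := by
    by_contra h
    have := mul_nonpos_of_nonpos_of_nonneg (not_lt.1 h) (by linarith only [hT0] : 0 ≤ T + 1)
    linarith only [hτ, this]
  have hr0 : 0 ≤ r := le_trans (sq_nonneg y) hry
  obtain ⟨p, hp⟩ : ∃ p, p = 1 / T := ⟨_, rfl⟩
  have hpT : p * T = 1 := by
    rw [hp]
    field_simp
  have hp0 : 0 < p := by
    rw [hp]
    positivity
  have hph : p * h2 * μ = 1 := by
    rw [← hpT, hT]
    ring
  have hgE : g = p * (E + η + h2 * ζ) := by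
    rw [hE]
    linear_combination (-g) * hpT
  -- `η ≤ T (T + 1)`
  have hηT : η ≤ T * (T + 1) := by
    have e1 : (T + 1) * (g - τ * η - y * ζ) < (T + 1) * 1 := mul_lt_mul_of_pos_left hcon (by linarith only [hT0])
    have e2 : (T + 1) * (g - τ * η - y * ζ) = (T + 1) * g - η - (T + 1) * y * ζ := by
      linear_combination (-η) * hτ
    have e3 : T * ((T + 1) * g - η - (T + 1) * y * ζ) =
        (T + 1) * (E - (T * y - h2) * ζ) + η := by
      rw [hE]
      ring
    have e4 : T * ((T + 1) * g - η - (T + 1) * y * ζ) < T * (T + 1) := by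
      have := mul_lt_mul_of_pos_left (by linarith only [e1, e2] : (T + 1) * g - η - (T + 1) * y * ζ < T + 1) hT0
      exact this
    have e5 : (T * y - h2) * ζ ≤ E := by
      have k1 : T * y - h2 ≤ h2 * r := by
        rw [hT]
        have := mul_le_mul_of_nonneg_left hrψ (by linarith only [h21] : 0 ≤ h2)
        linarith only [this]
      have k2 := mul_le_mul_of_nonneg_right k1 hζ0.le
      linarith only [hEr, k2]
    have e6 := mul_nonneg (by linarith only [hT0] : 0 ≤ T + 1) (by linarith only [e5] : 0 ≤ E - (T * y - h2) * ζ)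
    linarith
  -- the lower bound
  obtain ⟨C1, hC1⟩ : ∃ C1, C1 = E - 2 * τ + ζ * (s + (μ - y) * p - τ * y) := ⟨_, rfl⟩
  have hlow : (-(τ ^ 2)) * η ^ 2 + C1 * η + -(y * ζ) < (g + 1) * (g - τ * η - y * ζ - 1) := by
    have e1 : (g + 1) * (g - τ * η - y * ζ - 1) =
        η * (E + s * ζ - τ * (g + 1)) + ζ * ((μ - y) * g - ζ - y) := by
      linear_combination hN
    rw [e1]
    have e2 : η * (τ * (g + 1)) < η * (τ * (2 + τ * η + y * ζ)) :=
      mul_lt_mul_of_pos_left (mul_lt_mul_of_pos_left (by linarith only [hcon]) hτ0) hη0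
    have e3 : (μ - y) * g - ζ - y = (μ - y) * p * η - y + p * ((μ - y) * E - h2 * y * ζ) := by
      rw [hgE]
      linear_combination ζ * hph
    have e4 : 0 ≤ (μ - y) * E - h2 * y * ζ := by
      have k1 : (μ - y) * (h2 * r * ζ) ≤ (μ - y) * E := mul_le_mul_of_nonneg_left hEr (by linarith only [hy, hyμ])
      have k2 : h2 * ζ * y ≤ h2 * ζ * (r * (μ - y)) := mul_le_mul_of_nonneg_left hrμ (by positivity)
      linarith only [k1, k2]
    have e5 : ζ * ((μ - y) * p * η - y) ≤ ζ * ((μ - y) * g - ζ - y) := by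
      rw [e3]
      have := mul_nonneg hp0.le e4
      exact mul_le_mul_of_nonneg_left (by linarith only [this]) hζ0.le
    rw [hC1]
    linarith only [e2, e5]
  have hneg : (g + 1) * (g - τ * η - y * ζ - 1) < 0 := mul_neg_of_pos_of_neg (by linarith only [hg]) (by linarith only [hcon])
  have hs1 : h1 ≤ (T + 1) * s := by
    have k1 : h2 ≤ T := by
      rw [hT]
      nlinarith only [hy, hyμ, hψ, h21]
    have k2 : (1 + h2) * s ≤ (T + 1) * s := mul_le_mul_of_nonneg_right (by linarith only [k1]) (by linarith only [hs])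
    have k3 : h1 ≤ (1 + h2) * s := by
      have k4 : 0 ≤ (1 + h2) * s := by positivity
      by_contra h
      rw [not_le] at h
      have k5 : ((1 + h2) * s) ^ 2 < h1 ^ 2 := by
        exact pow_lt_pow_left₀ h k4 two_ne_zero
      have k6 : s ≤ s ^ 2 := by nlinarith only [hs]
      have k7 : 1 + h2 * s ≤ ((1 + h2) * s) ^ 2 := by
        have k8 : 1 + h2 * s ≤ (1 + h2) ^ 2 * s := by nlinarith only [hs, nh, h21]
        have k9 : (1 + h2) ^ 2 * s ≤ (1 + h2) ^ 2 * s ^ 2 := mul_le_mul_of_nonneg_left k6 (by positivity)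
        nlinarith only [k8, k9]
      linarith only [nh, k5, k7]
    linarith only [k2, k3]
  obtain ⟨q, hq⟩ : ∃ q, q = 1 / h1 := ⟨_, rfl⟩
  have hqh : q * h1 = 1 := by
    rw [hq]
    field_simp
  have hq0 : 0 < q := by
    rw [hq]
    positivity
  have hηq : q ≤ η := by
    have : h1 * q ≤ h1 * η := by linarith only [hη, hqh]
    exact le_of_mul_le_mul_left this (by linarith only [h11])
  have key : 0 ≤ (-(τ ^ 2)) * η ^ 2 + C1 * η + -(y * ζ) := by
    refine conc (by nlinarith only [sq_nonneg τ]) hηq hηT ?_ ?_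
    · -- `η = 1 / h1`
      have hh1' : 1 + h2 ≤ h1 ^ 2 := by
        rw [nh]
        have := mul_le_mul_of_nonneg_left hs (by linarith only [h21] : 0 ≤ h2)
        linarith only [this]
      have h1g : 14 / 10 ≤ h1 := by nlinarith only [hs, h11, nh, h21]
      have hτ1 : τ ≤ 5 / 13 := by
        have : τ * (8 / 5 + 1) ≤ τ * (T + 1) := mul_le_mul_of_nonneg_left (by linarith only [hT1]) hτ0.le
        linarith only [hτ, this]
      have hq1 : q ≤ 10 / 14 := by
        have := mul_le_mul_of_nonneg_left h1g hq0.le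
        linarith only [hqh, this]
      obtain ⟨A, hA⟩ : ∃ A, A = 1 - 2 * τ - τ ^ 2 * q := ⟨_, rfl⟩
      have hA0 : 0 ≤ A := by
        have k1 : τ ^ 2 ≤ (5 / 13) ^ 2 := pow_le_pow_left₀ hτ0.le hτ1 2
        have k2 : τ ^ 2 * q ≤ (5 / 13) ^ 2 * (10 / 14) := mul_le_mul k1 hq1 hq0.le (by norm_num)
        rw [hA]
        norm_num at k2
        linarith only [hτ1, k2]
      obtain ⟨β, hβ⟩ : ∃ β, β = s + (μ - y) * p - τ * y - y * h1 := ⟨_, rfl⟩
      have hC : 0 ≤ C1 - τ ^ 2 * q - y * ζ * h1 := by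
        have e1 : C1 - τ ^ 2 * q - y * ζ * h1 = E - (1 - A) + ζ * β := by
          rw [hC1, hβ, hA]
          ring
        rw [e1]
        have e2 : 0 ≤ 1 - A := by
          rw [hA]
          have : 0 ≤ τ ^ 2 * q := by positivity
          linarith only [hτ0, this]
        rcases le_total 0 β with h | h
        · have := mul_nonneg hζ0.le h
          linarith only [hE1, hA0, this]
        · have e3 : E * A ≤ E - (1 - A) := by nlinarith only [hE1, e2]
          have e4 : h2 * r * ζ * A ≤ E * A := mul_le_mul_of_nonneg_right hEr hA0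
          have e5 : 0 ≤ h2 * y ^ 2 * A + β := by
            have k1 := z2 (h1 := h1) (h2 := h2) (q := q) (v := h2 * y) (τ := τ) (T := T) hqh h11 hh hh1' hτ
              (by linarith only [hT1]) (by positivity) (by rw [hT]; nlinarith only [hyμ, h21]) (by nlinarith only [hy1, h21])
            have k2 : h2 * (h2 * y ^ 2 * A + β) = (h2 * y) ^ 2 * (1 - 2 * τ - τ ^ 2 * q) + h1 ^ 2 -
                h2 * y * (1 / T + τ + h1) := by
              rw [hβ, hA, nh, ← hp]
              linear_combination hph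
            have k3 : 0 ≤ h2 * (h2 * y ^ 2 * A + β) := by
              rw [k2]
              linarith only [k1]
            exact (mul_nonneg_iff_of_pos_left (by linarith only [h21])).1 k3
          have e6 : h2 * y ^ 2 * A ≤ h2 * r * A :=
            mul_le_mul_of_nonneg_right (mul_le_mul_of_nonneg_left hry (by linarith only [h21])) hA0
          have e7 := mul_nonneg hζ0.le (by linarith only [e5, e6] : 0 ≤ h2 * r * A + β)
          linarith only [e3, e4, e7]
      have e8 : (-(τ ^ 2)) * q ^ 2 + C1 * q + -(y * ζ) = q * (C1 - τ ^ 2 * q - y * ζ * h1) := by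
        linear_combination (y * ζ) * hqh
      rw [e8]
      exact mul_nonneg hq0.le hC
    · -- `η = T (T + 1)`
      have e1 : (-(τ ^ 2)) * (T * (T + 1)) ^ 2 = -T ^ 2 := by
        linear_combination (-(T ^ 2) * (τ * (T + 1) + 1)) * hτ
      have e2 : (1 - 2 * τ + ζ * (s + (μ - y) * p - τ * y)) * (T * (T + 1)) =
          T ^ 2 - T + ζ * ((T + 1) * (T * s + μ - y) - T * y) := by
        linear_combination (-(2 * T) - ζ * y * T) * hτ + (ζ * (μ - y) * (T + 1)) * hpT
      have e3 : (1 - 2 * τ + ζ * (s + (μ - y) * p - τ * y)) * (T * (T + 1)) ≤ C1 * (T * (T + 1)) := by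
        refine mul_le_mul_of_nonneg_right ?_ (by positivity)
        rw [hC1]
        linarith only [hE1]
      have e4 : 1 ≤ ζ * ((T + 1) * s) := by
        have := mul_le_mul_of_nonneg_left hs1 hζ0.le
        linarith only [hζ, this]
      have e5 : T * 1 ≤ T * (ζ * ((T + 1) * s)) := mul_le_mul_of_nonneg_left e4 hT0.le
      have e6 : 0 ≤ ζ * ((T + 1) * (μ - 2 * y)) :=
        mul_nonneg hζ0.le (mul_nonneg (by linarith only [hT0]) (by linarith only [hyμ]))
      nlinarith only [e1, e2, e3, e5, e6]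
  linarith only [hlow, hneg, key]

end Pool.Agent.Helper40.DY.NB
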