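import Pool.Agent.Helper40.DY.NB1

/-!
# NGi with `b1 = 0`: real inequalities, index `3` at `h`, index `≥ 4` at `V_2`, `s = 0` (MP_d13a5e_al)

`x = g t + η h + ζ d2`, `h = d1 + l d2`, `T = μ l`, `z = l ζ`, `E = T g - η - z`, `t = μ ^ 2 - 2`; the norm is
`E ^ 2 + η ^ 2 + z ^ 2 - (T ^ 2 - 2) η E - t z E - t z η = T ^ 2`; the claim is
`T (T + 1) ≤ η + (T + 1) (E - ψ z)`.
-/

set_option autoImplicit false

namespace Pool.Agent.Helper40.DY.NB

/-- a convex quadratic function on a triangle -/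
theorem tri_neg {a k p q c T E η E1 : ℝ} (ha : 0 ≤ a) (hk : 0 ≤ k) (hT : 0 < T) (hE : 1 ≤ E) (hη : 1 ≤ η)
    (hs : η + (T + 1) * E ≤ T * (T + 1)) (hE1 : (T + 1) * (T - E1) = 1)
    (v1 : a + 1 - k - p - q - c < 0) (v2 : a * E1 ^ 2 + 1 - k * E1 - p * E1 - q - c < 0)
    (v3 : a + (T ^ 2 - 1) ^ 2 - k * (T ^ 2 - 1) - p - q * (T ^ 2 - 1) - c < 0) :
    a * E ^ 2 + η ^ 2 - k * η * E - p * E - q * η - c < 0 := by
  have hEE : E ≤ E1 := by
    have : (T + 1) * E ≤ (T + 1) * E1 := by linarith only [hη, hs, hE1]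
    exact le_of_mul_le_mul_left this (by linarith only [hT])
  have h1 : a * E ^ 2 + (-(k + p)) * E + (1 - q - c) < 0 :=
    conv ha hE hEE (by linarith only [v1]) (by linarith only [v2])
  have h2 : (a + (T + 1) ^ 2 + k * (T + 1)) * E ^ 2 + (-(2 * T * (T + 1) ^ 2) - k * T * (T + 1) - p +
      q * (T + 1)) * E + ((T + 1) ^ 2 * T ^ 2 - q * T * (T + 1) - c) < 0 := by
    refine conv (by positivity) hE hEE ?_ ?_
    · have e : (a + (T + 1) ^ 2 + k * (T + 1)) * 1 ^ 2 + (-(2 * T * (T + 1) ^ 2) - k * T * (T + 1) - p +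
          q * (T + 1)) * 1 + ((T + 1) ^ 2 * T ^ 2 - q * T * (T + 1) - c) =
          a + (T ^ 2 - 1) ^ 2 - k * (T ^ 2 - 1) - p - q * (T ^ 2 - 1) - c := by ring
      rw [e]
      exact v3
    · have e : (a + (T + 1) ^ 2 + k * (T + 1)) * E1 ^ 2 + (-(2 * T * (T + 1) ^ 2) - k * T * (T + 1) - p +
          q * (T + 1)) * E1 + ((T + 1) ^ 2 * T ^ 2 - q * T * (T + 1) - c) =
          a * E1 ^ 2 + 1 - k * E1 - p * E1 - q - c := by
        linear_combination ((T + 1) * (T - E1) + 1 - q - k * E1) * hE1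
      rw [e]
      exact v2
  have h3 : 1 * η ^ 2 + (-(k * E + q)) * η + (a * E ^ 2 - p * E - c) < 0 := by
    refine conv zero_le_one hη (x1 := (T + 1) * (T - E)) (by linarith only [hs]) ?_ ?_
    · linarith only [h1]
    · have e : 1 * ((T + 1) * (T - E)) ^ 2 + (-(k * E + q)) * ((T + 1) * (T - E)) +
          (a * E ^ 2 - p * E - c) = (a + (T + 1) ^ 2 + k * (T + 1)) * E ^ 2 + (-(2 * T * (T + 1) ^ 2) -
          k * T * (T + 1) - p + q * (T + 1)) * E + ((T + 1) ^ 2 * T ^ 2 - q * T * (T + 1) - c) := by ring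
      rw [e]
      exact h2
  linarith only [h3]

/-- **(P4)** -/
theorem p4 {E η z T μ l t : ℝ} (hT : T = μ * l) (ht : t = μ ^ 2 - 2) (hμ : 8 / 5 ≤ μ)
    (hμ2 : μ ^ 2 = μ + 1 ∨ 3 ≤ μ ^ 2) (hl : (l = 1 ∧ 3 ≤ μ ^ 2) ∨ (1 ≤ l ∧ 2 ≤ l ^ 2)) (hE : 1 ≤ E)
    (hη : 1 ≤ η) (hz : l ≤ z) (hzE : z ≤ (t + 1) * E) (hs : η + (T + 1) * E ≤ T * (T + 1)) :
    E ^ 2 + η ^ 2 + z ^ 2 - (T ^ 2 - 2) * η * E - t * z * E - t * z * η - T ^ 2 < 0 := by
  have hl1 : 1 ≤ l := by rcases hl with h | h <;> linarith only [h]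
  have hμ256 : 256 / 100 ≤ μ ^ 2 := by nlinarith only [hμ]
  have ht0 : 56 / 100 ≤ t := by linarith only [ht, hμ256]
  have hl0 : 0 < l := by linarith only [hl1]
  have hμ0 : 0 < μ := by linarith only [hμ]
  have hT0 : 8 / 5 ≤ T := by
    rw [hT]
    nlinarith only [hl1, hμ256, hμ0]
  have hT2 : T ^ 2 = (t + 2) * l ^ 2 := by
    rw [hT, ht]
    ring
  have hll : l ≤ l ^ 2 := by nlinarith only [hl1]
  have hl21 : 1 ≤ l ^ 2 := by linarith only [hl1, hll]
  have hT2a : 256 / 100 * l ^ 2 ≤ T ^ 2 := by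
    rw [hT2]
    exact mul_le_mul_of_nonneg_right (by linarith only [ht0]) (by positivity)
  have hT2b : 256 / 100 ≤ T ^ 2 := by linarith only [hl21, hT2a]
  obtain ⟨E1, hE1d⟩ : ∃ E1, E1 = T - 1 / (T + 1) := ⟨_, rfl⟩
  have hE1 : (T + 1) * (T - E1) = 1 := by
    rw [hE1d]
    have : T + 1 ≠ 0 := by linarith only [hT0]
    field_simp
    ring
  have hE1T : E1 ≤ T := by
    have h : 0 ≤ (T + 1) * (T - E1) := by linarith only [hE1]
    have := (mul_nonneg_iff_of_pos_left (by linarith only [hT0] : 0 < T + 1)).1 h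
    linarith only [this]
  have hE11 : 1 ≤ E1 := by
    have h : 0 ≤ (T + 1) * (E1 - 1) := by
      have e : (T + 1) * (E1 - 1) = T ^ 2 - 1 - 1 := by linear_combination (-1) * hE1
      rw [e]
      linarith only [hT2b]
    have := (mul_nonneg_iff_of_pos_left (by linarith only [hT0] : 0 < T + 1)).1 h
    linarith
  -- `z = l`
  have hA : 1 * E ^ 2 + η ^ 2 - (T ^ 2 - 2) * η * E - (t * l) * E - (t * l) * η - (T ^ 2 - l ^ 2) < 0 := by
    refine tri_neg zero_le_one (by linarith only [hT2b]) (by linarith only [hE1T, hE11]) hE hη hs hE1 ?_ ?_ ?_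
    · have := mul_pos (by linarith only [ht0] : 0 < t) hl0
      nlinarith only [hT2a, hT2b, this]
    · have k1 : 1 * E1 ^ 2 + (-(T ^ 2 - 2 + t * l)) * E1 + (1 - t * l - (T ^ 2 - l ^ 2)) < 0 := by
        refine conv zero_le_one hE11 hE1T ?_ ?_
        · have := mul_pos (by linarith only [ht0] : 0 < t) hl0
          nlinarith only [hT2a, hT2b, this]
        · have e : 1 * T ^ 2 + (-(T ^ 2 - 2 + t * l)) * T + (1 - t * l - (T ^ 2 - l ^ 2)) =
              1 + l ^ 2 + 2 * T - T * T ^ 2 - t * l * (T + 1) := by ring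
          rw [e]
          rcases hl with ⟨h, h'⟩ | ⟨h, h'⟩
          · have hTμ : T = μ := by rw [hT, h, mul_one]
            have ht1 : 1 ≤ t := by linarith only [ht, h']
            have h3 : 3 ≤ T ^ 2 := by rw [hTμ]; exact h'
            rw [h]
            have k2 : T * 3 ≤ T * T ^ 2 := mul_le_mul_of_nonneg_left h3 (by linarith only [hE1T, hE11])
            have k3 : 1 * (T + 1) ≤ t * (T + 1) := mul_le_mul_of_nonneg_right ht1 (by linarith only [hE1T, hE11])
            linarith only [hE1T, hE11, k2, k3]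
          · have h3 : 512 / 100 ≤ T ^ 2 := by linarith only [hT2a, h']
            have h4 : 22 / 10 ≤ T := by nlinarith only [hE1T, hE11, h3]
            have k2 : l ^ 2 ≤ T ^ 2 / (256 / 100) := by
              rw [le_div_iff₀ (by norm_num)]
              linarith only [hT2a]
            have k3 : 0 ≤ t * l * (T + 1) := by positivity
            have k4 : (22 / 10) * T ^ 2 ≤ T * T ^ 2 := mul_le_mul_of_nonneg_right h4 (by positivity)
            nlinarith only [h4, k2, k3]
      linarith only [k1]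
    · have e : 1 + (T ^ 2 - 1) ^ 2 - (T ^ 2 - 2) * (T ^ 2 - 1) - t * l - t * l * (T ^ 2 - 1) - (T ^ 2 - l ^ 2) =
          l * (l - t * T ^ 2) := by ring
      rw [e]
      refine mul_neg_of_pos_of_neg hl0 ?_
      have k1 : (56 / 100) * (256 / 100 * l ^ 2) ≤ t * T ^ 2 := mul_le_mul ht0 hT2a (by positivity) (by linarith only [ht0])
      nlinarith
  -- `z = (t + 1) E`
  have hB : (t + 2) * E ^ 2 + η ^ 2 - (T ^ 2 - 2 + t * (t + 1)) * η * E - 0 * E - 0 * η - T ^ 2 < 0 := by
    have ht00 : 0 ≤ t * (t + 1) := by positivity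
    refine tri_neg (by linarith only [ht0]) (by linarith only [hT2b, ht00]) (by linarith only [hE1T, hE11]) hE hη hs hE1 ?_ ?_ ?_
    · rcases hl with ⟨h, h'⟩ | ⟨h, h'⟩
      · have ht1 : 1 ≤ t := by linarith only [ht, h']
        have h3 : 3 ≤ T ^ 2 := by rw [hT2, h]; linarith only [ht1]
        nlinarith only [ht1, h3]
      · nlinarith only [hT2b, ht00]
    · rcases hl with ⟨h, h'⟩ | ⟨h, h'⟩
      · -- `l = 1`
        have hTμ : T = μ := by rw [hT, h, mul_one]
        rw [hTμ] at hE1 ⊢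
        have ht2 : μ ^ 2 = t + 2 := by linarith only [ht]
        obtain ⟨τ, hτ⟩ : ∃ τ, τ = μ - E1 := ⟨_, rfl⟩
        have hE1' : E1 = μ - τ := by linarith only [hτ]
        have hτμ : (μ + 1) * τ = 1 := by rw [hτ]; exact hE1
        -- `(μ + 1) ^ 2` times the claim
        have k0 : (μ + 1) ^ 2 * ((t + 2) * E1 ^ 2 + 1 - (μ ^ 2 - 2 + t * (t + 1)) * E1 - 0 * E1 - 0 - μ ^ 2) =
            μ ^ 2 * ((μ ^ 2 + μ - 1) * (-μ ^ 3 + 3 * μ + 1) - (μ + 1) ^ 2) + (μ + 1) ^ 2 := by
          have e1 : (μ + 1) * E1 = μ ^ 2 + μ - 1 := by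
            rw [hE1']
            linear_combination (-1) * hτμ
          have e2 : t = μ ^ 2 - 2 := ht
          rw [e2]
          linear_combination (μ ^ 2 * ((μ + 1) * E1 + (μ ^ 2 + μ - 1)) - (μ + 1) * (μ ^ 2 - 2) * μ ^ 2) * e1
        have k1 : -μ ^ 3 + 3 * μ + 1 ≤ 1 := by nlinarith only [hE1T, hE11, h', hTμ]
        have k2 : (μ ^ 2 + μ - 1) * (-μ ^ 3 + 3 * μ + 1) ≤ (μ ^ 2 + μ - 1) * 1 :=
          mul_le_mul_of_nonneg_left k1 (by linarith only [hE1T, hE11, h', hTμ])
        have k3 : μ ^ 2 * ((μ ^ 2 + μ - 1) * (-μ ^ 3 + 3 * μ + 1) - (μ + 1) ^ 2) ≤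
            μ ^ 2 * ((μ ^ 2 + μ - 1) - (μ + 1) ^ 2) := mul_le_mul_of_nonneg_left (by linarith only [k2]) (by positivity)
        have k4 : μ ^ 2 * ((μ ^ 2 + μ - 1) - (μ + 1) ^ 2) + (μ + 1) ^ 2 < 0 := by
          have e : μ ^ 2 * ((μ ^ 2 + μ - 1) - (μ + 1) ^ 2) + (μ + 1) ^ 2 =
              -(μ * μ ^ 2) - μ ^ 2 + 2 * μ + 1 := by ring
          rw [e]
          have : μ * 3 ≤ μ * μ ^ 2 := mul_le_mul_of_nonneg_left h' hμ0.le
          linarith only [hE1T, hE11, h', hTμ, this]
        by_contra h5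
        have := mul_nonneg (by positivity : 0 ≤ (μ + 1) ^ 2) (not_lt.1 h5)
        linarith only [k0, k3, k4, this]
      · -- `l ^ 2 ≥ 2`
        have k1 : (t + 2) * E1 ^ 2 + (-(T ^ 2 - 2 + t * (t + 1))) * E1 + (1 - T ^ 2) < 0 := by
          refine conv (by linarith only [ht0]) hE11 hE1T ?_ ?_
          · nlinarith only [hT2b, ht00]
          · have e : (t + 2) * T ^ 2 + (-(T ^ 2 - 2 + t * (t + 1))) * T + (1 - T ^ 2) =
                1 - T * (T ^ 2 - (t + 1) * T + t * (t + 1) - 2) := by ring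
            rw [e]
            rcases hμ2 with h3 | h3
            · have e1 : t + 1 = μ := by linarith only [ht, h3]
              have e2 : t * (t + 1) = 1 := by
                rw [e1, ht, h3]
                linear_combination h3
              rw [e1] at *
              have h4 : 1414 / 1000 ≤ l := by nlinarith only [h, h']
              have h5 : 1618 / 1000 ≤ μ := by nlinarith only [hμ0, h3]
              have h6 : 22878 / 10000 ≤ T := by
                rw [hT]
                nlinarith only [h4, h5]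
              have h7 : 585 / 1000 ≤ l * (l - 1) := by nlinarith only [h4]
              have h8 : 2618 / 1000 ≤ μ ^ 2 := by linarith only [h3, h5]
              have h9 : (2618 / 1000) * (585 / 1000) ≤ μ ^ 2 * (l * (l - 1)) :=
                mul_le_mul h8 h7 (by norm_num) (by positivity)
              have h10 : T ^ 2 - μ * T + t * μ - 2 = μ ^ 2 * (l * (l - 1)) - 1 := by
                rw [e2, hT]
                ring
              rw [h10]
              have h11 : 531 / 1000 ≤ μ ^ 2 * (l * (l - 1)) - 1 := by norm_num at h9; linarith only [h9]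
              have h12 : (22878 / 10000) * (531 / 1000) ≤ T * (μ ^ 2 * (l * (l - 1)) - 1) :=
                mul_le_mul h6 h11 (by norm_num) (by linarith only [h6])
              norm_num at h12
              linarith only [h12]
            · have ht1 : 1 ≤ t := by linarith only [ht, h3]
              have h4 : 6 ≤ T ^ 2 := by
                rw [hT2]
                nlinarith only [h', ht1]
              have h5 : 244 / 100 ≤ T := by nlinarith only [hE1, hE1T, h4]
              have h6 : 1 / 2 ≤ T ^ 2 - (t + 1) * T + t * (t + 1) - 2 := by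
                rcases le_total T 3 with h7 | h7
                · have : 0 ≤ (t - 1) * (t + 2 - T) := mul_nonneg (by linarith only [ht1]) (by linarith only [ht1, h7])
                  nlinarith only [ht1, h5, h7]
                · nlinarith only [h7, sq_nonneg (2 * t - (T - 1))]
              have h7 : (244 / 100) * (1 / 2) ≤ T * (T ^ 2 - (t + 1) * T + t * (t + 1) - 2) :=
                mul_le_mul h5 h6 (by norm_num) (by linarith only [h5])
              norm_num at h7
              linarith only [h7]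
        linarith only [k1]
    · have e : t + 2 + (T ^ 2 - 1) ^ 2 - (T ^ 2 - 2 + t * (t + 1)) * (T ^ 2 - 1) - 0 - 0 * (T ^ 2 - 1) - T ^ 2 =
          (t + 1) * (t + 1 - t * T ^ 2) := by ring
      rw [e]
      refine mul_neg_of_pos_of_neg (by linarith only [ht0]) ?_
      rcases hl with ⟨h, h'⟩ | ⟨h, h'⟩
      · have ht1 : 1 ≤ t := by linarith only [ht, h']
        have h3 : t + 2 ≤ T ^ 2 := by rw [hT2, h]; linarith only []
        have h4 : t * (t + 2) ≤ t * T ^ 2 := mul_le_mul_of_nonneg_left h3 (by linarith only [ht1])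
        nlinarith only [ht1, h4]
      · have h3 : (t + 2) * 2 ≤ T ^ 2 := by
          rw [hT2]
          exact mul_le_mul_of_nonneg_left h' (by linarith only [ht0])
        have h4 : t * ((t + 2) * 2) ≤ t * T ^ 2 := mul_le_mul_of_nonneg_left h3 (by linarith only [ht0])
        nlinarith only [ht0, h4]
  have hC : 1 * z ^ 2 + (-(t * E + t * η)) * z + (E ^ 2 + η ^ 2 - (T ^ 2 - 2) * η * E - T ^ 2) < 0 := by
    refine conv zero_le_one hz hzE ?_ ?_
    · linarith only [hA]
    · have e : 1 * ((t + 1) * E) ^ 2 + (-(t * E + t * η)) * ((t + 1) * E) +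
          (E ^ 2 + η ^ 2 - (T ^ 2 - 2) * η * E - T ^ 2) =
          (t + 2) * E ^ 2 + η ^ 2 - (T ^ 2 - 2 + t * (t + 1)) * η * E - 0 * E - 0 * η - T ^ 2 := by ring
      rw [e]
      exact hB
  linarith only [hC]

end Pool.Agent.Helper40.DY.NB
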