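import Pool.Agent.Helper40.DY.NB2

/-!
# NGi with `b1 = 0`: real inequalities, index `3` at `h`, index `≥ 5` at `V_2`, `s = 0` (MP_d13a5e_al)
-/

set_option autoImplicit false

namespace Pool.Agent.Helper40.DY.NB

/-- the data at `V_2`, index at least `5` -/
structure VJ (μ y S r : ℝ) : Prop where
  μ3 : 3 ≤ μ ^ 2
  μ0 : 0 < μ
  y0 : 0 < y
  y1 : y ≤ 1
  yμ : 2 * y ≤ μ
  S0 : 0 < S
  Sμ : μ ≤ S
  hN : S * (1 - μ * y + y ^ 2) = 1 - y ^ 2
  hr : r * S = (μ * y - 1) * S + μ * y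
  h5 : μ + 1 ≤ y * (μ ^ 2 + μ - 1)
  rt : 1 ≤ r * (μ ^ 2 - 2)
  rt' : r ≤ μ ^ 2 - 2
  rS : μ ≤ r * S
  sq : (r * S) ^ 2 - (μ ^ 2 - 2) * (r * S) * S + S ^ 2 = μ ^ 2

variable {E η z T μ l t r y ψ S : ℝ}

theorem VJ.μ17 (V : VJ μ y S r) : 17 / 10 ≤ μ := by
  have := V.μ3
  have := V.μ0
  nlinarith

theorem VJ.N0 (V : VJ μ y S r) : 0 ≤ 1 - μ * y + y ^ 2 := by
  have h1 := V.hN
  have h2 := V.y0
  have h3 := V.y1
  have h4 : 0 ≤ S * (1 - μ * y + y ^ 2) := by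
    rw [h1]
    nlinarith only [h2, h3]
  exact (mul_nonneg_iff_of_pos_left V.S0).1 h4

theorem VJ.ψ0 (V : VJ μ y S r) : 0 < μ * y - 1 := by
  have h1 := V.h5
  have h2 := V.μ17
  have h3 : 0 < μ ^ 2 + μ - 1 := by nlinarith only [h2]
  have h4 : 0 < (μ ^ 2 + μ - 1) * (μ * y - 1) := by
    have : μ * (μ + 1) ≤ μ * (y * (μ ^ 2 + μ - 1)) := mul_le_mul_of_nonneg_left h1 (by linarith only [h2])
    nlinarith only [this]
  exact (mul_pos_iff_of_pos_left h3).1 h4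

theorem VJ.r0 (V : VJ μ y S r) : 0 < r := by
  have h1 := V.rS
  have h2 := V.S0
  have h3 := V.μ0
  by_contra h
  have := mul_nonpos_of_nonpos_of_nonneg (not_lt.1 h) h2.le
  linarith only [h1, h3, this]

theorem VJ.rψ (V : VJ μ y S r) : μ * y - 1 ≤ r := by
  have h1 := V.hr
  have h2 := V.S0
  have h3 := mul_pos V.μ0 V.y0
  have h4 : (μ * y - 1) * S ≤ r * S := by linarith only [h1, h3]
  exact le_of_mul_le_mul_right h4 h2

/-- the line `E_4 = 0` -/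
theorem W0 (V : VJ μ y S r) (hT : μ ≤ T) (ht : t = μ ^ 2 - 2) (hψ : ψ = μ * y - 1) (hz : 0 ≤ z)
    (hEr : r * z ≤ E) : (T + 1) ^ 2 * (T ^ 2 * E ^ 2 - T ^ 2 * (t + 1) * E * z + μ ^ 2 * z ^ 2) ≤
      (T * (T + 1) * E - ((T + 1) * ψ + 1) * z) ^ 2 := by
  have hμ := V.μ17
  have hμ3 := V.μ3
  have ht1 : 1 ≤ t := by linarith only [ht, hμ3]
  have hT0 : 17 / 10 ≤ T := by linarith only [hT, hμ]
  have hr0 := V.r0
  have hrt := V.rt
  rw [← ht] at hrt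
  obtain ⟨d, hd⟩ : ∃ d, d = ((T + 1) * ψ + 1) / (T * (T + 1)) := ⟨_, rfl⟩
  have hd' : (T + 1) * ψ + 1 = d * (T * (T + 1)) := by
    rw [hd]
    field_simp
  have hTT : 0 < T * (T + 1) := by positivity
  have hd1 : d ≤ 1 := by
    rw [hd, div_le_one hTT, hψ]
    have h1 : μ * y ≤ T := by
      have : μ * y ≤ μ * 1 := mul_le_mul_of_nonneg_left V.y1 (by linarith only [hμ])
      linarith only [hT, this]
    have h2 : (T + 1) * (μ * y) ≤ (T + 1) * T := mul_le_mul_of_nonneg_left h1 (by linarith only [hT0])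
    linarith only [hT0, h2]
  rw [hd']
  have e1 : (T * (T + 1) * E - d * (T * (T + 1)) * z) ^ 2 -
      (T + 1) ^ 2 * (T ^ 2 * E ^ 2 - T ^ 2 * (t + 1) * E * z + μ ^ 2 * z ^ 2) =
      (T + 1) ^ 2 * (z * (T ^ 2 * ((t + 1 - 2 * d) * (E - r * z) + z * (r * (t + 1 - 2 * d) + d ^ 2 - 1)) +
        (T ^ 2 - μ ^ 2) * z)) := by ring
  have k1 : 0 ≤ t + 1 - 2 * d := by linarith only [ht1, hd1]
  have k2 : 0 ≤ (t + 1 - 2 * d) * (E - r * z) := mul_nonneg k1 (by linarith only [hEr])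
  have k3 : 0 ≤ r * (t + 1 - 2 * d) + d ^ 2 - 1 := by
    have h1 : 0 ≤ t * (r * (t + 1 - 2 * d) + d ^ 2 - 1) := by
      have h2 : 1 * (t + 1 - 2 * d) ≤ (r * t) * (t + 1 - 2 * d) := mul_le_mul_of_nonneg_right hrt k1
      have h3 : d ^ 2 ≤ t * d ^ 2 := by nlinarith only [ht1, sq_nonneg d]
      nlinarith only [h2, h3, sq_nonneg (1 - d)]
    exact (mul_nonneg_iff_of_pos_left (by linarith only [ht1])).1 h1
  have k4 : 0 ≤ T ^ 2 - μ ^ 2 := by nlinarith only [hT, hμ]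
  have k5 : 0 ≤ z * (r * (t + 1 - 2 * d) + d ^ 2 - 1) := mul_nonneg hz k3
  have k6 : 0 ≤ T ^ 2 * ((t + 1 - 2 * d) * (E - r * z) + z * (r * (t + 1 - 2 * d) + d ^ 2 - 1)) :=
    mul_nonneg (sq_nonneg T) (by linarith only [k2, k5])
  have k7 : 0 ≤ (T ^ 2 - μ ^ 2) * z := mul_nonneg k4 hz
  have k8 : 0 ≤ z * (T ^ 2 * ((t + 1 - 2 * d) * (E - r * z) + z * (r * (t + 1 - 2 * d) + d ^ 2 - 1)) +
        (T ^ 2 - μ ^ 2) * z) := mul_nonneg hz (by linarith only [k6, k7])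
  have k9 := mul_nonneg (sq_nonneg (T + 1)) k8
  linarith only [k9]

/-- the line `w' = 0` -/
theorem W1 (V : VJ μ y S r) (hT : μ ≤ T) (hTl : T = μ ∨ 2 ≤ T) (ht : t = μ ^ 2 - 2) (hψ : ψ = μ * y - 1)
    (hz : 0 ≤ z) (hEr : r * z ≤ E) : (T + 1) ^ 2 * (E ^ 2 - t * E * z + z ^ 2) ≤
      ((T ^ 2 + T - 1) * E + (t - (T + 1) * ψ) * z) ^ 2 := by
  have hμ := V.μ17
  have hμ3 := V.μ3
  have ht1 : 1 ≤ t := by linarith only [ht, hμ3]
  have hT0 : 17 / 10 ≤ T := by linarith only [hT, hμ]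
  have hT2 : 3 ≤ T ^ 2 := by nlinarith only [hT, hμ, hμ3]
  have hr0 := V.r0
  have hrt := V.rt'
  rw [← ht] at hrt
  have hS0 := V.S0
  have hy0 := V.y0
  have hy1 := V.y1
  obtain ⟨w, hw⟩ : ∃ w, w = μ / S := ⟨_, rfl⟩
  have hwS : w * S = μ := by
    rw [hw]
    field_simp
  have hw0 : 0 < w := by
    rw [hw]
    exact div_pos V.μ0 hS0
  have hw1 : w ≤ 1 := by
    rw [hw, div_le_one hS0]
    exact V.Sμ
  have hwr : w ≤ r := by
    have : w * S ≤ r * S := by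
      rw [hwS]
      exact V.rS
    exact le_of_mul_le_mul_right this hS0
  have hrψ : r - ψ = y * w := by
    have : (r - ψ) * S = (y * w) * S := by
      rw [hψ]
      linear_combination V.hr - y * hwS
    exact mul_right_cancel₀ hS0.ne' this
  have hq : r ^ 2 - t * r + 1 = w ^ 2 := by
    have : (r ^ 2 - t * r + 1) * S ^ 2 = w ^ 2 * S ^ 2 := by
      rw [ht]
      linear_combination V.sq - (w * S + μ) * hwS
    exact mul_right_cancel₀ (by positivity) this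
  obtain ⟨e, he⟩ : ∃ e, e = E - r * z := ⟨_, rfl⟩
  have hE : E = r * z + e := by rw [he]; ring
  have he0 : 0 ≤ e := by rw [he]; linarith only [hEr]
  obtain ⟨X, hX⟩ : ∃ X, X = (T ^ 2 + T - 1) * r + t - (T + 1) * ψ := ⟨_, rfl⟩
  have hX' : X = (T + 1) * (y * w) + (T ^ 2 - 2) * r + t := by
    rw [hX]
    linear_combination (T + 1) * hrψ
  have e1 : ((T ^ 2 + T - 1) * E + (t - (T + 1) * ψ) * z) ^ 2 - (T + 1) ^ 2 * (E ^ 2 - t * E * z + z ^ 2) =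
      z ^ 2 * (X ^ 2 - (T + 1) ^ 2 * w ^ 2) + e * z * (2 * X * (T ^ 2 + T - 1) - (T + 1) ^ 2 * (2 * r - t)) +
        e ^ 2 * ((T ^ 2 + T - 1) ^ 2 - (T + 1) ^ 2) := by
    rw [hE, hX]
    linear_combination (-(z ^ 2) * (T + 1) ^ 2) * hq
  have c0 : 0 ≤ X ^ 2 - (T + 1) ^ 2 * w ^ 2 := by
    have k0 : T + 1 ≤ T ^ 2 - 2 + t + (T + 1) * y := by
      rcases hTl with h | h
      · have h1 : 1 ≤ T * y := by
          rw [h]
          linarith only [V.ψ0]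
        have h2 : t = T ^ 2 - 2 := by rw [h, ht]
        rw [h2]
        nlinarith only [hT2, e1, h1]
      · have : 0 ≤ (T + 1) * y := by positivity
        nlinarith only [ht1, h, this]
    have k1 : (T + 1) * w ≤ X := by
      have h1 : (T + 1) * w ≤ (T ^ 2 - 2 + t + (T + 1) * y) * w := mul_le_mul_of_nonneg_right k0 hw0.le
      have h2 : (T ^ 2 - 2) * w ≤ (T ^ 2 - 2) * r := mul_le_mul_of_nonneg_left hwr (by linarith only [hT2])
      have h3 : t * w ≤ t * 1 := mul_le_mul_of_nonneg_left hw1 (by linarith only [hr0, hrt])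
      rw [hX']
      linarith only [h1, h2, h3]
    have k2 : 0 ≤ (T + 1) * w := by positivity
    nlinarith only [k1, k2]
  have c1 : 0 ≤ 2 * X * (T ^ 2 + T - 1) - (T + 1) ^ 2 * (2 * r - t) := by
    have k1 : (T ^ 2 - 2) * r + t ≤ X := by
      rw [hX']
      have : 0 ≤ (T + 1) * (y * w) := by positivity
      linarith only [this]
    have k2 : 2 * ((T ^ 2 - 2) * r + t) * (T ^ 2 + T - 1) ≤ 2 * X * (T ^ 2 + T - 1) :=
      mul_le_mul_of_nonneg_right (by linarith only [k1]) (by linarith only [hT0, hT2])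
    have k3 : (2 * (T ^ 2 + T - 1) + (T + 1) ^ 2) * r ≤ (2 * (T ^ 2 + T - 1) + (T + 1) ^ 2) * t :=
      mul_le_mul_of_nonneg_left hrt (by nlinarith only [hT2])
    have k4 : 0 ≤ r * ((T + 1) * (2 * (T ^ 2 + T - 1) * (T - 1) - (T + 1))) := by
      refine mul_nonneg hr0.le (mul_nonneg (by linarith only [hT0]) ?_)
      have h1 : (7 / 2) ≤ T ^ 2 + T - 1 := by linarith only [hT0, hT2]
      have h2 : (7 / 2) * (T - 1) ≤ (T ^ 2 + T - 1) * (T - 1) := mul_le_mul_of_nonneg_right h1 (by linarith only [hT0])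
      linarith only [hT0, h2]
    nlinarith only [k2, k3, k4]
  have c2 : 0 ≤ (T ^ 2 + T - 1) ^ 2 - (T + 1) ^ 2 := by
    have : (T ^ 2 + T - 1) ^ 2 - (T + 1) ^ 2 = (T ^ 2 - 2) * (T ^ 2 + 2 * T) := by ring
    rw [this]
    exact mul_nonneg (by linarith only [hT2]) (by positivity)
  have k1 := mul_nonneg (sq_nonneg z) c0
  have k2 := mul_nonneg (mul_nonneg he0 hz) c1
  have k3 := mul_nonneg (sq_nonneg e) c2
  linarith only [e1, k1, k2, k3]

/-- **class (a)** : `E_4 ≤ 0 ≤ w'` -/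
theorem p3a (V : VJ μ y S r) (hT : μ ≤ T) (hTl : T = μ ∨ 2 ≤ T) (ht : t = μ ^ 2 - 2) (hψ : ψ = μ * y - 1)
    (hz : 0 ≤ z) (hEr : r * z ≤ E) (hF : (T ^ 2 - 1) * E ≤ η + z) (hw : η ≤ (T ^ 2 - 2) * E + t * z)
    (hs : η + (T + 1) * (E - ψ * z) < T * (T + 1)) :
    E ^ 2 + η ^ 2 + z ^ 2 - (T ^ 2 - 2) * η * E - t * z * E - t * z * η - T ^ 2 < 0 := by
  have hμ := V.μ17
  have hμ3 := V.μ3
  have ht1 : 1 ≤ t := by linarith only [ht, hμ3]
  have hT0 : 17 / 10 ≤ T := by linarith only [hT, hμ]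
  have hT2 : 3 ≤ T ^ 2 := by nlinarith only [hT, hμ, hμ3]
  have hr0 := V.r0
  have w0 := W0 V hT ht hψ hz hEr
  have w1 := W1 V hT hTl ht hψ hz hEr
  have key : 0 ≤ (1 - (T + 1) ^ 2) * η ^ 2 + (2 * (T + 1) * (E - ψ * z) + (T + 1) ^ 2 * ((T ^ 2 - 2) * E +
      t * z)) * η + (((T + 1) * (E - ψ * z)) ^ 2 - (T + 1) ^ 2 * (E ^ 2 + z ^ 2 - t * z * E)) := by
    refine conc (by nlinarith only [hT0]) (by linarith only [hF] : (T ^ 2 - 1) * E - z ≤ η) hw ?_ ?_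
    · have e : (1 - (T + 1) ^ 2) * ((T ^ 2 - 1) * E - z) ^ 2 + (2 * (T + 1) * (E - ψ * z) +
          (T + 1) ^ 2 * ((T ^ 2 - 2) * E + t * z)) * ((T ^ 2 - 1) * E - z) +
          (((T + 1) * (E - ψ * z)) ^ 2 - (T + 1) ^ 2 * (E ^ 2 + z ^ 2 - t * z * E)) =
          (T * (T + 1) * E - ((T + 1) * ψ + 1) * z) ^ 2 -
            (T + 1) ^ 2 * (T ^ 2 * E ^ 2 - T ^ 2 * (t + 1) * E * z + μ ^ 2 * z ^ 2) := by
        rw [ht]
        ring
      rw [e]
      linarith only [w0]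
    · have e : (1 - (T + 1) ^ 2) * ((T ^ 2 - 2) * E + t * z) ^ 2 + (2 * (T + 1) * (E - ψ * z) +
          (T + 1) ^ 2 * ((T ^ 2 - 2) * E + t * z)) * ((T ^ 2 - 2) * E + t * z) +
          (((T + 1) * (E - ψ * z)) ^ 2 - (T + 1) ^ 2 * (E ^ 2 + z ^ 2 - t * z * E)) =
          ((T ^ 2 + T - 1) * E + (t - (T + 1) * ψ) * z) ^ 2 - (T + 1) ^ 2 * (E ^ 2 - t * E * z + z ^ 2) := by
        ring
      rw [e]
      linarith only [w1]
  obtain ⟨U, hU⟩ : ∃ U, U = η + (T + 1) * (E - ψ * z) := ⟨_, rfl⟩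
  have hU0 : 0 ≤ U := by
    have k1 : T * (T + 1) * E - ((T + 1) * ψ + 1) * z ≤ U := by
      rw [hU]
      nlinarith only [hF]
    have k2 : (T + 1) * ψ + 1 ≤ T * (T + 1) * r := by
      have h1 : ψ ≤ r := by rw [hψ]; exact V.rψ
      have h2 : (T + 1) * ψ ≤ (T + 1) * r := mul_le_mul_of_nonneg_left h1 (by linarith only [hT0])
      have h3 : 1 ≤ r * (T ^ 2 - 1) := by
        have h4 : t ≤ T ^ 2 - 1 := by
          rw [ht]
          nlinarith only [hT, hμ]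
        have h5 : r * t ≤ r * (T ^ 2 - 1) := mul_le_mul_of_nonneg_left h4 hr0.le
        have h6 := V.rt
        rw [← ht] at h6
        linarith only [h5, h6]
      nlinarith only [h2, h3]
    have k3 : T * (T + 1) * (r * z) ≤ T * (T + 1) * E := mul_le_mul_of_nonneg_left hEr (by positivity)
    have k4 := mul_le_mul_of_nonneg_right k2 hz
    linarith only [k1, k3, k4]
  have hU1 : U ^ 2 < (T * (T + 1)) ^ 2 := by
    refine pow_lt_pow_left₀ ?_ hU0 two_ne_zero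
    rw [hU]
    exact hs
  have e : (1 - (T + 1) ^ 2) * η ^ 2 + (2 * (T + 1) * (E - ψ * z) + (T + 1) ^ 2 * ((T ^ 2 - 2) * E +
      t * z)) * η + (((T + 1) * (E - ψ * z)) ^ 2 - (T + 1) ^ 2 * (E ^ 2 + z ^ 2 - t * z * E)) =
      U ^ 2 - (T * (T + 1)) ^ 2 - (T + 1) ^ 2 *
        (E ^ 2 + η ^ 2 + z ^ 2 - (T ^ 2 - 2) * η * E - t * z * E - t * z * η - T ^ 2) := by
    rw [hU]
    ring
  rw [e] at key
  by_contra h
  have := mul_nonneg (sq_nonneg (T + 1)) (not_lt.1 h)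
  linarith only [key, hU1, this]

/-- the point `E_4 = 0` of class (b) -/
theorem p30 (V : VJ μ y S r) (hT : μ ≤ T) (ht : t = μ ^ 2 - 2) (hψ : ψ = μ * y - 1)
    (hz : 0 ≤ z) (hEr : r * z ≤ E) (hF : (T ^ 2 - 1) * E = η + z)
    (hs : η + (T + 1) * (E - ψ * z) < T * (T + 1)) :
    E ^ 2 + η ^ 2 + z ^ 2 - (T ^ 2 - 2) * η * E - t * z * E - t * z * η - T ^ 2 < 0 := by
  have hμ := V.μ17
  have hμ3 := V.μ3
  have hT0 : 17 / 10 ≤ T := by linarith only [hT, hμ]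
  have hr0 := V.r0
  have w0 := W0 V hT ht hψ hz hEr
  obtain ⟨U, hU⟩ : ∃ U, U = T * (T + 1) * E - ((T + 1) * ψ + 1) * z := ⟨_, rfl⟩
  have hη : η = (T ^ 2 - 1) * E - z := by linarith only [hF]
  have hU2 : U = η + (T + 1) * (E - ψ * z) := by
    rw [hU, hη]
    ring
  have hU0 : 0 ≤ U := by
    rw [hU]
    have k2 : (T + 1) * ψ + 1 ≤ T * (T + 1) * r := by
      have h1 : ψ ≤ r := by rw [hψ]; exact V.rψ
      have h2 : (T + 1) * ψ ≤ (T + 1) * r := mul_le_mul_of_nonneg_left h1 (by linarith only [hT0])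
      have h3 : 1 ≤ r * (T ^ 2 - 1) := by
        have h4 : t ≤ T ^ 2 - 1 := by
          rw [ht]
          nlinarith only [hT, hμ]
        have h5 : r * t ≤ r * (T ^ 2 - 1) := mul_le_mul_of_nonneg_left h4 hr0.le
        have h6 := V.rt
        rw [← ht] at h6
        linarith only [h5, h6]
      nlinarith only [h2, h3]
    have k3 : T * (T + 1) * (r * z) ≤ T * (T + 1) * E := mul_le_mul_of_nonneg_left hEr (by positivity)
    have k4 := mul_le_mul_of_nonneg_right k2 hz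
    linarith only [k3, k4]
  have hU1 : U ^ 2 < (T * (T + 1)) ^ 2 := by
    refine pow_lt_pow_left₀ ?_ hU0 two_ne_zero
    rw [hU2]
    exact hs
  rw [← hU] at w0
  have e : E ^ 2 + η ^ 2 + z ^ 2 - (T ^ 2 - 2) * η * E - t * z * E - t * z * η - T ^ 2 =
      T ^ 2 * E ^ 2 - T ^ 2 * (t + 1) * E * z + μ ^ 2 * z ^ 2 - T ^ 2 := by
    rw [hη, ht]
    ring
  rw [e]
  by_contra h
  have h1 := mul_nonneg (sq_nonneg (T + 1)) (not_lt.1 h)
  linarith only [w0, hU1, h1]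

end Pool.Agent.Helper40.DY.NB
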