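import Pool.Agent.Helper40.DY.NB3

/-!
# NGi with `b1 = 0`: real inequalities, index `3` at `h`, index `≥ 5` at `V_2`, `s = 0`, class (b)
(MP_d13a5e_al)
-/

set_option autoImplicit false

namespace Pool.Agent.Helper40.DY.NB

variable {E η z T μ l t r y ψ S : ℝ}

/-- `N < (57 / 100) y` -/
theorem VJ.Ny (V : VJ μ y S r) : 1 - μ * y + y ^ 2 < 57 / 100 * y := by
  have hμ := V.μ17
  have hμ3 := V.μ3
  have h5 := V.h5
  obtain ⟨D, hD⟩ : ∃ D, D = μ ^ 2 + μ - 1 := ⟨_, rfl⟩
  rw [← hD] at h5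
  have hD0 : 37 / 10 ≤ D := by rw [hD]; linarith only [hμ, hμ3]
  have hx0 : (μ + 1) / D ≤ y := by
    rw [div_le_iff₀ (by linarith only [hD0])]
    exact h5
  have key : 1 * y ^ 2 + (-(μ + 57 / 100)) * y + 1 < 0 := by
    refine conv zero_le_one hx0 V.y1 ?_ ?_
    · have e : 1 * ((μ + 1) / D) ^ 2 + (-(μ + 57 / 100)) * ((μ + 1) / D) + 1 =
          (μ + 2 - 57 / 100 * (μ + 1) * D) / D ^ 2 := by
        have hD' : D ≠ 0 := by linarith only [hD0]
        field_simp
        rw [hD]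
        ring
      rw [e]
      refine div_neg_of_neg_of_pos ?_ (by positivity)
      have : (57 / 100 * (μ + 1)) * (37 / 10) ≤ (57 / 100 * (μ + 1)) * D :=
        mul_le_mul_of_nonneg_left hD0 (by linarith only [hμ])
      linarith only [hμ, this]
    · have : (173 : ℝ) / 100 ≤ μ := by nlinarith only [hμ, hμ3]
      linarith only [this]
  linarith only [key]

/-- `f ≥ (T + 1) N` -/
theorem VJ.fN (V : VJ μ y S r) (hT : T = μ * l) (hl : l = 1 ∨ (1 ≤ l ∧ 2 ≤ l ^ 2)) (hψ : ψ = μ * y - 1) :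
    (T + 1) * (1 - μ * y + y ^ 2) ≤ y * ((T + 1) * l * ψ + μ - 2 * y) := by
  have hμ := V.μ17
  have hμ3 := V.μ3
  have h5 := V.h5
  have hy0 := V.y0
  have hyμ := V.yμ
  have hψ0 := V.ψ0
  rw [← hψ] at hψ0
  rcases hl with h | ⟨h, h'⟩
  · have hTμ : T = μ := by rw [hT, h, mul_one]
    rw [hTμ, h, hψ]
    have k1 : 0 ≤ y ^ 2 * (μ ^ 2 - 3) := mul_nonneg (sq_nonneg y) (by linarith only [hμ3])
    nlinarith only [hμ3, h5]
  · have hl14 : 14 / 10 ≤ l := by nlinarith only [h, h']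
    have hT0 : 0 ≤ T + 1 := by
      rw [hT]
      have : 0 ≤ μ * l := by
        have := V.μ0
        positivity
      linarith only [this]
    have k1 : 0 ≤ y * (μ - 2 * y) := mul_nonneg hy0.le (by linarith only [hyμ])
    have k2 : (T + 1) * (y * ψ) * (14 / 10) ≤ (T + 1) * (y * ψ) * l :=
      mul_le_mul_of_nonneg_left hl14 (by positivity)
    have k3 : 1 - μ * y + y ^ 2 ≤ (y * ψ) * (14 / 10) := by
      obtain ⟨D, hD⟩ : ∃ D, D = μ ^ 2 + μ - 1 := ⟨_, rfl⟩
      rw [← hD] at h5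
      have hD0 : 0 < D := by rw [hD]; linarith only [hμ3, hy0, hyμ]
      have k4 : (14 / 10 * μ - 1) * (μ + 1) ^ 2 ≤ (14 / 10 * μ - 1) * (y * D) ^ 2 := by
        refine mul_le_mul_of_nonneg_left ?_ (by linarith only [hμ])
        exact pow_le_pow_left₀ (by linarith only [hy0, hyμ]) h5 2
      have k5 : (μ - 14 / 10) * D * (μ + 1) ≤ (μ - 14 / 10) * D * (y * D) := by
        refine mul_le_mul_of_nonneg_left h5 (mul_nonneg (by linarith only [hμ]) hD0.le)
      have k6 : (14 / 10 * μ - 1) * (μ + 1) ^ 2 + (μ - 14 / 10) * D * (μ + 1) - D ^ 2 = 4 / 10 * μ - 6 / 10 := by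
        rw [hD]
        ring
      have k7 : 0 ≤ D ^ 2 * ((y * ψ) * (14 / 10) - (1 - μ * y + y ^ 2)) := by
        have : D ^ 2 * ((y * ψ) * (14 / 10) - (1 - μ * y + y ^ 2)) = (14 / 10 * μ - 1) * (y * D) ^ 2 +
            (μ - 14 / 10) * D * (y * D) - D ^ 2 := by
          rw [hψ]
          ring
        rw [this]
        linarith only [hμ, k4, k5, k6]
      have := (mul_nonneg_iff_of_pos_left (by positivity : 0 < D ^ 2)).1 k7
      linarith only [this]
    have k4 := mul_le_mul_of_nonneg_left k3 hT0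
    linarith only [k1, k2, k4]

/-- the plane `L = 1` in class (b) -/
theorem pj1 (V : VJ μ y S r) (hT : T = μ * l) (hl : l = 1 ∨ (1 ≤ l ∧ 2 ≤ l ^ 2)) (ht : t = μ ^ 2 - 2)
    (hψ : ψ = μ * y - 1) (hη : 1 ≤ η) (hz : 0 < z) (hEr : r * z ≤ E) (hb : η + z ≤ (T ^ 2 - 1) * E)
    (hL : (T + 1) * E = T * (T + 1) + (T + 1) * ψ * z - η) :
    E ^ 2 + η ^ 2 + z ^ 2 - (T ^ 2 - 2) * η * E - t * z * E - t * z * η - T ^ 2 < 0 := by
  have hμ := V.μ17
  have hμ3 := V.μ3
  have hμ0 := V.μ0
  have hl1 : 1 ≤ l := by rcases hl with h | h <;> linarith only [h]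
  have hT0 : 17 / 10 ≤ T := by
    rw [hT]
    nlinarith only [hμ3, hμ0, hl1]
  have hTμ : μ ≤ T := by
    rw [hT]
    nlinarith only [hμ0, hl1]
  have hT3 : 3 ≤ T ^ 2 := by nlinarith only [hμ, hμ3, hTμ]
  have hy0 := V.y0
  have hy1 := V.y1
  have hψ0 := V.ψ0
  rw [← hψ] at hψ0
  have hS0 := V.S0
  obtain ⟨N, hN⟩ : ∃ N, N = 1 - μ * y + y ^ 2 := ⟨_, rfl⟩
  have hN0 : 0 ≤ N := by rw [hN]; exact V.N0
  have hSN : S * N = 1 - y ^ 2 := by rw [hN]; exact V.hN
  have hfN := V.fN hT hl hψ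
  have hNy := V.Ny
  rw [← hN] at hfN hNy
  obtain ⟨ζ, hζ⟩ : ∃ ζ, ζ = z / l := ⟨_, rfl⟩
  have hzζ : z = l * ζ := by
    rw [hζ]
    field_simp
  have hζ0 : 0 < ζ := by
    rw [hζ]
    positivity
  obtain ⟨f, hf⟩ : ∃ f, f = y * ((T + 1) * l * ψ + μ - 2 * y) := ⟨_, rfl⟩
  rw [← hf] at hfN
  obtain ⟨Bq, hBq⟩ : ∃ Bq, Bq = (T + 1) ^ 2 * (μ - 2 * y - N * ζ) + (T + 1) * η * ((T + 1) * l * ψ + μ - 2 * y) :=
    ⟨_, rfl⟩
  -- the identity
  have hid : (T + 1) ^ 2 * (E ^ 2 + η ^ 2 + z ^ 2 - (T ^ 2 - 2) * η * E - t * z * E - t * z * η - T ^ 2) =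
      -(T ^ 2 * ((T + 2) * η * (T ^ 2 - 1 - η) + ζ * Bq)) := by
    have e1 : (T + 1) ^ 2 * (E ^ 2 + η ^ 2 + z ^ 2 - (T ^ 2 - 2) * η * E - t * z * E - t * z * η - T ^ 2) =
        ((T + 1) * E) ^ 2 + (T + 1) ^ 2 * η ^ 2 + (T + 1) ^ 2 * z ^ 2 - (T + 1) * (T ^ 2 - 2) * η * ((T + 1) * E) -
          (T + 1) * t * z * ((T + 1) * E) - (T + 1) ^ 2 * t * z * η - (T + 1) ^ 2 * T ^ 2 := by ring
    rw [e1, hL, hBq, hN, hzζ, ht, hψ, hT]
    ring
  -- the bound of `ζ`
  have hζb : T * y * ζ * (T + 1) ≤ S * (T * (T + 1) - η) := by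
    have k1 : (T + 1) * (r * z) ≤ (T + 1) * E := mul_le_mul_of_nonneg_left hEr (by linarith only [hT0])
    have k2 : S * ((T + 1) * (r * z)) ≤ S * (T * (T + 1) + (T + 1) * ψ * z - η) := by
      rw [← hL]
      exact mul_le_mul_of_nonneg_left k1 hS0.le
    have k3 : S * ((T + 1) * (r * z)) = (T + 1) * z * (ψ * S + μ * y) := by
      rw [hψ]
      linear_combination ((T + 1) * z) * V.hr
    have k4 : (T + 1) * z * (μ * y) = T * y * ζ * (T + 1) := by
      rw [hzζ, hT]
      ring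
    linarith only [k2, k3, k4]
  have hNζ : N * (T * y * ζ * (T + 1)) ≤ (1 - y ^ 2) * (T * (T + 1) - η) := by
    have := mul_le_mul_of_nonneg_left hζb hN0
    rw [← hSN]
    linarith only [this]
  have hy2 : 0 ≤ 1 - y ^ 2 := by nlinarith only [hy0, hy1]
  have hBb : (T + 1) * (-((T + 1) * T * N) + η * (1 - y ^ 2) + η * T * f) ≤ y * T * Bq := by
    have e : y * T * Bq = (T + 1) ^ 2 * T * (y * (μ - 2 * y)) - (T + 1) * (N * (T * y * ζ * (T + 1))) +
        (T + 1) * η * T * f := by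
      rw [hBq, hf]
      ring
    have e2 : y * (μ - 2 * y) = (1 - y ^ 2) - N := by
      rw [hN]
      ring
    rw [e, e2]
    have := mul_le_mul_of_nonneg_left hNζ (by linarith only [hT0] : 0 ≤ T + 1)
    linarith only [this]
  have hf0 : 0 ≤ f := le_trans (mul_nonneg (by linarith only [hT0]) hN0) hfN
  have hyT : 0 < y * T := mul_pos hy0 (by linarith only [hT0])
  have hP : 0 < (T + 2) * η * (T ^ 2 - 1 - η) + ζ * Bq := by
    rcases lt_or_ge η (T ^ 2 - 1) with h | h
    · have k1 : 0 < (T + 2) * η * (T ^ 2 - 1 - η) :=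
        mul_pos (mul_pos (by linarith only [hT0]) (by linarith only [hη])) (by linarith only [h])
      have k2 : 0 ≤ (T + 1) * (-((T + 1) * T * N) + η * (1 - y ^ 2) + η * T * f) := by
        refine mul_nonneg (by linarith only [hT0]) ?_
        have h1 : T * ((T + 1) * N) ≤ T * f := mul_le_mul_of_nonneg_left hfN (by linarith only [hT0])
        have h2 : 0 ≤ (η - 1) * (T * f) := mul_nonneg (by linarith only [hη]) (mul_nonneg (by linarith only [hT0]) hf0)
        have h3 : 0 ≤ η * (1 - y ^ 2) := mul_nonneg (by linarith only [hη]) hy2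
        linarith only [h1, h2, h3]
      have k3 : 0 ≤ Bq := by
        have : 0 ≤ y * T * Bq := le_trans k2 hBb
        exact (mul_nonneg_iff_of_pos_left hyT).1 this
      have := mul_nonneg hζ0.le k3
      linarith only [k1, this]
    · have k1 : 0 < y * T * ((T + 2) * η * (T ^ 2 - 1 - η) + ζ * Bq) := by
        have h1 : T * η ≤ T * (T ^ 2 - 1) + z * ((T ^ 2 - 1) * ψ - 1) := by
          have h2 : (T + 1) * (η + z) ≤ (T + 1) * ((T ^ 2 - 1) * E) := mul_le_mul_of_nonneg_left hb (by linarith only [hT0])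
          have h3 : (T + 1) * ((T ^ 2 - 1) * E) = (T + 1) * ((T - 1) * (T * (T + 1) + (T + 1) * ψ * z - η)) := by
            rw [← hL]
            ring
          rw [h3] at h2
          have h4 := le_of_mul_le_mul_left h2 (by linarith only [hT0] : 0 < T + 1)
          linarith only [h4]
        have h2 : -((T + 2) * η * y * (z * ((T ^ 2 - 1) * ψ - 1))) ≤ y * T * ((T + 2) * η * (T ^ 2 - 1 - η)) := by
          have h3 : 0 ≤ (T + 2) * η * y := by
            have : 0 ≤ η := by linarith only [hη]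
            positivity
          have h4 := mul_le_mul_of_nonneg_left h1 h3
          linarith only [h4]
        have h3 : ζ * ((T + 1) * (-((T + 1) * T * N) + η * (1 - y ^ 2) + η * T * f)) ≤ ζ * (y * T * Bq) :=
          mul_le_mul_of_nonneg_left hBb hζ0.le
        have h4 : y * ((T + 1) * l * ψ) ≤ f := by
          rw [hf]
          exact mul_le_mul_of_nonneg_left (by linarith only [V.yμ]) hy0.le
        have h5 : (T + 1) * (η * T) * (y * ((T + 1) * l * ψ)) ≤ (T + 1) * (η * T) * f :=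
          mul_le_mul_of_nonneg_left h4 (by
            have : 0 ≤ η := by linarith only [hη]
            have : 0 ≤ T := by linarith only [hT0]
            positivity)
        have h6 : 0 ≤ (T + 1) * (η * (1 - y ^ 2)) := mul_nonneg (by linarith only [hT0]) (mul_nonneg (by linarith only [hη]) hy2)
        -- lower bound of the bracket
        have h7 : (T ^ 2 - 1) * (y * l * (T + 2)) - (T + 1) ^ 2 * T * N ≤
            (T + 1) * (-((T + 1) * T * N) + η * (1 - y ^ 2) + η * T * f) -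
              (T + 2) * η * y * (l * ((T ^ 2 - 1) * ψ - 1)) := by
          have h8 : (T ^ 2 - 1) * (y * l * (T + 2)) ≤ η * (y * l * (T + 2)) :=
            mul_le_mul_of_nonneg_right h (by positivity)
          have h9 : 0 ≤ 2 * (T + 1) * (η * y * l * ψ) := by
            have : 0 ≤ η := by linarith only [hη]
            have : 0 ≤ T := by linarith only [hT0]
            positivity
          linarith only [h5, h6, h8, h9]
        have h8 : 0 < (T ^ 2 - 1) * (y * l * (T + 2)) - (T + 1) ^ 2 * T * N := by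
          have e : (T ^ 2 - 1) * (y * l * (T + 2)) - (T + 1) ^ 2 * T * N =
              (T + 1) * ((T - 1) * (T + 2) * (y * l) - T * (T + 1) * N) := by ring
          rw [e]
          refine mul_pos (by linarith only [hT0]) ?_
          have k1 : y * 1 ≤ y * l := mul_le_mul_of_nonneg_left hl1 hy0.le
          have k2 : (T - 1) * (T + 2) * (y * 1) ≤ (T - 1) * (T + 2) * (y * l) :=
            mul_le_mul_of_nonneg_left k1 (mul_nonneg (by linarith only [hT0]) (by linarith only [hT0]))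
          have k3 : T * (T + 1) * N < T * (T + 1) * (57 / 100 * y) :=
            mul_lt_mul_of_pos_left hNy (by positivity)
          have k4 : T * (T + 1) * (57 / 100) ≤ (T - 1) * (T + 2) := by
            have : (173 : ℝ) / 100 ≤ T := by nlinarith only [hT0, hT3]
            nlinarith only [this]
          have k5 := mul_le_mul_of_nonneg_right k4 hy0.le
          linarith only [k2, k3, k5]
        have h9 := mul_pos hζ0 h8
        have h10 := mul_le_mul_of_nonneg_left h7 hζ0.le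
        rw [hzζ] at h2
        nlinarith only [h2, h3, h9, h10]
      exact (mul_pos_iff_of_pos_left hyT).1 k1
  by_contra h
  have h1 := mul_nonneg (sq_nonneg (T + 1)) (not_lt.1 h)
  rw [hid] at h1
  have h2 := mul_pos (by positivity : 0 < T ^ 2) hP
  linarith only [h1, h2]

/-- the plane `E = r z` in class (b) -/
theorem pj2 {u : ℝ} (V : VJ μ y S r) (hT : μ ≤ T) (ht : t = μ ^ 2 - 2) (hψ : ψ = μ * y - 1) (hu : r * u = 1)
    (hE : 1 ≤ E) (hη : 1 ≤ η) (hb : η ≤ (T ^ 2 - 1 - u) * E)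
    (hs : η + (T + 1) * (E - ψ * (u * E)) < T * (T + 1)) :
    E ^ 2 + η ^ 2 + (u * E) ^ 2 - (T ^ 2 - 2) * η * E - t * (u * E) * E - t * (u * E) * η - T ^ 2 < 0 := by
  have hμ := V.μ17
  have hμ3 := V.μ3
  have hμ0 := V.μ0
  have ht1 : 1 ≤ t := by linarith only [ht, hμ3]
  have hT0 : 17 / 10 ≤ T := by linarith only [hT, hμ]
  have hT3 : 3 ≤ T ^ 2 := by nlinarith only [hT, hμ3, hμ0]
  have hy0 := V.y0
  have hy1 := V.y1
  have hr0 := V.r0
  have hS0 := V.S0
  have hψ0 := V.ψ0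
  rw [← hψ] at hψ0
  have hu0 : 0 < u := by
    by_contra h
    have := mul_nonpos_of_nonneg_of_nonpos hr0.le (not_lt.1 h)
    linarith only [hu, this]
  have hrt := V.rt
  have hrt' := V.rt'
  rw [← ht] at hrt hrt'
  have hut : 1 ≤ t * u := by
    have := mul_le_mul_of_nonneg_right hrt' hu0.le
    linarith only [hu, this]
  have hu1 : u ≤ t := by
    have := mul_le_mul_of_nonneg_right hrt hu0.le
    have e : r * t * u = t := by linear_combination t * hu
    linarith only [this, e]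
  obtain ⟨a3, ha3⟩ : ∃ a3, a3 = 1 - t * u + u ^ 2 := ⟨_, rfl⟩
  obtain ⟨m3, hm3⟩ : ∃ m3, m3 = 1 - ψ * u := ⟨_, rfl⟩
  have hrS0 : 0 < r * S := mul_pos hr0 hS0
  have ha : a3 * (r * S) ^ 2 = μ ^ 2 := by
    have e : a3 * (r * S) ^ 2 = (r * S) ^ 2 - t * (r * S) * S + S ^ 2 := by
      rw [ha3]
      linear_combination (-(t * r * S ^ 2) + S ^ 2 * (r * u + 1)) * hu
    rw [e, ht]
    exact V.sq
  have hm : m3 * (r * S) = μ * y := by
    rw [hm3]
    linear_combination V.hr - S * ψ * hu - S * hψ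
  have ha0 : 0 ≤ a3 := by
    by_contra h
    have := mul_neg_of_neg_of_pos (not_le.1 h) (by positivity : 0 < (r * S) ^ 2)
    have := sq_nonneg μ
    linarith
  have ha1 : a3 ≤ 1 := by
    have h1 : μ ^ 2 ≤ (r * S) ^ 2 := pow_le_pow_left₀ hμ0.le V.rS 2
    have h2 : a3 * (r * S) ^ 2 ≤ 1 * (r * S) ^ 2 := by
      rw [ha]
      linarith only [h1]
    exact le_of_mul_le_mul_right h2 (by positivity)
  have hm0 : 0 < m3 := by
    by_contra h
    have h1 := mul_nonpos_of_nonpos_of_nonneg (not_lt.1 h) hrS0.le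
    have := mul_pos hμ0 hy0
    linarith only [hm, h1, this]
  have hmy : m3 ≤ y := by
    have h1 : m3 * (r * S) ≤ y * (r * S) := by
      rw [hm]
      have := mul_le_mul_of_nonneg_left V.rS hy0.le
      linarith only [this]
    exact le_of_mul_le_mul_right h1 hrS0
  have hya : y ^ 2 * a3 = m3 ^ 2 := by
    have : (y ^ 2 * a3) * (r * S) ^ 2 = m3 ^ 2 * (r * S) ^ 2 := by
      linear_combination y ^ 2 * ha - (m3 * (r * S) + μ * y) * hm
    exact mul_right_cancel₀ (by positivity) this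
  obtain ⟨k, hk⟩ : ∃ k, k = T ^ 2 - 2 + t * u := ⟨_, rfl⟩
  have hk1 : T ^ 2 - 1 ≤ k := by rw [hk]; linarith only [hut]
  have hηE : 0 < E := by linarith only [hE]
  have key : 1 * η ^ 2 + (-(k * E)) * η + (a3 * E ^ 2 - T ^ 2) < 0 := by
    refine conv zero_le_one hη hb ?_ ?_
    · -- `η = 1`
      obtain ⟨T0, hT0d⟩ : ∃ T0, T0 = T - 1 / (T + 1) := ⟨_, rfl⟩
      have hTT : (T + 1) * T0 = T ^ 2 + T - 1 := by
        rw [hT0d]
        have : T + 1 ≠ 0 := by linarith only [hT0]
        field_simp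
        try ring
      have hT00 : 0 < T0 := by
        have : 0 < (T + 1) * T0 := by rw [hTT]; linarith only [hT0, hT3]
        exact (mul_pos_iff_of_pos_left (by linarith only [hT0])).1 this
      have h1 : m3 * E ≤ T0 := by
        have : (T + 1) * (m3 * E) ≤ (T + 1) * T0 := by
          rw [hTT, hm3]
          nlinarith only [hη, hs]
        exact le_of_mul_le_mul_left this (by linarith only [hT0])
      have h2 : 1 ≤ y * T0 := by
        have h3 : μ ^ 2 + μ - 1 ≤ (μ + 1) * T0 := by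
          have h4 : 0 ≤ (T + 1) * ((μ + 1) * T0 - (μ ^ 2 + μ - 1)) := by
            have e : (T + 1) * ((μ + 1) * T0 - (μ ^ 2 + μ - 1)) = (μ + 1) * (T ^ 2 + T - 1) -
                (T + 1) * (μ ^ 2 + μ - 1) := by
              linear_combination (μ + 1) * hTT
            rw [e]
            have e2 : (μ + 1) * (T ^ 2 + T - 1) - (T + 1) * (μ ^ 2 + μ - 1) =
                (T - μ) * ((μ + 1) * (T + 1) + 1) := by ring
            rw [e2]
            exact mul_nonneg (by linarith only [hT]) (by positivity)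
          have := (mul_nonneg_iff_of_pos_left (by linarith only [hT0] : 0 < T + 1)).1 h4
          linarith only [this]
        have h4 : y * (μ ^ 2 + μ - 1) ≤ y * ((μ + 1) * T0) := mul_le_mul_of_nonneg_left h3 hy0.le
        have h5 := V.h5
        have h6 : (μ + 1) * 1 ≤ (μ + 1) * (y * T0) := by linarith only [h4, h5]
        exact le_of_mul_le_mul_left h6 (by linarith only [hμ0])
      have h3 : T0 ^ 2 ≤ k := by
        have h4 : (T + 1) ^ 2 * T0 ^ 2 ≤ (T + 1) ^ 2 * (T ^ 2 - 1) := by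
          have e : (T + 1) ^ 2 * T0 ^ 2 = (T ^ 2 + T - 1) ^ 2 := by
            rw [← hTT]
            ring
          rw [e]
          nlinarith only [hT3]
        have := le_of_mul_le_mul_left h4 (by positivity : 0 < (T + 1) ^ 2)
        linarith only [hk1, this]
      have h4 : T0 ≤ k * y := by
        have h5 : T0 * 1 ≤ T0 * (y * T0) := mul_le_mul_of_nonneg_left h2 hT00.le
        have h6 : y * T0 ^ 2 ≤ y * k := mul_le_mul_of_nonneg_left h3 hy0.le
        linarith only [h5, h6]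
      have h5 : y ^ 2 * (a3 * E ^ 2 - k * E) ≤ 0 := by
        have e : y ^ 2 * (a3 * E ^ 2 - k * E) = E * (m3 * (m3 * E) - k * y ^ 2) := by
          linear_combination E ^ 2 * hya
        rw [e]
        refine mul_nonpos_of_nonneg_of_nonpos hηE.le ?_
        have h6 : m3 * (m3 * E) ≤ m3 * T0 := mul_le_mul_of_nonneg_left h1 hm0.le
        have h7 : m3 * T0 ≤ y * T0 := mul_le_mul_of_nonneg_right hmy hT00.le
        have h8 : y * T0 ≤ y * (k * y) := mul_le_mul_of_nonneg_left h4 hy0.le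
        linarith only [h6, h7, h8]
      have h6 : a3 * E ^ 2 - k * E ≤ 0 := by
        by_contra h
        have := mul_pos (by positivity : 0 < y ^ 2) (not_le.1 h)
        linarith only [h5, this]
      linarith only [hT3, h6]
    · -- `η = (T ^ 2 - 1 - u) E`
      have h1 : (T ^ 2 - 1 - u) ^ 2 - k * (T ^ 2 - 1 - u) + a3 ≤ 0 := by
        have e : (T ^ 2 - 1 - u) ^ 2 - k * (T ^ 2 - 1 - u) + a3 = a3 - (T ^ 2 - 1 - u) * ((t + 1) * u - 1) := by
          rw [hk]
          ring
        rw [e]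
        have h2 : t + 1 - u ≤ T ^ 2 - 1 - u := by
          rw [ht]
          nlinarith only [hT, hμ]
        have h3 : 0 ≤ (t + 1) * u - 1 := by linarith only [hu0, hut]
        have h4 : (t + 1 - u) * ((t + 1) * u - 1) ≤ (T ^ 2 - 1 - u) * ((t + 1) * u - 1) :=
          mul_le_mul_of_nonneg_right h2 h3
        have h5 : 1 ≤ (t + 1 - u) * ((t + 1) * u - 1) := by
          have h6 : 0 ≤ (t * u - 1) * (t - u) := mul_nonneg (by linarith only [hk, hk1]) (by linarith only [hu1])
          have h7 : 0 ≤ t * ((t + 1 - u) * ((t + 1) * u - 1) - 1) := by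
            nlinarith only [hut, hu1, h3, h6, mul_nonneg (by linarith only [ht1] : 0 ≤ t - 1) (by linarith only [hk, hk1] : 0 ≤ t * u - 1)]
          have := (mul_nonneg_iff_of_pos_left (by linarith only [ht1] : 0 < t)).1 h7
          linarith only [this]
        linarith only [ha1, h4, h5]
      have h2 : 1 * ((T ^ 2 - 1 - u) * E) ^ 2 + (-(k * E)) * ((T ^ 2 - 1 - u) * E) + (a3 * E ^ 2 - T ^ 2) =
          E ^ 2 * ((T ^ 2 - 1 - u) ^ 2 - k * (T ^ 2 - 1 - u) + a3) - T ^ 2 := by ring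
      rw [h2]
      have := mul_nonpos_of_nonneg_of_nonpos (sq_nonneg E) h1
      linarith only [hT3, this]
  have e : E ^ 2 + η ^ 2 + (u * E) ^ 2 - (T ^ 2 - 2) * η * E - t * (u * E) * E - t * (u * E) * η - T ^ 2 =
      1 * η ^ 2 + (-(k * E)) * η + (a3 * E ^ 2 - T ^ 2) := by
    rw [hk, ha3]
    ring
  rw [e]
  exact key

/-- **class (b)**, beyond the plane `A1 = 0` -/
theorem p3b (V : VJ μ y S r) (hT : T = μ * l) (hl : l = 1 ∨ (1 ≤ l ∧ 2 ≤ l ^ 2)) (ht : t = μ ^ 2 - 2)
    (hψ : ψ = μ * y - 1) (hE : 1 ≤ E) (hη : 1 ≤ η) (hz : 0 < z) (hEr : r * z ≤ E)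
    (hb : η + z ≤ (T ^ 2 - 1) * E) (hs : η + (T + 1) * (E - ψ * z) < T * (T + 1))
    (hA : T * (T + 1) < η + (T + 1) * E) :
    E ^ 2 + η ^ 2 + z ^ 2 - (T ^ 2 - 2) * η * E - t * z * E - t * z * η - T ^ 2 < 0 := by
  have hμ := V.μ17
  have hμ0 := V.μ0
  have hl1 : 1 ≤ l := by rcases hl with h | h <;> linarith only [h]
  have hTμ : μ ≤ T := by
    rw [hT]
    nlinarith only [hμ0, hl1]
  have hT0 : 17 / 10 ≤ T := by linarith only [hμ, hTμ]
  have hr0 := V.r0
  have hψ0 := V.ψ0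
  rw [← hψ] at hψ0
  obtain ⟨z1, hz1⟩ : ∃ z1, z1 = (η + (T + 1) * E - T * (T + 1)) / ((T + 1) * ψ) := ⟨_, rfl⟩
  have hTψ : 0 < (T + 1) * ψ := by positivity
  have hz1' : (T + 1) * ψ * z1 = η + (T + 1) * E - T * (T + 1) := by
    rw [hz1]
    field_simp
  have hz10 : 0 < z1 := by
    rw [hz1]
    exact div_pos (by linarith only [hA]) hTψ
  have hzz : z1 < z := by
    have : (T + 1) * ψ * z1 < (T + 1) * ψ * z := by
      rw [hz1']
      linarith only [hs]
    exact lt_of_mul_lt_mul_left this hTψ.le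
  have q1 : 1 * z1 ^ 2 + (-(t * E + t * η)) * z1 + (E ^ 2 + η ^ 2 - (T ^ 2 - 2) * η * E - T ^ 2) < 0 := by
    have h1 : r * z1 ≤ r * z := mul_le_mul_of_nonneg_left hzz.le hr0.le
    have := pj1 V hT hl ht hψ hη hz10 (by linarith only [hEr, h1] : r * z1 ≤ E) (by linarith only [hb, hzz]) (by linarith only [hz1'])
    linarith only [this]
  obtain ⟨u, hu⟩ : ∃ u, u = 1 / r := ⟨_, rfl⟩
  have hru : r * u = 1 := by
    rw [hu]
    field_simp
  have hzu : z ≤ u * E := by
    have : r * z ≤ r * (u * E) := by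
      have e : r * (u * E) = E := by linear_combination E * hru
      rw [e]
      exact hEr
    exact le_of_mul_le_mul_left this hr0
  have fin : 1 * z ^ 2 + (-(t * E + t * η)) * z + (E ^ 2 + η ^ 2 - (T ^ 2 - 2) * η * E - T ^ 2) < 0 := by
    rcases le_total (u * E) ((T ^ 2 - 1) * E - η) with h | h
    · refine conv zero_le_one hzz.le hzu q1 ?_
      have h1 : ψ * z ≤ ψ * (u * E) := mul_le_mul_of_nonneg_left hzu hψ0.le
      have h2 : (T + 1) * (E - ψ * (u * E)) ≤ (T + 1) * (E - ψ * z) :=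
        mul_le_mul_of_nonneg_left (by linarith only [h1]) (by linarith only [hT0])
      have := pj2 V hTμ ht hψ hru hE hη (by linarith only [h]) (by linarith only [hs, h2])
      linarith only [this]
    · refine conv zero_le_one hzz.le (by linarith only [hb] : z ≤ (T ^ 2 - 1) * E - η) q1 ?_
      have h1 : ψ * z ≤ ψ * ((T ^ 2 - 1) * E - η) := mul_le_mul_of_nonneg_left (by linarith only [hb]) hψ0.le
      have h2 : (T + 1) * (E - ψ * ((T ^ 2 - 1) * E - η)) ≤ (T + 1) * (E - ψ * z) :=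
        mul_le_mul_of_nonneg_left (by linarith only [h1]) (by linarith only [hT0])
      have h3 : r * ((T ^ 2 - 1) * E - η) ≤ E := by
        have := mul_le_mul_of_nonneg_left h hr0.le
        have e : r * (u * E) = E := by linear_combination E * hru
        linarith only [this, e]
      have := p30 V hTμ ht hψ (z := (T ^ 2 - 1) * E - η) (η := η) (by linarith only [hz, hb]) h3 (by ring) (by linarith only [hs, h2])
      linarith only [this]
  linarith only [fin]

/-- **the label `(2, 5, 3)`** : `i = 3`, `j = 4` -/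
theorem h3 {w : ℝ} (hμ : μ ^ 2 = μ + 1) (hμ0 : 0 < μ) (hE : 1 ≤ E) (hη : 1 ≤ η) (hz : 1 ≤ z) (hzE : z ≤ μ * E)
    (hw : w = (μ - 1) * (E + z) - η) (hwz : w = 0 ∨ 1 ≤ w)
    (hn : E ^ 2 + η ^ 2 + z ^ 2 - (μ ^ 2 - 2) * η * E - (μ ^ 2 - 2) * z * E - (μ ^ 2 - 2) * z * η = μ ^ 2)
    (hs : η + (μ + 1) * E < μ * (μ + 1)) : False := by
  have hμ1 : 16 / 10 ≤ μ := by nlinarith only [hμ, hμ0]
  rcases hwz with h | h
  · -- `w = 0`
    have hη' : η = (μ - 1) * (E + z) := by linarith only [hw, h]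
    have e1 : E ^ 2 + z ^ 2 - (μ - 1) * E * z = μ ^ 2 := by
      have : μ ^ 2 - 2 = μ - 1 := by linarith only [hμ]
      rw [this] at hn
      rw [hη'] at hn
      linear_combination hn
    have e2 : 2 * μ * E + (μ - 1) * z < μ * (μ + 1) := by
      rw [hη'] at hs
      linarith only [hs]
    have e3 : (2 * μ * E + (μ - 1) * z) ^ 2 < (μ * (μ + 1)) ^ 2 := by
      refine pow_lt_pow_left₀ e2 ?_ two_ne_zero
      have := mul_nonneg (by linarith only [hμ1] : 0 ≤ μ - 1) (by linarith only [hz] : 0 ≤ z)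
      positivity
    have e4 : (μ * (μ + 1)) ^ 2 = (3 * μ + 2) * (E ^ 2 + z ^ 2 - (μ - 1) * E * z) := by
      rw [e1]
      linear_combination (μ ^ 2) * hμ
    rw [e4] at e3
    have e5 : (2 * μ * E + (μ - 1) * z) ^ 2 - (3 * μ + 2) * (E ^ 2 + z ^ 2 - (μ - 1) * E * z) =
        (μ * E - z) * (4 * μ * z + (2 * μ - 1) * E) := by
      linear_combination (4 * E ^ 2 + 4 * E * z + z ^ 2 + 3 * E * z - 2 * E ^ 2 - 4 * E * z) * hμ
    have e6 : 0 ≤ (μ * E - z) * (4 * μ * z + (2 * μ - 1) * E) := by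
      refine mul_nonneg (by linarith only [hzE]) ?_
      have h1 := mul_nonneg hμ0.le (by linarith only [hz] : 0 ≤ z)
      have h2 := mul_nonneg (by linarith only [hμ1] : 0 ≤ 2 * μ - 1) (by linarith only [hE] : 0 ≤ E)
      linarith only [h1, h2]
    linarith only [e3, e5, e6]
  · -- `w ≥ 1`
    have e1 : (μ + 1) * E < μ * (μ + 1) - 1 := by linarith only [hη, hs]
    have e2 : (μ - 1) * (E + z) ≤ μ * E := by
      have h1 : (μ - 1) * (E + z) ≤ (μ - 1) * (E + μ * E) :=
        mul_le_mul_of_nonneg_left (by linarith only [hzE]) (by linarith only [hμ1])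
      have h2 : (μ - 1) * (E + μ * E) = μ * E := by linear_combination E * hμ
      linarith only [h1, h2]
    have e3 : μ * E < 2 := by
      have h1 : (μ + 1) * (μ * E) < (μ + 1) * 2 := by
        have h2 : μ * ((μ + 1) * E) < μ * (μ * (μ + 1) - 1) := mul_lt_mul_of_pos_left e1 hμ0
        have h3 : μ * (μ * (μ + 1) - 1) = (μ + 1) * 2 := by linear_combination (μ + 2) * hμ
        linarith only [h2, h3]
      exact lt_of_mul_lt_mul_left h1 (by linarith only [hμ1])
    linarith only [hη, hw, h, e2, e3]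

end Pool.Agent.Helper40.DY.NB
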