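import Pool.Agent.Helper40.DY.NB4
import Pool.Agent.Helper57.DY.NGs
import Pool.Agent.Helper9.DY.Pencil

/-!
# NGi with `b1 = 0`: index `3` at `h`, index `≥ 4` at `V_2` (MP_d13a5e_al)
-/

set_option autoImplicit false

namespace Pool.Agent.Helper40.DY.NB

open _root_.DY (Z1 sq sq_zero sq_one sq_two sq_succ sq_cassini sq_le_succ)
open Pool.Agent.Helper62.DY (RT)
open Pool.Agent.Helper57.DY (sq_ge_l p5_ge p5_zero rt_b2s)

/-- the data of NGi with `b1 = 0` -/
structure GE (R : ℝ → ℝ → ℝ → Prop) (b1 b2 bO H1 H2 g x1 x2 η ζ T s : ℝ) : Prop where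
  hR : RT b1 b2 bO R
  hb1 : b1 = 0
  hb2 : 1 ≤ 2 * b2
  hT : T = 2 * b2 * H2
  hs : s = 2 * bO * H1 - H2
  hh : R 0 H1 H2
  hH1 : 1 ≤ H1
  hH2 : 1 ≤ H2
  hx : R g x1 x2
  hg : 1 ≤ g
  hx1 : 1 ≤ x1
  e1 : x1 = H1 * η
  e2 : x2 = ζ + H2 * η
  hζ : 0 < ζ
  hη : 0 < η
  hvζ : 1 ≤ H1 * ζ

variable {R : ℝ → ℝ → ℝ → Prop} {b1 b2 bO H1 H2 g x1 x2 η ζ T s : ℝ}

/-- the data of the root `h` -/
theorem GE.h_facts (D : GE R b1 b2 bO H1 H2 g x1 x2 η ζ T s) :
    (s = 0 ∨ 1 ≤ s) ∧ H1 ^ 2 = 1 + H2 * s ∧ (H2 = 1 ∨ (1 ≤ H2 ∧ 2 ≤ H2 ^ 2)) := by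
  have hH1 := D.hH1
  have hH2 := D.hH2
  have n0 := D.hR.n _ _ _ D.hh
  have r2 := (D.hR.z1 (D.hR.r2 _ _ _ D.hh) (by linarith only [hH1])).2.2
  have r1 := (D.hR.z2 (D.hR.r1 _ _ _ D.hh) (by linarith only [hH2])).2.1
  have e2 : 2 * b2 * 0 + 2 * bO * H1 - H2 = s := by rw [D.hs]; ring
  have e1 : 2 * b1 * 0 + 2 * bO * H2 - H1 = 2 * bO * H2 - H1 := by ring
  rw [e2] at r2
  rw [e1] at r1
  have nh : H1 ^ 2 = 1 + H2 * s := by rw [D.hs]; linarith only [n0]
  have nh' : H2 ^ 2 = 1 + H1 * (2 * bO * H2 - H1) := by linarith only [n0]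
  refine ⟨r2, nh, ?_⟩
  rcases r1 with h | h
  · left
    rw [h, mul_zero, add_zero] at nh'
    nlinarith only [hH2, nh']
  · right
    have := mul_le_mul hH1 h (by norm_num) (by linarith only [hH1])
    exact ⟨hH2, by linarith only [nh', this]⟩

/-- the norm -/
theorem GE.norm (D : GE R b1 b2 bO H1 H2 g x1 x2 η ζ T s) :
    g ^ 2 - 1 = η * (T * g - η - (H2 - s) * ζ) + ζ * (2 * b2 * g - ζ) := by
  have n := D.hR.n _ _ _ D.hx
  have nh := D.h_facts.2.1
  rw [D.e1, D.e2, D.hb1] at n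
  rw [D.hT]
  have hs := D.hs
  rw [hs] at nh ⊢
  linear_combination n - η ^ 2 * nh

/-- the values at `V_2`, index at least `4` -/
theorem v2_of {b1 b2 bO : ℝ} {R : ℝ → ℝ → ℝ → Prop} (hR : RT b1 b2 bO R) (h1 : 1 ≤ 2 * b2) (n : ℕ)
    (hs : ∀ i ≤ n + 3, 0 < sq b2 (i + 1)) {y r : ℝ} (hy : y * sq b2 (n + 4) = sq b2 (n + 3) - 1)
    (hr : r * sq b2 (n + 3) = sq b2 (n + 1)) :
    8 / 5 ≤ 2 * b2 ∧ ((2 * b2) ^ 2 = 2 * b2 + 1 ∨ 3 ≤ (2 * b2) ^ 2) ∧ 0 < y ∧ y ≤ 1 ∧ 2 * y ≤ 2 * b2 ∧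
      1 ≤ 2 * b2 * y ∧ 2 * b2 * y - 1 ≤ r ∧ y ^ 2 ≤ r ∧ y ≤ r * (2 * b2 - y) ∧ 1 ≤ r * ((2 * b2) ^ 2 - 1) ∧
      ((2 * b2 * y = 1 ∧ r * ((2 * b2) ^ 2 - 1) = 1) ∨ VJ (2 * b2) y (sq b2 (n + 3)) r) := by
  have p : ∀ i ≤ n + 3, 1 ≤ sq b2 (i + 1) := fun i hi => hR.pge i (hs i hi)
  have p1 : 1 ≤ sq b2 (n + 1) := p n (by omega)
  have p2 : 1 ≤ sq b2 (n + 2) := p (n + 1) (by omega)
  have p3 : 1 ≤ sq b2 (n + 3) := p (n + 2) (by omega)
  have p4 : 1 ≤ sq b2 (n + 4) := p (n + 3) (by omega)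
  have p5 : 0 ≤ sq b2 (n + 5) := hR.pnn (n + 3) (hs (n + 3) le_rfl)
  have p0 : 0 ≤ sq b2 n := by
    rcases Nat.eq_zero_or_pos n with h | h
    · rw [h, sq_zero]
    · obtain ⟨l, rfl⟩ : ∃ l, n = l + 1 := ⟨n - 1, by omega⟩
      linarith only [p l (by omega)]
  have hb0 : 0 ≤ b2 := by linarith only [h1]
  have q4 : 1 ≤ sq b2 4 := p 3 (by omega)
  have e3 : sq b2 3 = (2 * b2) ^ 2 - 1 := by
    have a2 : sq b2 3 = 2 * b2 * sq b2 2 - sq b2 1 := sq_succ b2 1
    rw [a2, sq_two, sq_one]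
    ring
  have e4 : sq b2 4 = 2 * b2 * ((2 * b2) ^ 2 - 2) := by
    have a1 : sq b2 4 = 2 * b2 * sq b2 3 - sq b2 2 := sq_succ b2 2
    rw [a1, e3, sq_two]
    ring
  have e5 : sq b2 5 = (2 * b2) ^ 4 - 3 * (2 * b2) ^ 2 + 1 := by
    have : sq b2 5 = 2 * b2 * sq b2 4 - sq b2 3 := sq_succ b2 3
    rw [this, e4, e3]
    ring
  have gl2 : 2 * b2 ≤ sq b2 (n + 2) := sq_ge_l hb0 p0 (by linarith only [p2]) (by linarith only [p4])
  have gl3 : 2 * b2 ≤ sq b2 (n + 3) :=
    sq_ge_l hb0 (n := n + 1) (by linarith only [p1]) (by linarith only [p3] : 0 ≤ sq b2 (n + 3)) p5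
  have rec2 : sq b2 (n + 2) = 2 * b2 * sq b2 (n + 1) - sq b2 n := sq_succ b2 n
  have rec3 : sq b2 (n + 3) = 2 * b2 * sq b2 (n + 2) - sq b2 (n + 1) := sq_succ b2 (n + 1)
  have rec4 : sq b2 (n + 4) = 2 * b2 * sq b2 (n + 3) - sq b2 (n + 2) := sq_succ b2 (n + 2)
  have rec5 : sq b2 (n + 5) = 2 * b2 * sq b2 (n + 4) - sq b2 (n + 3) := sq_succ b2 (n + 3)
  have cas : sq b2 (n + 3) ^ 2 - sq b2 (n + 2) * sq b2 (n + 4) = 1 := sq_cassini b2 (n + 2)
  have cas2 : sq b2 (n + 2) ^ 2 - sq b2 (n + 1) * sq b2 (n + 3) = 1 := sq_cassini b2 (n + 1)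
  have l1 : sq b2 (n + 3) ≤ sq b2 (n + 4) + 1 := sq_le_succ (by linarith only [p3]) (by linarith only [p4])
  obtain ⟨μ, hμ⟩ : ∃ μ, μ = 2 * b2 := ⟨_, rfl⟩
  rw [← hμ] at h1 e3 e4 e5 gl2 gl3 rec2 rec3 rec4 rec5 ⊢
  have hμ2 : μ + 1 ≤ μ ^ 2 := by
    rw [e4] at q4
    have k1 : 0 ≤ (μ + 1) * (μ ^ 2 - μ - 1) := by linarith only [q4]
    have k2 := (mul_nonneg_iff_of_pos_left (by linarith only [h1] : 0 < μ + 1)).1 k1
    linarith only [k2]
  have hμ8 : 8 / 5 ≤ μ := by nlinarith only [h1, hμ2]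
  have hμc : μ ^ 2 = μ + 1 ∨ 3 ≤ μ ^ 2 := by
    have q5 : 0 ≤ sq b2 5 := hR.pnn 3 (by linarith only [q4])
    rcases q5.lt_or_eq with h | h
    · right
      have h3 : 1 ≤ sq b2 5 := hR.pge 4 h
      rw [e5] at h3
      exact p5_ge (by linarith only [h1, hμ2]) h3
    · left
      rw [e5] at h
      exact p5_zero (by linarith only [hμ8]) h.symm
  obtain ⟨S, hS⟩ : ∃ S, S = sq b2 (n + 3) := ⟨_, rfl⟩
  obtain ⟨S2, hS2⟩ : ∃ S2, S2 = sq b2 (n + 2) := ⟨_, rfl⟩
  obtain ⟨S3, hS3⟩ : ∃ S3, S3 = sq b2 (n + 1) := ⟨_, rfl⟩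
  obtain ⟨sj, hsj⟩ : ∃ sj, sj = sq b2 (n + 4) := ⟨_, rfl⟩
  rw [← hS, ← hsj] at hy
  rw [← hS, ← hS3] at hr
  rw [← hS3] at p1
  rw [← hS2] at p2 gl2
  rw [← hS] at p3 gl3
  rw [← hsj] at p4
  rw [← hS2, ← hS3] at rec2
  rw [← hS, ← hS2, ← hS3] at rec3 cas2
  rw [← hS, ← hS2, ← hsj] at rec4 cas
  rw [← hS, ← hsj] at rec5 l1
  rw [← hS]
  have hS0 : 0 < S := by linarith only [p3]
  have hy0 : 0 < y := by
    by_contra h
    have := mul_nonpos_of_nonpos_of_nonneg (not_lt.1 h) (by linarith only [p4] : 0 ≤ sj)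
    linarith only [hμ8, gl3, hy, this]
  have hy1 : y ≤ 1 := by
    have : y * sj ≤ 1 * sj := by linarith only [l1, hy]
    exact le_of_mul_le_mul_right this (by linarith only [p4])
  have hyS : S2 = y * (S + 1) := by
    have : sj * S2 = sj * (y * (S + 1)) := by linear_combination (-1) * cas - (S + 1) * hy
    exact mul_left_cancel₀ (by linarith only [p4] : sj ≠ 0) this
  have hN : S * (1 - μ * y + y ^ 2) = 1 - y ^ 2 := by
    rw [rec4, hyS] at hy
    linear_combination (-1) * hy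
  have hr' : r * S = (μ * y - 1) * S + μ * y := by
    rw [hr]
    linear_combination rec3 + μ * hyS
  have hψ : 1 ≤ μ * y := by
    have : 1 * sj ≤ (μ * y) * sj := by
      have e : (μ * y) * sj = μ * S - μ := by linear_combination μ * hy
      rw [e, rec4]
      linarith only [gl2]
    exact le_of_mul_le_mul_right this (by linarith only [p4])
  have hyμ : 2 * y ≤ μ := by
    have e : (μ - 2 * y) * S = sj * (1 - y ^ 2) := by
      linear_combination (-1) * rec4 + hyS + y * hy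
    have h2 : 0 ≤ (μ - 2 * y) * S := by
      rw [e]
      exact mul_nonneg (by linarith only [p4]) (by nlinarith only [hy0, hy1])
    have := (mul_nonneg_iff_of_pos_right hS0).1 h2
    linarith only [this]
  have hrψ : μ * y - 1 ≤ r := by
    have : (μ * y - 1) * S ≤ r * S := by linarith only [hr', hψ]
    exact le_of_mul_le_mul_right this hS0
  have hry : y ^ 2 ≤ r := by
    have : y ^ 2 * S ≤ r * S := by
      rw [hr']
      have e : y ^ 2 * S = (μ * y - 1) * S + (1 - y ^ 2) := by linear_combination hN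
      rw [e]
      nlinarith only [hψ]
    exact le_of_mul_le_mul_right this hS0
  have hrμ : y ≤ r * (μ - y) := by
    have : y * S ≤ r * (μ - y) * S := by
      have e : r * (μ - y) * S = y * S + μ * (μ * y - 1) := by
        linear_combination (μ - y) * hr' - μ * hN
      rw [e]
      have := mul_nonneg (by linarith only [hy0, hyμ] : 0 ≤ μ) (by linarith only [hψ] : 0 ≤ μ * y - 1)
      linarith only [this]
    exact le_of_mul_le_mul_right this hS0
  have hrt1 : 1 ≤ r * (μ ^ 2 - 1) := by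
    have : 1 * S ≤ r * (μ ^ 2 - 1) * S := by
      have e : r * (μ ^ 2 - 1) * S = S3 * (μ ^ 2 - 1) := by linear_combination (μ ^ 2 - 1) * hr
      rw [e, rec3, rec2]
      have := mul_nonneg (by linarith only [hy0, hyμ] : 0 ≤ μ) p0
      linarith only [this]
    exact le_of_mul_le_mul_right this hS0
  refine ⟨hμ8, hμc, hy0, hy1, hyμ, hψ, hrψ, hry, hrμ, hrt1, ?_⟩
  rcases Nat.eq_zero_or_pos n with hn | hn
  · -- `j = 4`
    left
    subst hn
    have f1 : S3 = 1 := by rw [hS3]; exact sq_one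
    have f2 : S2 = μ := by
      rw [hS2, hμ]
      exact sq_two
    have f3 : S = μ ^ 2 - 1 := by rw [rec3, f2, f1]; ring
    constructor
    · have : (μ * y) * (S + 1) = 1 * (S + 1) := by
        have e : (μ * y) * (S + 1) = μ * S2 := by rw [hyS]; ring
        rw [e, f2, f3]
        ring
      exact mul_right_cancel₀ (by linarith only [hS0] : S + 1 ≠ 0) this
    · rw [← f3, hr, f1]
  · -- `j ≥ 5`
    right
    obtain ⟨m, rfl⟩ : ∃ m, n = m + 1 := ⟨n - 1, by omega⟩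
    have s5 : 1 ≤ sq b2 5 := p 4 (by omega)
    rw [e5] at s5
    have hl3 : 3 ≤ μ ^ 2 := p5_ge (by linarith only [h1, hμ2]) s5
    have pm : 0 ≤ sq b2 m := by
      rcases Nat.eq_zero_or_pos m with h | h
      · rw [h, sq_zero]
      · obtain ⟨l, rfl⟩ : ∃ l, m = l + 1 := ⟨m - 1, by omega⟩
        linarith only [p l (by omega)]
    have p1' : 1 ≤ sq b2 (m + 1) := p m (by omega)
    have hi : sq b2 (m + 1 + 1) = sq b2 (m + 2) := rfl
    have gl1 : μ ≤ S3 := by
      rw [hS3, hμ, hi]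
      exact sq_ge_l hb0 pm (by
        have := p (m + 1) (by omega)
        linarith only [this]) (by
        have : sq b2 (m + 4) = sq b2 (m + 1 + 3) := rfl
        rw [this, ← hS]
        linarith only [hS0])
    have rec1 : S3 = μ * sq b2 (m + 1) - sq b2 m := by
      rw [hS3, hμ, hi]
      exact sq_succ b2 m
    refine ⟨hl3, by linarith only [hμ8], hy0, hy1, hyμ, hS0, gl3, hN, hr', ?_, ?_, ?_, ?_, ?_⟩

    · -- h5
      have e : (S + 1) * (y * (μ ^ 2 + μ - 1)) = S2 * (μ ^ 2 + μ - 1) := by rw [hyS]; ring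
      have h2 : (S + 1) * (μ + 1) ≤ (S + 1) * (y * (μ ^ 2 + μ - 1)) := by
        rw [e, rec3]
        have h3 : S2 ≤ (μ + 1) * (S3 - 1) := by
          rw [rec2]
          linarith only [p1', gl1]
        nlinarith only [h3]
      exact le_of_mul_le_mul_left h2 (by linarith only [hS0])
    · -- rt
      have : 1 * S ≤ r * (μ ^ 2 - 2) * S := by
        have e : r * (μ ^ 2 - 2) * S = S3 * (μ ^ 2 - 2) := by linear_combination (μ ^ 2 - 2) * hr
        rw [e]
        have h4 : S = (μ ^ 2 - 2) * S3 - sq b2 m := by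
          rw [rec3, rec2]
          linear_combination rec1
        rw [h4]
        linarith only [pm]
      exact le_of_mul_le_mul_right this hS0
    · -- rt'
      have : r * S ≤ (μ ^ 2 - 2) * S := by
        rw [hr]
        have h4 : sq b2 (m + 1 + 5) = (μ ^ 2 - 2) * S - S3 := by
          rw [rec5, rec4]
          linear_combination rec3
        linarith only [p5, h4]
      exact le_of_mul_le_mul_right this hS0
    · rw [hr]
      exact gl1
    · rw [hr]
      have h4 : μ * S2 = S + S3 := by rw [rec3]; ring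
      have h5 : (μ * S2) ^ 2 = (S + S3) ^ 2 := by rw [h4]
      linear_combination (-1) * h5 + μ ^ 2 * cas2

/-- **`i = 3`, `j ≥ 4`** -/
theorem GE.three (D : GE R b1 b2 bO H1 H2 g x1 x2 η ζ T s) {τ y : ℝ} (n : ℕ)
    (hs : ∀ i ≤ n + 3, 0 < sq b2 (i + 1)) (hy : y * sq b2 (n + 4) = sq b2 (n + 3) - 1)
    (hτ : τ * (T + 1) = 1) (hE : 1 ≤ T * g - η - H2 * ζ)
    (hF : sq b2 (n + 3) * η + T * sq b2 (n + 2) * ζ ≤ T * sq b2 (n + 3) * g) :
    1 ≤ g - τ * η - y * ζ := by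
  obtain ⟨ss, nh, h2s⟩ := D.h_facts
  have hN := D.norm
  have hg := D.hg
  have hη := D.hη
  have hζ := D.hζ
  have hH1 := D.hH1
  have hH2 := D.hH2
  have hb2 := D.hb2
  have hT := D.hT
  obtain ⟨r, hr⟩ : ∃ r, r = sq b2 (n + 1) / sq b2 (n + 3) := ⟨_, rfl⟩
  have pS := hs (n + 2) (by omega)
  have hr' : r * sq b2 (n + 3) = sq b2 (n + 1) := by
    rw [hr]
    field_simp
  obtain ⟨hμ8, hμc, hy0, hy1, hyμ, hψ, hrψ, hry, hrμ, hrt1, hJ⟩ := v2_of D.hR hb2 n hs hy hr'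
  have rec3 : sq b2 (n + 3) = 2 * b2 * sq b2 (n + 2) - sq b2 (n + 1) := sq_succ b2 (n + 1)
  -- `E ≥ h2 r ζ`
  have hEr : H2 * r * ζ ≤ T * g - η - H2 * ζ := by
    have h1 : sq b2 (n + 3) * (H2 * r * ζ) ≤ sq b2 (n + 3) * (T * g - η - H2 * ζ) := by
      have e : sq b2 (n + 3) * (H2 * r * ζ) = T * sq b2 (n + 2) * ζ - sq b2 (n + 3) * (H2 * ζ) := by
        rw [hT]
        linear_combination (H2 * ζ) * hr' + (H2 * ζ) * rec3
      rw [e]
      linarith only [hF]
    exact le_of_mul_le_mul_left h1 pS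
  obtain ⟨μ, hμ⟩ : ∃ μ, μ = 2 * b2 := ⟨_, rfl⟩
  rw [← hμ] at hμ8 hμc hyμ hψ hrψ hrμ hrt1 hJ hT hN
  have hη1 : 1 ≤ H1 * η := by
    rw [← D.e1]
    exact D.hx1
  rcases ss with hs0 | hs1
  · -- `s = 0`
    rw [hs0, mul_zero, add_zero] at nh
    have hH11 : H1 = 1 := by nlinarith only [nh, hH1]
    have hl : H2 = 2 * bO := by
      have := D.hs
      rw [hs0, hH11] at this
      linarith only [this]
    rw [hs0, sub_zero] at hN
    rw [hH11, one_mul] at hη1
    have hζ1 : 1 ≤ ζ := by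
      have := D.hvζ
      rw [hH11, one_mul] at this
      exact this
    obtain ⟨l, hl'⟩ : ∃ l, l = H2 := ⟨_, rfl⟩
    rw [← hl'] at h2s hH2 hT hE hEr hN hl
    obtain ⟨z, hz⟩ : ∃ z, z = l * ζ := ⟨_, rfl⟩
    obtain ⟨E, hEd⟩ : ∃ E, E = T * g - η - z := ⟨_, rfl⟩
    have hE' : T * g - η - l * ζ = E := by rw [hEd, hz]
    rw [hE'] at hE hEr hN
    obtain ⟨t, ht⟩ : ∃ t, t = μ ^ 2 - 2 := ⟨_, rfl⟩
    obtain ⟨ψ, hψd⟩ : ∃ ψ, ψ = μ * y - 1 := ⟨_, rfl⟩
    have hμ0 : 0 < μ := by linarith only [hμ8]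
    have hT0 : 8 / 5 ≤ T := by
      rw [hT]
      nlinarith only [hμ8, hH2]
    have hz0 : 0 < z := by rw [hz]; exact mul_pos (by linarith only [hH2]) hζ
    have hlz : l ≤ z := by
      rw [hz]
      nlinarith only [hζ1, hH2]
    have hrz : r * z ≤ E := by
      rw [hz]
      linarith only [hEr]
    have hφ : E ^ 2 + η ^ 2 + z ^ 2 - (T ^ 2 - 2) * η * E - t * z * E - t * z * η - T ^ 2 = 0 := by
      have h1 : T * g = E + η + z := by rw [hEd]; ring
      have h2 : T ^ 2 * (g ^ 2 - 1) = T ^ 2 * (η * E + ζ * (μ * g - ζ)) := by rw [hN]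
      have h3 : T ^ 2 * (ζ * (μ * g - ζ)) = μ ^ 2 * z * (T * g) - μ ^ 2 * z ^ 2 := by
        rw [hz, hT]
        ring
      have h4 : T ^ 2 * (g ^ 2 - 1) = (T * g) ^ 2 - T ^ 2 := by ring
      rw [h4, mul_add, h3, h1] at h2
      rw [ht]
      linear_combination h2
    by_contra hcon
    rw [not_le] at hcon
    have hfail : η + (T + 1) * (E - ψ * z) < T * (T + 1) := by
      have h1 : T * (T + 1) * (g - τ * η - y * ζ) < T * (T + 1) * 1 :=
        mul_lt_mul_of_pos_left hcon (by positivity)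
      have h2 : T * (T + 1) * (g - τ * η - y * ζ) = η + (T + 1) * (E - ψ * z) := by
        have h3 : T * g = E + η + z := by rw [hEd]; ring
        have h4 : T * (y * ζ) = (ψ + 1) * z := by
          rw [hψd, hz, hT]
          ring
        linear_combination (T + 1) * h3 - (T * η) * hτ - (T + 1) * h4
      rw [h2] at h1
      linarith only [h1]
    have ht56 : 0 ≤ t + 1 := by
      rw [ht]
      nlinarith only [hμ8]
    have hzt : z ≤ (t + 1) * E := by
      have h1 : (t + 1) * (r * z) ≤ (t + 1) * E := mul_le_mul_of_nonneg_left hrz ht56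
      have h2 : 1 * z ≤ (r * (μ ^ 2 - 1)) * z := mul_le_mul_of_nonneg_right hrt1 hz0.le
      rw [ht] at h1 ⊢
      linarith only [h1, h2]
    have hE1 : 1 ≤ E := hE
    -- the coordinate `w`
    have hw : 0 ≤ (T ^ 2 - 2) * E + t * z - η ∧ ((T ^ 2 - 2) * E + t * z - η = 0 ∨
        1 ≤ (T ^ 2 - 2) * E + t * z - η) := by
      have hR := D.hR
      have r1 := hR.r2 _ _ _ D.hx
      have f1 : 2 * b2 * g + 2 * bO * x1 - x2 = μ * g - ζ := by
        rw [D.e1, D.e2, hH11, ← hl', hl, hμ]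
        ring
      rw [f1] at r1
      have r2 := hR.r1 _ _ _ r1
      have f2 : 2 * b1 * g + 2 * bO * (μ * g - ζ) - x1 = E := by
        rw [D.e1, hH11, D.hb1, hEd, hz, ← hl, hT]
        ring
      rw [f2] at r2
      have r3 := hR.r2 _ _ _ r2
      have f3 : 2 * b2 * g + 2 * bO * E - (μ * g - ζ) = l * E + ζ := by
        rw [← hl, hμ]
        ring
      rw [f3] at r3
      have r4 := hR.r0 _ _ _ r3
      have f4 : 2 * b1 * E + 2 * b2 * (l * E + ζ) - g = μ * (l * E + ζ) - g := by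
        rw [D.hb1, hμ]
        ring
      rw [f4] at r4
      have r5 := hR.r2 _ _ _ r4
      have f5 : 2 * b2 * (μ * (l * E + ζ) - g) + 2 * bO * E - (l * E + ζ) =
          μ * (μ * (l * E + ζ) - g) - ζ := by
        rw [← hl, hμ]
        ring
      rw [f5] at r5
      have z5 := (hR.z1 r5 (by linarith only [hE1])).2.2
      have hM : 0 < μ * (l * E + ζ) - g := by
        have h1 : 0 ≤ μ * (μ * (l * E + ζ) - g) - ζ := by rcases z5 with h | h <;> linarith only [h]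
        have h2 : 0 < μ * (μ * (l * E + ζ) - g) := by linarith only [hζ1, h1]
        exact (mul_pos_iff_of_pos_left hμ0).1 h2
      have r6 := hR.r1 _ _ _ r5
      have f6 : 2 * b1 * (μ * (l * E + ζ) - g) + 2 * bO * (μ * (μ * (l * E + ζ) - g) - ζ) - E =
          (T ^ 2 - 2) * E + t * z - η := by
        have h1 : T * g = E + η + z := by rw [hEd]; ring
        rw [D.hb1, ← hl]
        have h2 : 2 * 0 * (μ * (l * E + ζ) - g) + l * (μ * (μ * (l * E + ζ) - g) - ζ) - E =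
            T * (T * E + μ * ζ - g) - z - E := by
          rw [hT, hz]
          ring
        rw [h2]
        have h3 : T * (μ * ζ) = μ ^ 2 * z := by
          rw [hT, hz]
          ring
        rw [ht]
        linear_combination h3 - h1
      rw [f6] at r6
      have z6 := (hR.z0 r6 hM).2.1
      refine ⟨?_, z6⟩
      rcases z6 with h | h <;> linarith only [h]
    have hls : l = 1 ∨ (1 ≤ l ∧ 2 ≤ l ^ 2) := h2s
    have hmain : ((l = 1 ∧ 3 ≤ μ ^ 2) ∨ (1 ≤ l ∧ 2 ≤ l ^ 2)) → η + (T + 1) * E ≤ T * (T + 1) → False := by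
      intro h1 h2
      have := p4 hT ht hμ8 hμc h1 hE1 hη1 hlz hzt h2
      linarith only [hφ, this]
    rcases hJ with ⟨hj1, hj2⟩ | V
    · -- `j = 4`
      have hψ0 : ψ = 0 := by rw [hψd]; linarith only [hj1]
      rw [hψ0, zero_mul, sub_zero] at hfail
      by_cases hc : l = 1 ∧ μ ^ 2 = μ + 1
      · obtain ⟨c1, c2⟩ := hc
        have hTμ : T = μ := by rw [hT, c1, mul_one]
        rw [hTμ] at hfail hφ hw
        have htμ : t = μ - 1 := by rw [ht]; linarith only [c2]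
        have hzμ : z ≤ μ * E := by
          have : t + 1 = μ := by rw [htμ]; ring
          rw [← this]
          exact hzt
        have ew : (μ ^ 2 - 2) * E + t * z - η = (μ - 1) * (E + z) - η := by
          rw [htμ]
          linear_combination E * c2
        rw [ew] at hw
        refine h3 c2 hμ0 hE1 hη1 (by linarith only [hlz, c1]) hzμ rfl hw.2 ?_ hfail
        rw [ht] at hφ
        linear_combination hφ
      · refine hmain ?_ hfail.le
        rcases hls with h | h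
        · left
          refine ⟨h, ?_⟩
          rcases hμc with h' | h'
          · exact absurd ⟨h, h'⟩ hc
          · exact h'
        · exact Or.inr h
    · -- `j ≥ 5`
      have h3 := V.μ3
      have hTμ : μ ≤ T := by
        rw [hT]
        nlinarith only [hT, hH2, hT0]
      rcases le_or_gt (η + (T + 1) * E) (T * (T + 1)) with h | h
      · refine hmain ?_ h
        rcases hls with h' | h'
        · exact Or.inl ⟨h', h3⟩
        · exact Or.inr h'
      · rcases le_total (η + z) ((T ^ 2 - 1) * E) with h' | h'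
        · have := p3b V hT hls ht hψd hE1 hη1 hz0 hrz h' hfail h
          linarith only [hφ, this]
        · have hTl : T = μ ∨ 2 ≤ T := by
            rcases hls with h4 | ⟨h4, h5⟩
            · left
              rw [hT, h4, mul_one]
            · right
              have h6 : 2 * 3 ≤ l ^ 2 * μ ^ 2 := mul_le_mul h5 h3 (by norm_num) (by positivity)
              have h7 : T ^ 2 = l ^ 2 * μ ^ 2 := by rw [hT]; ring
              nlinarith only [hT0, h6, h7]
          have := p3a V hTμ hTl ht hψd hz0.le hrz h' (by linarith only [hw.1]) hfail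
          linarith only [hφ, this]
  · -- `s ≥ 1`
    refine p3s (E := T * g - η - H2 * ζ) hT hμ8 h2s hs1 hH1 nh rfl hE hEr hη1 D.hvζ (by linarith only [hg]) ?_ hτ hy0 hy1
      hyμ hψ hrψ hry hrμ
    rw [hN]
    ring

end Pool.Agent.Helper40.DY.NB
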