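import Pool.Agent.Helper40.DY.NB5
import Pool.Agent.Helper62.DY.NG0

/-!
# NGi with `b1 = 0`: the fan at `<t, h>`, index `3` at `V_2` (MP_d13a5e_al)
-/

set_option autoImplicit false

namespace Pool.Agent.Helper40.DY.NB

open _root_.DY (Z1 sq sq_zero sq_one sq_two sq_succ sq_cassini sq_le_succ one_le_of_sq)
open Pool.Agent.Helper62.DY (RT om_lim)
open Pool.Agent.Helper57.DY (sq_ge_l p5_ge p5_zero rt_b2s single3)

/-- `τ ≤ e` -/
theorem tau_le_e {c e τ : ℝ} {k : ℕ} (he : e ^ 2 - 2 * c * e + 1 = 0) (he0 : 0 < e)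
    (hs : 0 < sq c (k + 1)) (hτ : τ * sq c (k + 1) = sq c k - 1) : τ ≤ e := by
  have hid : ∀ n, e * sq c (n + 1) - sq c n = e ^ (n + 1) := by
    intro n
    induction n with
    | zero =>
      rw [sq_zero, sq_one]
      ring
    | succ n ih =>
      have h1 : sq c (n + 1 + 1) = 2 * c * sq c (n + 1) - sq c n := sq_succ c n
      rw [h1, pow_succ, ← ih]
      linear_combination (-(sq c (n + 1))) * he
  have h1 := hid k
  have h2 : 0 < e ^ (k + 1) := by positivity
  have h3 : τ * sq c (k + 1) ≤ e * sq c (k + 1) := by linarith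
  exact le_of_mul_le_mul_right h3 hs

/-- the fan -/
theorem fan {c τ g a : ℝ} {k : ℕ} (hnx : ∀ n, 0 < sq c n → sq c (n + 1) = 0 ∨ 1 ≤ sq c (n + 1))
    (hone : ∀ n, 0 < sq c n → 1 ≤ sq c n)
    (hs : ∀ i ≤ k + 1, 0 < sq c (i + 1)) (hτ : τ * sq c (k + 2) = sq c (k + 1) - 1) (hg : 0 < g) (ha : 0 < a)
    (hE : ∀ i ≤ k, 0 < sq c (i + 1) * g - sq c i * a)
    (hD : ∀ n, sq c (n + 1) * g - sq c n * a = 0 ∨ 1 ≤ |sq c (n + 1) * g - sq c n * a|) :
    1 ≤ g - τ * a ∨ (1 ≤ c ∧ ∀ n, sq c n * a < sq c (n + 1) * g) := by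
  by_cases hcon : 1 ≤ g - τ * a
  · exact Or.inl hcon
  right
  have key : ∀ m, k ≤ m → (∀ i ≤ m, 0 < sq c (i + 1) * g - sq c i * a) ∧ (∀ i ≤ m, 1 ≤ sq c (i + 1)) ∧
      1 ≤ sq c (m + 1) - τ * sq c (m + 2) ∧ 0 ≤ sq c m - τ * sq c (m + 1) := by
    intro m hm
    induction m, hm using Nat.le_induction with
    | base =>
      refine ⟨hE, fun i hi => hone _ (hs i (by omega)), by linarith, ?_⟩
      have h1 := sq_cassini c k
      have h2 : 0 < sq c (k + 2) := hs (k + 1) le_rfl
      have h3 : 1 ≤ sq c (k + 1) := hone _ (hs k (by omega))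
      have h4 : 0 ≤ sq c (k + 2) * (sq c k - τ * sq c (k + 1)) := by
        have e : sq c (k + 2) * (sq c k - τ * sq c (k + 1)) = sq c (k + 1) - 1 := by
          linear_combination (-1) * h1 - sq c (k + 1) * hτ
        rw [e]
        linarith
      exact (mul_nonneg_iff_of_pos_left h2).1 h4
    | succ m hm ih =>
      obtain ⟨i1, i2, i3, i4⟩ := ih
      have i1m := i1 m le_rfl
      have i2m := i2 m le_rfl
      have hEm : 1 ≤ sq c (m + 1) * g - sq c m * a := by
        rcases hD m with h | h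
        · linarith
        · rw [abs_of_pos i1m] at h
          exact h
      have e1 : sq c (m + 1 + 1) = sq c (m + 2) := rfl
      have e2 : sq c (m + 1 + 2) = sq c (m + 3) := rfl
      have hpos : 0 < sq c (m + 2) * g - sq c (m + 1) * a := by
        by_contra h
        apply hcon
        have h1 := sq_cassini c m
        have e : g - τ * a = (sq c (m + 1) - τ * sq c (m + 2)) * (sq c (m + 1) * g - sq c m * a) +
            (sq c m - τ * sq c (m + 1)) * -(sq c (m + 2) * g - sq c (m + 1) * a) := by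
          linear_combination (τ * a - g) * h1
        rw [e]
        have h2 : 1 * 1 ≤ (sq c (m + 1) - τ * sq c (m + 2)) * (sq c (m + 1) * g - sq c m * a) :=
          mul_le_mul i3 hEm zero_le_one (by linarith)
        have h3 : 0 ≤ (sq c m - τ * sq c (m + 1)) * -(sq c (m + 2) * g - sq c (m + 1) * a) :=
          mul_nonneg i4 (by linarith [not_lt.1 h])
        linarith
      have hsm : 0 < sq c (m + 2) := by
        have h1 : 0 ≤ sq c (m + 1) * a := mul_nonneg (by linarith) ha.le
        have h2 : 0 < sq c (m + 2) * g := by linarith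
        exact (mul_pos_iff_of_pos_right hg).1 h2
      have hsm1 := hone _ hsm
      refine ⟨?_, ?_, ?_, ?_⟩
      · intro i hi
        rcases Nat.lt_or_ge i (m + 1) with h | h
        · exact i1 i (by omega)
        · have : i = m + 1 := by omega
          rw [this]
          exact hpos
      · intro i hi
        rcases Nat.lt_or_ge i (m + 1) with h | h
        · exact i2 i (by omega)
        · have : i = m + 1 := by omega
          rw [this]
          exact hsm1
      · rw [e1, e2]
        rcases hnx _ hsm with h | h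
        · have h' : sq c (m + 3) = 0 := h
          rw [h', mul_zero]
          linarith
        · have h' : 1 ≤ sq c (m + 3) := h
          have h1 : sq c (m + 2) ^ 2 - sq c (m + 1) * sq c (m + 3) = 1 := sq_cassini c (m + 1)
          have h2 : sq c (m + 2) ≤ sq c (m + 3) + 1 := sq_le_succ (by linarith) (by
            have : sq c (m + 2 + 1) = sq c (m + 3) := rfl
            linarith)
          have h3 : τ * sq c (m + 2) * sq c (m + 3) ≤ (sq c (m + 1) - 1) * sq c (m + 3) :=
            mul_le_mul_of_nonneg_right (by linarith) (by linarith)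
          have h4 : sq c (m + 2) * (τ * sq c (m + 3)) ≤ sq c (m + 2) * (sq c (m + 2) - 1) := by
            linarith
          have h5 := le_of_mul_le_mul_left h4 hsm
          linarith
      · rw [e1]
        linarith
  have h1 : ∀ n, 1 ≤ sq c (n + 1) := fun n => (key (max n k) (le_max_right _ _)).2.1 n (le_max_left _ _)
  refine ⟨one_le_of_sq h1, fun n => ?_⟩
  have := (key (max n k) (le_max_right _ _)).1 n (le_max_left _ _)
  linarith

variable {R : ℝ → ℝ → ℝ → Prop} {b1 b2 bO H1 H2 g x1 x2 η ζ T s : ℝ}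

/-- **`j = 3`** -/
theorem GE.j3 (D : GE R b1 b2 bO H1 H2 g x1 x2 η ζ T s) {c τ : ℝ} {k : ℕ} (hc : T = 2 * c)
    (hμ : 2 ≤ (2 * b2) ^ 2)
    (hnx : ∀ n, 0 < sq c n → sq c (n + 1) = 0 ∨ 1 ≤ sq c (n + 1)) (hone : ∀ n, 0 < sq c n → 1 ≤ sq c n)
    (hs : ∀ i ≤ k + 2, 0 < sq c (i + 1)) (hτ : τ * sq c (k + 3) = sq c (k + 2) - 1)
    (hE : ∀ i ≤ k + 1, 0 < sq c (i + 1) * g - sq c i * (η + H2 * ζ))
    (hD : ∀ n, sq c (n + 1) * g - sq c n * (η + H2 * ζ) = 0 ∨
      1 ≤ |sq c (n + 1) * g - sq c n * (η + H2 * ζ)|) :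
    1 ≤ g - τ * η - 1 / (2 * b2 + 1) * ζ := by
  have hg := D.hg
  have hη := D.hη
  have hζ := D.hζ
  have hH1 := D.hH1
  have hH2 := D.hH2
  have hb2 := D.hb2
  have hT := D.hT
  have ha : 0 < η + H2 * ζ := by
    have : 0 < H2 * ζ := mul_pos (by linarith) hζ
    linarith
  have p2 : 1 ≤ sq c (k + 2) := hone _ (hs (k + 1) (by omega))
  have p3 : 1 ≤ sq c (k + 3) := hone _ (hs (k + 2) le_rfl)
  have p1 : 1 ≤ sq c (k + 1) := hone _ (hs k (by omega))
  rcases fan (k := k + 1) hnx hone hs hτ (by linarith) ha hE hD with h | ⟨hc1, h⟩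
  · -- a fan root
    have hc0 : 0 ≤ c := by
      have : 0 < 2 * b2 * H2 := mul_pos (by linarith) (by linarith)
      linarith
    have h1 : T + 1 ≤ sq c (k + 2) + sq c (k + 1) := by
      rcases Nat.eq_zero_or_pos k with h | h
      · subst h
        have e2 : sq c (0 + 2) = 2 * c := sq_two
        have e1 : sq c (0 + 1) = 1 := sq_one
        rw [e2, e1, hc]
      · have h2 : 2 * c ≤ sq c (k + 2) := by
          refine sq_ge_l hc0 ?_ (by linarith) ?_
          · rcases Nat.eq_zero_or_pos k with h3 | h3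
            · rw [h3, sq_zero]
            · obtain ⟨m, rfl⟩ : ∃ m, k = m + 1 := ⟨k - 1, by omega⟩
              exact (hs m (by omega)).le
          · have h4 := hnx (k + 3) (by linarith)
            have h5 : sq c (k + 3 + 1) = sq c (k + 4) := rfl
            rw [h5] at h4
            rcases h4 with h4 | h4 <;> linarith
        rw [hc]
        linarith
    have h2 : 1 ≤ τ * (T + 1) := by
      have h3 : sq c (k + 3) * 1 ≤ sq c (k + 3) * (τ * (T + 1)) := by
        have e : sq c (k + 3) * (τ * (T + 1)) = (sq c (k + 2) - 1) * (T + 1) := by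
          linear_combination (T + 1) * hτ
        have e3 : sq c (k + 3) = 2 * c * sq c (k + 2) - sq c (k + 1) := sq_succ c (k + 1)
        rw [e, e3, ← hc]
        linarith
      exact le_of_mul_le_mul_left h3 (by linarith)
    have hτ0 : 0 ≤ τ := by
      by_contra h3
      have hT0 : 0 < T := by rw [hT]; exact mul_pos (by linarith) (by linarith)
      have := mul_neg_of_neg_of_pos (not_le.1 h3) (by linarith : 0 < T + 1)
      linarith
    have h3 : 1 / (2 * b2 + 1) ≤ τ * H2 := by
      rw [div_le_iff₀ (by linarith)]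
      have h4 : τ * (T + 1) ≤ τ * (T + H2) := mul_le_mul_of_nonneg_left (by linarith) hτ0
      rw [hT] at h2 h4
      linarith
    have h4 := mul_le_mul_of_nonneg_right h3 hζ.le
    linarith
  · -- beyond
    have h0 : 0 ≤ c ^ 2 - 1 := by nlinarith
    have h1 := Real.sq_sqrt h0
    have h2 := Real.sqrt_nonneg (c ^ 2 - 1)
    obtain ⟨e, he0, he1, hee⟩ : ∃ e : ℝ, 0 < e ∧ e ≤ 1 ∧ e ^ 2 - 2 * c * e + 1 = 0 := by
      refine ⟨c - Real.sqrt (c ^ 2 - 1), ?_, ?_, ?_⟩ <;> nlinarith
    have hea : e * (η + H2 * ζ) ≤ g := by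
      have h3 : e ≤ g / (η + H2 * ζ) := by
        refine om_lim hc1 hee he0 he1 (fun n => ?_)
        rw [div_mul_eq_mul_div, le_div_iff₀ ha]
        have := h n
        linarith
      rw [le_div_iff₀ ha] at h3
      exact h3
    have hce : e ^ 2 + 1 = (2 * b1 * H1 + 2 * b2 * H2) * e := by
      rw [D.hb1]
      have : 2 * b2 * H2 = 2 * c := by rw [← hT, hc]
      rw [this]
      linear_combination hee
    have hH : H2 * e * ζ ≤ g - e * η := by linarith
    have hκ : ζ ≤ 2 * b2 * (g - e * η) := by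
      have h3 : 2 * b2 * (H2 * e * ζ) ≤ 2 * b2 * (g - e * η) := mul_le_mul_of_nonneg_left hH (by linarith)
      have h4 : 2 * b2 * (H2 * e * ζ) = (e ^ 2 + 1) * ζ := by
        rw [hce, D.hb1]
        ring
      have h5 : 0 ≤ e ^ 2 * ζ := by positivity
      linarith
    have hτe : τ ≤ e := tau_le_e hee he0 (by linarith : 0 < sq c (k + 2 + 1)) hτ
    rcases single3 D.hR D.hh hH1 hH2 he0 he1 hce D.hx D.hx1 D.e1 D.e2 hζ (by linarith) hμ hκ hH with h3 | h3
    · have h4 : 1 ≤ g - e * η - 1 / (2 * b2 + 1) * ζ := by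
        have h5 : (2 * b2 + 1) * 1 ≤ (2 * b2 + 1) * (g - e * η - 1 / (2 * b2 + 1) * ζ) := by
          have h6 : (2 * b2 + 1) * (g - e * η - 1 / (2 * b2 + 1) * ζ) = (2 * b2 + 1) * (g - e * η) - ζ := by
            have : 2 * b2 + 1 ≠ 0 := by linarith
            field_simp
          rw [h6]
          linarith
        exact le_of_mul_le_mul_left h5 (by linarith)
      have h7 := mul_le_mul_of_nonneg_right hτe hη.le
      linarith
    · exfalso
      have := h3.1
      rw [D.hb1] at this
      norm_num at this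

end Pool.Agent.Helper40.DY.NB
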