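import Pool.Agent.Helper40.DY.NB6
import Pool.Agent.Helper18.DY.NGiO

/-!
# NGi with `b1 = 0`: index `3` at `h` or index `≤ 3` at `V_2` (MP_d13a5e_al)
-/

set_option autoImplicit false

namespace Pool.Agent.Helper40.DY

open _root_.DY (Z1 Tri Str Loc Xs ORt OFA Good Canon sq sq_zero sq_one sq_two sq_succ CP pu)
open Pool.Agent.Helper62.DY (RT rt_of_tri)
open Pool.Agent.Helper18.DY (det_tri Xs.phi_ne)
open NB

variable {E : Type*} [AddCommGroup E] [Module ℝ E] {Ψ : Set E} {B : E →ₗ[ℝ] E →ₗ[ℝ] ℝ}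
  {ρ φ : E →ₗ[ℝ] ℝ} {t d1 d2 x x' : E} {g x1 x2 g' x1' x2' : ℝ}

/-- **NGi** with `b1 = 0`, index `3` at `h` or index at most `3` at `V_2` -/
theorem ngi0_lt {al1 al2 be1 be2 : ℝ} (X : Xs Ψ B ρ φ t d1 d2 x x' g x1 x2 g' x1' x2')
    (O : OFA Ψ B φ d1 d2 al1 al2 be1 be2) (hbe : 1 ≤ be1) (hu : x1 * be2 ≤ x2 * be1) (hg' : 1 ≤ g')
    (hb1 : B t d1 = 0) (hb2 : 1 / 2 ≤ -B t d2) {k2 : ℕ} (hk2 : Good (-B t d2) (φ d2) k2) {k : ℕ}
    (hk : 2 ≤ k) (hkh : Good (be1 * -B t d1 + be2 * -B t d2) (be1 * φ d1 + be2 * φ d2) k)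
    (hlt : k2 < 3 ∨ k = 2) : False := by
  have rh := O.rh
  have fh := O.fh
  have L := X.L
  have hT := L.tri
  have h := rt_of_tri hT
  have hal : be2 = al1 := by
    linear_combination (al1 + B d1 d2 * al2) * O.det + al2 * O.adj - be2 * O.ra.nrm
  have hbe2 : 1 ≤ be2 := by
    rcases rh.z2 with h1 | h1
    · exfalso
      rw [h1] at fh
      have := mul_nonneg (by linarith only [hbe] : 0 ≤ be1) X.h1
      linarith only [fh, this]
    · exact h1
  have hR : (0 : ℝ) • t + be1 • d1 + be2 • d2 ∈ Ψ := by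
    have e : (0 : ℝ) • t + be1 • d1 + be2 • d2 = be1 • d1 + be2 • d2 := by module
    rw [e]
    exact rh.mem
  have hRa : (0 : ℝ) • t + al1 • d1 + al2 • d2 ∈ Ψ := by
    have e : (0 : ℝ) • t + al1 • d1 + al2 • d2 = al1 • d1 + al2 • d2 := by module
    rw [e]
    exact O.ra.mem
  have hx : g • t + x1 • d1 + x2 • d2 ∈ Ψ := by
    rw [← X.e]
    exact L.xm
  have hSh := L.str_h rh
  have hS2 := L.str_2
  have hκ := X.h2
  have hfz := X.c.fz
  -- the pencil of `t` and `h`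
  have hCP : CP Ψ B t (be1 • d1 + be2 • d2) (-B t (be1 • d1 + be2 • d2)) :=
    hT.cp_opp rh.mem rfl (by linarith only [hbe]) (by linarith only [hbe2])
  have hch : -B t (be1 • d1 + be2 • d2) = be1 * -B t d1 + be2 * -B t d2 := by
    simp only [map_add, map_smul, smul_eq_mul]
    ring
  rw [hch] at hCP
  obtain ⟨η, hη⟩ : ∃ η, η = x1 / be1 := ⟨_, rfl⟩
  obtain ⟨ζ, hζd⟩ : ∃ ζ, ζ = x2 - be2 * η := ⟨_, rfl⟩
  have p1 := X.p1
  have hx1 : x1 = be1 * η := by
    rw [hη]
    field_simp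
  have hx2 : x2 = ζ + be2 * η := by linarith only [hζd]
  have hη0 : 0 < η := by
    rw [hη]
    positivity
  have hgφ : g = η * -(be1 * φ d1 + be2 * φ d2) + -φ d2 * ζ := by
    rw [hfz, hx1, hx2]
    ring
  have hζ0 : 0 ≤ ζ := by
    have e1 : be1 * ζ = x2 * be1 - x1 * be2 := by
      rw [hζd]
      rw [hη]
      field_simp
    have e2 : 0 ≤ be1 * ζ := by linarith only [hu, e1]
    by_contra hcon
    have := mul_neg_of_pos_of_neg (by linarith only [hbe] : 0 < be1) (not_le.1 hcon)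
    linarith only [e2, this]
  have hηq := mul_pos hη0 (by linarith only [fh] : 0 < -(be1 * φ d1 + be2 * φ d2))
  have hκζ := mul_nonneg (by linarith only [hκ] : 0 ≤ -φ d2) hζ0
  have hg0 : 0 < g := by linarith only [hgφ, hηq, hκζ]
  have hg1 := (h.z0 hx hg0).1
  have hζ : 0 < ζ := by
    rcases hζ0.lt_or_eq with h1 | h1
    · exact h1
    · exfalso
      have e1 : be1 • d1 + be2 • d2 = (1 / η) • x + (-(g / η)) • t := by
        rw [X.e, hx1, hx2, ← h1]
        match_scalars <;> field_simp <;> ring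
      exact Pool.Agent.Helper62.DY.canon_neg L.cxt rh.mem e1 (by positivity) (by
        have : 0 < g / η := by positivity
        linarith only [this])
  -- `φ a > 0`
  have hfa : 0 < al1 * φ d1 + al2 * φ d2 := by
    rcases O.fa.lt_or_eq with h1 | h1
    · exact h1
    · exact absurd h1.symm (Xs.phi_ne X hg1 hg' O.ra.mem)
  have hκe : be2 * -(be1 * φ d1 + be2 * φ d2) < -φ d2 := by
    have e1 : -φ d2 = be2 * -(be1 * φ d1 + be2 * φ d2) + be1 * (al1 * φ d1 + al2 * φ d2) := by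
      have h1 := O.det
      rw [← hal] at h1 ⊢
      linear_combination (φ d2) * h1
    have h2 := mul_pos (by linarith only [hbe] : 0 < be1) hfa
    linarith
  -- determinants
  have dζ := det_tri (D := be1 * ζ) hT hx h.e0 hR (by rw [hx1, hx2]; ring)
  have hdet : be1 * al2 - be2 * al1 = -1 := by linarith only [O.det]
  have dE : ∀ c, c = be1 * -B t d1 + be2 * -B t d2 → ∀ n, sq c (n + 1) * g - sq c n * (η + be2 * ζ) = 0 ∨
      1 ≤ |sq c (n + 1) * g - sq c n * (η + be2 * ζ)| := by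
    intro c hc n
    have hu : sq c n • t + (sq c (n + 1) * be1) • d1 + (sq c (n + 1) * be2) • d2 ∈ Ψ := by
      have h1 := hCP.mem n
      rw [← hc] at h1
      have e : pu c t (be1 • d1 + be2 • d2) n =
          sq c n • t + (sq c (n + 1) * be1) • d1 + (sq c (n + 1) * be2) • d2 := by
        unfold pu
        module
      rw [e] at h1
      exact h1
    have := det_tri (D := -(sq c (n + 1) * g - sq c n * (η + be2 * ζ))) hT hx hu hRa (by
      rw [hx1, hx2, ← hal]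
      have h1 := hdet
      rw [← hal] at h1
      linear_combination (-(g * sq c (n + 1)) + sq c n * η) * h1)
    rw [abs_neg, neg_eq_zero] at this
    exact this
  obtain ⟨bO, hbO⟩ : ∃ bO, bO = -B d1 d2 := ⟨_, rfl⟩
  obtain ⟨b1, hb1d⟩ : ∃ b1, b1 = -B t d1 := ⟨_, rfl⟩
  obtain ⟨b2, hb2d⟩ : ∃ b2, b2 = -B t d2 := ⟨_, rfl⟩
  obtain ⟨fH, hfH⟩ : ∃ fH, fH = be1 * φ d1 + be2 * φ d2 := ⟨_, rfl⟩
  obtain ⟨T, hTd⟩ : ∃ T, T = 2 * b2 * be2 := ⟨_, rfl⟩
  obtain ⟨m, hm⟩ : ∃ m, m = 2 * bO * be1 - be2 := ⟨_, rfl⟩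
  have hb10 : b1 = 0 := by rw [hb1d, hb1, neg_zero]
  rw [← hb2d] at hb2 hk2 hS2
  obtain ⟨c, hc⟩ : ∃ c, c = be1 * -B t d1 + be2 * -B t d2 := ⟨_, rfl⟩
  have hdE := dE c hc
  rw [← hc, ← hfH] at hkh hSh
  rw [← hc] at hCP
  have hcT : T = 2 * c := by
    rw [hTd, hc, hb1, ← hb2d]
    ring
  rw [← hfH] at hgφ hκe fh
  have hT0 : 0 < T := by
    rw [hTd]
    exact mul_pos (by linarith only [hb2]) (by linarith only [hbe2])
  have D : GE (fun g x1 x2 => g • t + x1 • d1 + x2 • d2 ∈ Ψ) b1 b2 bO be1 be2 g x1 x2 η ζ T m :=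
    { hR := by
        rw [hb1d, hb2d, hbO]
        exact h
      hb1 := hb10
      hb2 := by linarith only [hb2]
      hT := hTd
      hs := hm
      hh := hR
      hH1 := hbe
      hH2 := hbe2
      hx := hx
      hg := hg1
      hx1 := p1
      e1 := hx1
      e2 := hx2
      hζ := hζ
      hη := hη0
      hvζ := by
        have h1 : 0 < be1 * ζ := mul_pos (by linarith only [hbe]) hζ
        rcases dζ with h2 | h2
        · linarith only [h1, h2]
        · rw [abs_of_pos h1] at h2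
          exact h2 }
  have hnx : ∀ n, 0 < sq c n → sq c (n + 1) = 0 ∨ 1 ≤ sq c (n + 1) := fun n hn => hCP.sq_next hn
  have hone : ∀ n, 0 < sq c n → 1 ≤ sq c n := fun n hn => hCP.sq_one_le hn
  -- the fan roots below the index are positive
  have hEp : ∀ i, i < k → 0 < sq c (i + 1) * g - sq c i * (η + be2 * ζ) := by
    intro i hi
    have h1 := hkh.hm i hi
    have h2 := hkh.hs i hi.le
    rw [hgφ]
    have h3 : sq c i * η ≤ sq c (i + 1) * -fH * η := mul_le_mul_of_nonneg_right (by linarith only [h1]) hη0.le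
    have h4 : sq c i * (be2 * ζ) ≤ sq c (i + 1) * -fH * (be2 * ζ) :=
      mul_le_mul_of_nonneg_right (by linarith only [h1]) (mul_nonneg (by linarith only [hbe2]) hζ.le)
    have h5 : sq c (i + 1) * ζ * (be2 * -fH) < sq c (i + 1) * ζ * -φ d2 :=
      mul_lt_mul_of_pos_left hκe (mul_pos h2 hζ)
    linarith only [h3, h4, h5]
  have hρ := X.le_one.1
  obtain ⟨rH, hrH⟩ : ∃ rH, rH = be1 * ρ d1 + be2 * ρ d2 := ⟨_, rfl⟩
  rw [← hrH] at hSh
  have hρx : g + x1 * ρ d1 + x2 * ρ d2 = g + η * rH + ζ * ρ d2 := by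
    rw [hx1, hx2, hrH]
    ring
  rw [hρx] at hρ
  obtain ⟨l, rfl⟩ : ∃ l, k = l + 2 := ⟨k - 2, by omega⟩
  have s3 : 0 < sq c (l + 3) := hkh.hs (l + 2) le_rfl
  obtain ⟨τ, hτd⟩ : ∃ τ, τ = (sq c (l + 2) - 1) / sq c (l + 3) := ⟨_, rfl⟩
  have hτ : τ * sq c (l + 3) = sq c (l + 2) - 1 := by
    rw [hτd]
    field_simp
  have hρh : -τ < rH := by
    have h1 := hkh.nk hSh fh
    have i1 : l + 2 + 1 = l + 3 := rfl
    rw [i1] at h1
    rw [hτd, neg_lt, lt_div_iff₀ s3]
    linarith only [h1]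
  have hηρ := mul_lt_mul_of_pos_left hρh hη0
  -- index at `V_2`
  have h1c : 1 ≤ T * -fH := by
    have h1 := hkh.hm 1 (by omega)
    have e1 : sq c (1 + 1) = 2 * c := sq_two
    have e2 : sq c 1 = 1 := sq_one
    rw [e1, e2, ← hcT] at h1
    linarith only [h1]
  have hj2 : 1 < 2 * b2 * -φ d2 := by
    have h2 : 2 * b2 * (be2 * -fH) < 2 * b2 * -φ d2 := mul_lt_mul_of_pos_left hκe (by linarith only [hb2])
    rw [hTd] at h1c
    linarith only [h1c, h2]
  have hk1 := hk2.pos hκ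
  have hk22 : 2 ≤ k2 := by
    by_contra hcon
    have h1 : k2 = 1 := by omega
    subst h1
    have h2 := hk2.hpos
    have e1 : sq b2 (1 + 1) = 2 * b2 := sq_two
    have e2 : sq b2 1 = 1 := sq_one
    rw [e1, e2] at h2
    linarith only [hj2, h2]
  rcases hk22.eq_or_lt with h4 | h4
  · -- `j = 3`
    subst h4
    have i3 : sq b2 (2 + 1) = (2 * b2) ^ 2 - 1 := by
      have : sq b2 3 = 2 * b2 * sq b2 2 - sq b2 1 := sq_succ b2 1
      have i4 : sq b2 (2 + 1) = sq b2 3 := rfl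
      rw [i4, this, sq_two, sq_one]
      ring
    have s3' : 1 ≤ sq b2 (2 + 1) := D.hR.pge 2 (hk2.hs 2 le_rfl)
    rw [i3] at s3'
    have hnk := hk2.nk hS2 hκ
    have i5 : sq b2 2 = 2 * b2 := sq_two
    rw [i3, i5] at hnk
    have hr2 : -(1 / (2 * b2 + 1)) < ρ d2 := by
      have h6 : 0 < 2 * b2 - 1 := by
        by_contra hcon
        nlinarith only [hb2, s3', hcon]
      have h5 : (1 / (2 * b2 + 1)) * (2 * b2 + 1) = 1 := by
        have : 2 * b2 + 1 ≠ 0 := by linarith only [h6]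
        field_simp
      have h7 : (2 * b2 - 1) * ((2 * b2 + 1) * -(1 / (2 * b2 + 1))) < (2 * b2 - 1) * ((2 * b2 + 1) * ρ d2) := by
        have e1 : (2 * b2 + 1) * -(1 / (2 * b2 + 1)) = -1 := by linear_combination (-1) * h5
        rw [e1]
        linarith only [hnk]
      have h8 := lt_of_mul_lt_mul_left h7 h6.le
      exact lt_of_mul_lt_mul_left h8 (by linarith only [h6])
    have hζρ := mul_lt_mul_of_pos_left hr2 hζ
    have h9 := D.j3 (c := c) (τ := τ) (k := l) hcT (by linarith only [s3']) hnx hone hkh.hs hτ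
      (fun i hi => hEp i (by omega)) hdE
    linarith only [hρ, hηρ, hζρ, h9]
  · -- `j ≥ 4`, `i = 3`
    have hl0 : l = 0 := by omega
    subst hl0
    obtain ⟨n, rfl⟩ : ∃ n, k2 = n + 3 := ⟨k2 - 3, by omega⟩
    have e2 : sq c (0 + 2) = 2 * c := sq_two
    have e3 : sq c (0 + 3) = T ^ 2 - 1 := by
      have : sq c 3 = 2 * c * sq c 2 - sq c 1 := sq_succ c 1
      have i4 : sq c (0 + 3) = sq c 3 := rfl
      rw [i4, this, sq_two, sq_one, hcT]
      ring
    have s3' : 1 ≤ sq c (0 + 3) := hone _ s3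
    rw [e2, e3, ← hcT] at hτ
    rw [e3] at s3'
    have hT1 : 1 < T := by
      by_contra hcon
      nlinarith only [hT0, s3', hcon]
    have hτ' : τ * (T + 1) = 1 := by
      have h1 : (T - 1) * (τ * (T + 1)) = (T - 1) * 1 := by linear_combination hτ
      exact mul_left_cancel₀ (by linarith only [hT1] : T - 1 ≠ 0) h1
    have hE3 : 1 ≤ T * g - η - be2 * ζ := by
      have h1 := hEp 1 (by norm_num)
      have h2 := hdE 1
      have i1 : sq c (1 + 1) = T := by rw [hcT]; exact sq_two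
      have i2 : sq c 1 = 1 := sq_one
      rw [i1, i2] at h1 h2
      rcases h2 with h3 | h3
      · linarith only [h1, h3]
      · rw [abs_of_pos h1] at h3
        linarith only [h3]
    have p3 : 0 < sq b2 (n + 3) := hk2.hs (n + 2) (by omega)
    have p4 : 0 < sq b2 (n + 4) := hk2.hs (n + 3) (by omega)
    obtain ⟨y, hyd⟩ : ∃ y, y = (sq b2 (n + 3) - 1) / sq b2 (n + 4) := ⟨_, rfl⟩
    have hy : y * sq b2 (n + 4) = sq b2 (n + 3) - 1 := by
      rw [hyd]
      field_simp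
    have hnk := hk2.nk hS2 hκ
    have i1 : n + 3 + 1 = n + 4 := rfl
    rw [i1] at hnk
    have hr2 : -y < ρ d2 := by
      rw [hyd, neg_lt, lt_div_iff₀ p4]
      linarith only [hnk]
    have hζρ := mul_lt_mul_of_pos_left hr2 hζ
    have hF : sq b2 (n + 3) * η + T * sq b2 (n + 2) * ζ ≤ T * sq b2 (n + 3) * g := by
      have h5 := hk2.hm (n + 2) (by omega)
      have i2 : n + 2 + 1 = n + 3 := rfl
      rw [i2] at h5
      have h6 : sq b2 (n + 3) * η * 1 ≤ sq b2 (n + 3) * η * (T * -fH) :=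
        mul_le_mul_of_nonneg_left h1c (by positivity)
      have h7 : T * ζ * sq b2 (n + 2) ≤ T * ζ * (sq b2 (n + 3) * -φ d2) :=
        mul_le_mul_of_nonneg_left (by linarith only [h5]) (by positivity)
      rw [hgφ]
      linarith only [h6, h7]
    have h9 := D.three (τ := τ) (y := y) n hk2.hs hy hτ' hE3 hF
    linarith only [hρ, hηρ, hζρ, h9]

end Pool.Agent.Helper40.DY
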