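import Pool.Agent.Helper40.DY.NGi0
import Pool.Agent.Helper18.DY.NGk
import Pool.Agent.Helper9.DY.NG4

/-!
# NGi with `b1 = 0` (MP_d13a5e_al)
-/

set_option autoImplicit false

namespace Pool.Agent.Helper40.DY

variable {E : Type*} [AddCommGroup E] [Module ℝ E]

/-- **NGi0**: the class `b1 = 0` of NGi -/
theorem ngi0 (Ψ : Set E) (B : E →ₗ[ℝ] E →ₗ[ℝ] ℝ) : Pool.Agent.Helper18.DY.NGi0 Ψ B := by
  intro ρ φ t d1 d2 x x' g x1 x2 g' x1' x2' al1 al2 be1 be2 X O hbe hu hg' hb1 hb2 ⟨k2, hk2⟩ ⟨k, hk, hkh⟩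
  by_cases h : k2 < 3 ∨ k = 2
  · exact ngi0_lt X O hbe hu hg' hb1 hb2 hk2 hk hkh h
  · have h1 : 3 ≤ k2 := by omega
    have h2 : 3 ≤ k := by omega
    exact Pool.Agent.Helper18.DY.ngi0_44 X O hbe hu hg' hb1 hb2 h1 hk2 h2 hkh

/-- **NG**: the nongap case -/
theorem ngStat (Ψ : Set E) (B : E →ₗ[ℝ] E →ₗ[ℝ] ℝ) : _root_.DY.NGStat Ψ B :=
  _root_.DY.ng_of4 (ngi0 Ψ B)

end Pool.Agent.Helper40.DY
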